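import Pool.Agent.MP_1d5a21_lc.Mg.Tr

attribute [-instance] GeneralizedCoheytingAlgebra.toLattice
  ConditionallyCompletePartialOrderSup.toPartialOrder LinearOrder.toDecidableLE
  ContinuousMonoidHom.instCoeOutOfMonoidHomClassOfContinuousMapClass Std.instDecidableLE
  Order.Coframe.toCompleteLattice GeneralizedHeytingAlgebra.toLattice
  CompletelyDistribLattice.toCompleteLattice Group.IsPerfect.subsingleton_of_isMulCommutative
  instCoeTCOfCoe OmegaCompletePartialOrder.toPartialOrder AddGroup.addLeftReflectLE_of_addLeftMono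
  Fintype.decidableForallFintype Order.Frame.toCompleteLattice CompleteSemilatticeSup.toPartialOrder
  ChainCompletePartialOrder.toPartialOrder LinearOrderedAddCommGroupWithTop.toOrderTop
  CompleteSemilatticeInf.toPartialOrder ConditionallyCompletePartialOrderInf.toPartialOrder
  Std.instDecidableLT LinearOrderedAddCommMonoidWithTop.toOrderTop AddQuantale.instAddLeftMono

-- part MP_1d5a21_lc.P0
section

/-!
The poset: countable sets of generators and promises, finitely many stems and trees.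
-/

set_option autoImplicit false
set_option linter.unusedSectionVars false

namespace Pool.Agent.MP_1d5a21_lc

open Set Pool.Agent.Lib.PosetForcing

/-- Codes of Boolean values. -/
inductive Code (K : Type) : Type
  | ff : Code K
  | bas (ξ : K) (n m : ℕ) : Code K
  | neg (c : Code K) : Code K
  | sup (f : ℕ → Code K) : Code K

abbrev Name (K : Type) : Type := ℕ → Code K

abbrev Tree (K : Type) : Type := (List ℕ → Name K) × (ℕ → List (Name K))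

inductive Item (K : Type) : Type
  | col (δ : O) (a : Set ℕ) : Item K
  | gen (ξ : K) (X : Name K) : Item K
  | pro (ξ : K) (Z : Name K) : Item K

@[ext] structure Raw (K : Type) where
  s : Set (Item K)
  st : K → List ℕ
  T : Set (K × Tree K)

variable {K : Type}

namespace Code

def supp : Code K → Set K
  | ff => ∅
  | bas ξ _ _ => {ξ}
  | neg c => c.supp
  | sup f => ⋃ n, (f n).supp

def tt : Code K := neg ff

open Classical in
noncomputable def cst (P : Prop) : Code K := if P then tt else ff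

def or2 (c d : Code K) : Code K := sup fun n => if n = 0 then c else d

def and2 (c d : Code K) : Code K := neg (or2 (neg c) (neg d))

noncomputable def supC {ι : Type} [Countable ι] (f : ι → Code K) : Code K :=
  sup fun n => ((@Encodable.decode ι (Encodable.ofCountable ι) n).map f).getD ff

noncomputable def infC {ι : Type} [Countable ι] (f : ι → Code K) : Code K :=
  neg (supC fun i => neg (f i))

def allL (u : List (Name K)) (m : ℕ) : Code K := u.foldr (fun X c => and2 (X m) c) tt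

noncomputable def pos (Z : Name K) (u : List (Name K)) (n : ℕ) : Code K :=
  sup fun m => and2 (cst (n ≤ m)) (and2 (Z m) (allL u m))

noncomputable def large (e : ℕ → List (Name K)) (Y : Name K) : Code K :=
  supC fun x : ℕ × ℕ => infC fun m : ℕ => or2 (neg (and2 (cst (x.2 ≤ m)) (allL (e x.1) m))) (Y m)

noncomputable def alw (Φ : Tree K) (τ : List ℕ) (m : ℕ) : Code K :=
  or2 (Φ.1 τ m) (neg (large Φ.2 (Φ.1 τ)))

theorem supp_countable : ∀ c : Code K, c.supp.Countable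
  | ff => countable_empty
  | bas _ _ _ => countable_singleton _
  | neg c => supp_countable c
  | sup f => countable_iUnion fun n => supp_countable (f n)

variable {A : Set K}

theorem s_tt : (tt : Code K).supp ⊆ A := empty_subset _

theorem s_neg {c : Code K} (h : c.supp ⊆ A) : (neg c).supp ⊆ A := h

theorem s_sup {f : ℕ → Code K} (h : ∀ n, (f n).supp ⊆ A) : (sup f).supp ⊆ A := iUnion_subset h

theorem s_cst (P : Prop) : (cst P : Code K).supp ⊆ A := by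
  unfold cst; split_ifs <;> exact empty_subset _

theorem s_or {c d : Code K} (h : c.supp ⊆ A) (h' : d.supp ⊆ A) : (or2 c d).supp ⊆ A :=
  s_sup fun n => by split_ifs <;> assumption

theorem s_and {c d : Code K} (h : c.supp ⊆ A) (h' : d.supp ⊆ A) : (and2 c d).supp ⊆ A :=
  s_neg (s_or h h')

theorem s_supC {ι : Type} [Countable ι] {f : ι → Code K} (h : ∀ i, (f i).supp ⊆ A) :
    (supC f).supp ⊆ A := s_sup fun n => by
  cases @Encodable.decode ι (Encodable.ofCountable ι) n with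
  | none => exact empty_subset _
  | some i => exact h i

theorem s_infC {ι : Type} [Countable ι] {f : ι → Code K} (h : ∀ i, (f i).supp ⊆ A) :
    (infC f).supp ⊆ A := s_neg (s_supC h)

theorem s_allL {u : List (Name K)} (h : ∀ X ∈ u, ∀ m, (X m).supp ⊆ A) (m : ℕ) :
    (allL u m).supp ⊆ A := by
  induction u with
  | nil => exact s_tt
  | cons X u ih => exact s_and (h X (by simp) m) (ih fun Y hY => h Y (by simp [hY]))

theorem s_pos {Z : Name K} {u : List (Name K)} (hZ : ∀ m, (Z m).supp ⊆ A)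
    (h : ∀ X ∈ u, ∀ m, (X m).supp ⊆ A) (n : ℕ) : (pos Z u n).supp ⊆ A :=
  s_sup fun m => s_and (s_cst _) (s_and (hZ m) (s_allL h m))

theorem s_alw {Φ : Tree K} (h1 : ∀ τ m, (Φ.1 τ m).supp ⊆ A)
    (h2 : ∀ j, ∀ X ∈ Φ.2 j, ∀ m, (X m).supp ⊆ A) (τ : List ℕ) (m : ℕ) : (alw Φ τ m).supp ⊆ A :=
  s_or (h1 τ m) (s_neg (s_supC fun x => s_infC fun k =>
    s_or (s_neg (s_and (s_cst _) (s_allL (h2 x.1) k))) (h1 τ k)))

end Code

open Code

def Item.bel (A : Set K) : Item K → Prop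
  | .col _ _ => True
  | .gen ξ _ => ξ ∈ A
  | .pro ξ _ => ξ ∈ A

theorem Item.bel_mono {A A' : Set K} (h : A ⊆ A') : ∀ {i : Item K}, i.bel A → i.bel A'
  | .col _ _, _ => trivial
  | .gen _ _, h' => h h'
  | .pro _ _, h' => h h'

/-- A condition with trivial finite part. -/
def pu (s : Set (Item K)) : Raw K := ⟨s, fun _ => [], ∅⟩

variable [LinearOrder K]

def resS (s : Set (Item K)) (ξ : K) : Set (Item K) := {i ∈ s | i.bel (Iio ξ)}

def Raw.res (r : Raw K) (ξ : K) : Raw K :=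
  ⟨resS r.s ξ, fun ζ => if ζ < ξ then r.st ζ else [], {x ∈ r.T | x.1 < ξ}⟩

theorem resS_resS (s : Set (Item K)) {ζ ξ : K} (h : ζ ≤ ξ) : resS (resS s ξ) ζ = resS s ζ :=
  Set.ext fun _ => ⟨fun h' => ⟨h'.1.1, h'.2⟩,
    fun h' => ⟨⟨h'.1, Item.bel_mono (Iio_subset_Iio h) h'.2⟩, h'.2⟩⟩

theorem resS_mono {s s' : Set (Item K)} (h : s ⊆ s') (ξ : K) : resS s ξ ⊆ resS s' ξ :=
  fun _ h' => ⟨h h'.1, h'.2⟩

theorem Raw.res_res (r : Raw K) {ζ ξ : K} (h : ζ ≤ ξ) : (r.res ξ).res ζ = r.res ζ := by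
  refine Raw.ext (resS_resS _ h) (funext fun η => ?_)
    (Set.ext fun x => ⟨fun h' => ⟨h'.1.1, h'.2⟩, fun h' => ⟨⟨h'.1, h'.2.trans_le h⟩, h'.2⟩⟩)
  by_cases h1 : η < ζ
  · simp only [res, mem_ofPred_eq, h1, ↓ reduceIte, h1.trans_le h]
  · simp [Raw.res, h1]

section defs

variable (pool : K → Set (Name K)) (F : K → Raw K → Code K → Prop)

structure ValS (s : Set (Item K)) : Prop where
  cnt : s.Countable
  fn : ∀ δ a a', .col δ a ∈ s → .col δ a' ∈ s → a = a'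
  gen : ∀ ξ X, .gen ξ X ∈ s →
    X ∈ pool ξ ∧ (∀ m, (X m).supp ⊆ Iio ξ) ∧ .pro ξ (fun _ => tt) ∈ s
  pro : ∀ ξ Z, .pro ξ Z ∈ s → ∀ m, (Z m).supp ⊆ Iio ξ
  pos : ∀ ξ Z u n, .pro ξ Z ∈ s → (∀ X ∈ u, .gen ξ X ∈ s) → F ξ (pu (resS s ξ)) (pos Z u n)

/-- The tree `x` only uses generators of `s`. -/
def TreeOk (s : Set (Item K)) (x : K × Tree K) : Prop :=
  (∀ τ m, (x.2.1 τ m).supp ⊆ Iio x.1) ∧ ∀ j, ∀ X ∈ x.2.2 j, .gen x.1 X ∈ s

structure Val (r : Raw K) : Prop where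
  s : ValS pool F r.s
  fin : {ξ | r.st ξ ≠ []}.Finite
  finT : r.T.Finite
  tr : ∀ x ∈ r.T, TreeOk r.s x

structure Le' (t r : Raw K) : Prop where
  s : r.s ⊆ t.s
  st : ∀ ξ, r.st ξ <+: t.st ξ
  T : r.T ⊆ t.T
  al : ∀ x ∈ r.T, ∀ τ m, r.st x.1 <+: τ → τ ++ [m] <+: t.st x.1 → F x.1 (t.res x.1) (alw x.2 τ m)

structure In (A : Set K) (t : Raw K) : Prop where
  val : Val pool F t
  s : ∀ i ∈ t.s, i.bel A
  st : ∀ ξ ∉ A, t.st ξ = []
  T : ∀ x ∈ t.T, x.1 ∈ A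

def Frc (A : Set K) : Code K → Raw K → Prop
  | .ff, _ => False
  | .bas ξ n m, r => ∀ t, In pool F A t → Le' F t r →
      ∃ t', In pool F A t' ∧ Le' F t' t ∧ (t'.st ξ)[n]? = some m
  | .neg c, r => ∀ t, In pool F A t → Le' F t r → ¬ Frc A c t
  | .sup f, r => ∀ t, In pool F A t → Le' F t r →
      ∃ t', In pool F A t' ∧ Le' F t' t ∧ ∃ n, Frc A (f n) t'

end defs

section congr

variable {pool : K → Set (Name K)} {F F' : K → Raw K → Code K → Prop} {A : Set K}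

theorem In.congr (h : ∀ ξ ∈ A, F ξ = F' ξ) {t : Raw K} (ht : In pool F A t) : In pool F' A t :=
  ⟨⟨⟨ht.val.s.cnt, ht.val.s.fn, ht.val.s.gen, ht.val.s.pro, fun ξ Z u n h1 h2 =>
    h ξ (ht.s _ h1) ▸ ht.val.s.pos ξ Z u n h1 h2⟩, ht.val.fin, ht.val.finT, ht.val.tr⟩,
    ht.s, ht.st, ht.T⟩

theorem Le'.congr (h : ∀ ξ ∈ A, F ξ = F' ξ) {t r : Raw K} (ht : ∀ x ∈ t.T, x.1 ∈ A)
    (hl : Le' F t r) : Le' F' t r :=
  ⟨hl.s, hl.st, hl.T, fun x hx τ m h1 h2 => h _ (ht x (hl.T hx)) ▸ hl.al x hx τ m h1 h2⟩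

theorem Frc.congr (h : ∀ ξ ∈ A, F ξ = F' ξ) (c : Code K) :
    ∀ r, Frc pool F A c r ↔ Frc pool F' A c r := by
  have h' : ∀ ξ ∈ A, F' ξ = F ξ := fun ξ hξ => (h ξ hξ).symm
  have e1 : ∀ t, In pool F A t ↔ In pool F' A t := fun t => ⟨In.congr h, In.congr h'⟩
  have e2 : ∀ t r, In pool F' A t → (Le' F t r ↔ Le' F' t r) := fun t r ht =>
    ⟨Le'.congr h ht.T, Le'.congr h' ht.T⟩
  induction c with
  | ff => exact fun _ => Iff.rfl
  | bas ξ n m =>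
    refine fun r => forall_congr' fun t => ?_
    rw [e1]
    refine imp_congr_right fun ht => imp_congr (e2 t r ht) (exists_congr fun t' => ?_)
    rw [e1]
    exact and_congr_right fun ht' => by rw [e2 t' t ht']
  | neg c ih =>
    refine fun r => forall_congr' fun t => ?_
    rw [e1]
    exact imp_congr_right fun ht => imp_congr (e2 t r ht) (not_congr (ih t))
  | sup f ih =>
    refine fun r => forall_congr' fun t => ?_
    rw [e1]
    refine imp_congr_right fun ht => imp_congr (e2 t r ht) (exists_congr fun t' => ?_)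
    rw [e1]
    exact and_congr_right fun ht' => by
      rw [e2 t' t ht']
      exact and_congr_right fun _ => exists_congr fun n => ih n t'

end congr

variable [WellFoundedLT K] (pool : K → Set (Name K))

/-- Forcing at level `ξ`. -/
noncomputable def FF : K → Raw K → Code K → Prop :=
  (wellFounded_lt (α := K)).fix fun ξ ih r c =>
    Frc pool (fun ζ => if h : ζ < ξ then ih ζ h else fun _ _ => True) (Iio ξ) c r

theorem FF_iff (ξ : K) (r : Raw K) (c : Code K) :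
    FF pool ξ r c ↔ Frc pool (FF pool) (Iio ξ) c r := by
  rw [FF, WellFounded.fix_eq]
  exact Frc.congr (fun ζ hζ => dif_pos (show ζ < ξ from hζ)) c r

variable {pool}

theorem le_rfl' {F : K → Raw K → Code K → Prop} (r : Raw K) : Le' F r r :=
  ⟨subset_rfl, fun _ => List.prefix_rfl, subset_rfl, fun _ _ τ m h1 h2 => by
    have := (h2.trans h1).length_le
    simp at this⟩

theorem Le'.res {F : K → Raw K → Code K → Prop} {t r : Raw K} (h : Le' F t r) (ξ : K) :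
    Le' F (t.res ξ) (r.res ξ) := by
  refine ⟨resS_mono h.s ξ, fun ζ => ?_, fun x hx => ⟨h.T hx.1, hx.2⟩, fun x hx τ m h1 h2 => ?_⟩
  · by_cases h1 : ζ < ξ
    · simpa [Raw.res, h1] using h.st ζ
    · simp [Raw.res, h1]
  · have hx2 : x.1 < ξ := hx.2
    rw [Raw.res_res _ hx2.le]
    simp only [Raw.res, hx2, if_true] at h1 h2
    exact h.al x hx.1 τ m h1 h2

theorem trans_aux {F : K → Raw K → Code K → Prop} {a b c : Raw K}
    (hm : ∀ x ∈ a.T, ∀ r r' d, Le' F r' r → F x.1 r d → F x.1 r' d)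
    (h : Le' F a b) (h' : Le' F b c) : Le' F a c := by
  refine ⟨h'.s.trans h.s, fun ξ => (h'.st ξ).trans (h.st ξ), h'.T.trans h.T,
    fun x hx τ m h1 h2 => ?_⟩
  rcases List.prefix_or_prefix_of_prefix h2 (h.st x.1) with h3 | h3
  · exact hm x (h.T (h'.T hx)) _ _ _ (h.res x.1) (h'.al x hx τ m h1 h3)
  · rcases List.prefix_concat_iff.1 h3 with h4 | h4
    · exact hm x (h.T (h'.T hx)) _ _ _ (h.res x.1) (h'.al x hx τ m h1 (h4 ▸ List.prefix_rfl))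
    · exact h.al x (h'.T hx) τ m h4 h2

theorem frc_mono {F : K → Raw K → Code K → Prop} {A : Set K}
    (hm : ∀ ξ ∈ A, ∀ r r' d, Le' F r' r → F ξ r d → F ξ r' d) {r r' : Raw K} (h : Le' F r' r) :
    ∀ c, Frc pool F A c r → Frc pool F A c r'
  | .ff, hc => hc
  | .bas _ _ _, hc => fun t ht hl => hc t ht (trans_aux (fun x hx => hm _ (ht.T x hx)) hl h)
  | .neg _, hc => fun t ht hl => hc t ht (trans_aux (fun x hx => hm _ (ht.T x hx)) hl h)
  | .sup _, hc => fun t ht hl => hc t ht (trans_aux (fun x hx => hm _ (ht.T x hx)) hl h)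

theorem FF_mono (ξ : K) : ∀ r r' d, Le' (FF pool) r' r → FF pool ξ r d → FF pool ξ r' d := by
  induction ξ using WellFoundedLT.induction with
  | ind ξ ih =>
    intro r r' d h hd
    rw [FF_iff] at hd ⊢
    exact frc_mono (fun ζ hζ => ih ζ hζ) h d hd

theorem Le'.trans {a b c : Raw K} (h : Le' (FF pool) a b) (h' : Le' (FF pool) b c) :
    Le' (FF pool) a c := trans_aux (fun x _ => FF_mono x.1) h h'

theorem pu_le {F : K → Raw K → Code K → Prop} {s : Set (Item K)} {t : Raw K} (h : s ⊆ t.s) :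
    Le' F t (pu s) := ⟨h, fun _ => List.nil_prefix, empty_subset _, fun _ hx => hx.elim⟩

theorem FF_pu {s s' : Set (Item K)} (h : s ⊆ s') {ξ : K} {c : Code K}
    (hc : FF pool ξ (pu (resS s ξ)) c) : FF pool ξ (pu (resS s' ξ)) c :=
  FF_mono ξ _ _ _ (pu_le (resS_mono h ξ)) hc

theorem ValS.res {s : Set (Item K)} (h : ValS pool (FF pool) s) (ξ : K) :
    ValS pool (FF pool) (resS s ξ) :=
  ⟨h.cnt.mono (sep_subset _ _), fun δ a a' h1 h2 => h.fn δ a a' h1.1 h2.1,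
    fun ζ X h1 => ⟨(h.gen ζ X h1.1).1, (h.gen ζ X h1.1).2.1, (h.gen ζ X h1.1).2.2, h1.2⟩,
    fun ζ Z h1 => h.pro ζ Z h1.1, fun ζ Z u n h1 h2 => by
      rw [resS_resS _ (le_of_lt h1.2)]
      exact h.pos ζ Z u n h1.1 fun X hX => (h2 X hX).1⟩

theorem Val.res {r : Raw K} (h : Val pool (FF pool) r) (ξ : K) :
    In pool (FF pool) (Iio ξ) (r.res ξ) :=
  ⟨⟨h.s.res ξ, h.fin.subset fun ζ hζ => by
      by_cases h1 : ζ < ξ
      · simpa only [ne_eq, mem_ofPred_eq, Raw.res, ite_eq_right_iff, Classical.not_imp, h1, true_and] using hζ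
      · simp only [Raw.res, ne_eq, ite_eq_right_iff, Classical.not_imp, mem_ofPred_eq, h1, false_and] at hζ,
    h.finT.subset (sep_subset _ _),
    fun x hx => ⟨(h.tr x hx.1).1, fun j X hX => ⟨(h.tr x hx.1).2 j X hX, hx.2⟩⟩⟩,
    fun _ hi => hi.2, fun ζ hζ => if_neg hζ, fun _ hx => hx.2⟩

theorem In.res_eq {F : K → Raw K → Code K → Prop} {ξ : K} {t : Raw K}
    (h : In pool F (Iio ξ) t) : t.res ξ = t := by
  refine Raw.ext (Set.ext fun i => ⟨fun h' => h'.1, fun h' => ⟨h', h.s i h'⟩⟩) (funext fun ζ => ?_)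
    (Set.ext fun x => ⟨fun h' => h'.1, fun h' => ⟨h', h.T x h'⟩⟩)
  by_cases h1 : ζ < ξ
  · simp [Raw.res, h1]
  · simp [Raw.res, h1, h.st ζ h1]

theorem in_univ {F : K → Raw K → Code K → Prop} {t : Raw K} (h : Val pool F t) :
    In pool F univ t :=
  ⟨h, fun i _ => by cases i <;> trivial, fun _ h => (h trivial).elim, fun _ _ => trivial⟩

/-- `a` below `ξ`, `t` from `ξ` on. -/
def glue (ξ : K) (a t : Raw K) : Raw K :=
  ⟨resS a.s ξ ∪ t.s, fun ζ => if ζ < ξ then a.st ζ else t.st ζ, {x ∈ a.T | x.1 < ξ} ∪ t.T⟩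

theorem valS_glue {ξ : K} {a t : Set (Item K)} (ha : ValS pool (FF pool) a)
    (ht : ValS pool (FF pool) t) (h : resS t ξ ⊆ a) : ValS pool (FF pool) (resS a ξ ∪ t) := by
  have lo : ∀ i ∈ resS a ξ ∪ t, i.bel (Iio ξ) → i ∈ a := fun i hi hb =>
    hi.elim (·.1) fun h1 => h ⟨h1, hb⟩
  refine ⟨(ha.cnt.mono (sep_subset _ _)).union ht.cnt,
    fun δ x y h1 h2 => ha.fn δ x y (lo _ h1 trivial) (lo _ h2 trivial), fun ζ X h1 => ?_,
    fun ζ Z h1 => h1.elim (fun h2 => ha.pro ζ Z h2.1) (ht.pro ζ Z), fun ζ Z u n h1 h2 => ?_⟩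
  · rcases h1 with h1 | h1
    · exact ⟨(ha.gen ζ X h1.1).1, (ha.gen ζ X h1.1).2.1, Or.inl ⟨(ha.gen ζ X h1.1).2.2, h1.2⟩⟩
    · exact ⟨(ht.gen ζ X h1).1, (ht.gen ζ X h1).2.1, Or.inr (ht.gen ζ X h1).2.2⟩
  · by_cases h3 : ζ < ξ
    · refine FF_pu subset_union_left ?_
      rw [resS_resS _ h3.le]
      exact ha.pos ζ Z u n (lo _ h1 h3) fun X hX => lo _ (h2 X hX) h3
    · exact FF_pu subset_union_right (ht.pos ζ Z u n (h1.resolve_left fun h4 => h3 h4.2)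
        fun X hX => (h2 X hX).resolve_left fun h4 => h3 h4.2)

theorem glue_res {F : K → Raw K → Code K → Prop} {ξ : K} {a t : Raw K}
    (h : Le' F a (t.res ξ)) : (glue ξ a t).res ξ = a.res ξ := by
  refine Raw.ext (Set.ext fun i => ⟨fun h' => ⟨h'.1.elim (·.1) fun h1 => h.s ⟨h1, h'.2⟩, h'.2⟩,
    fun h' => ⟨Or.inl h', h'.2⟩⟩) (funext fun ζ => ?_)
    (Set.ext fun x => ⟨fun h' => ⟨h'.1.elim (·.1) fun h1 => h.T ⟨h1, h'.2⟩, h'.2⟩,
      fun h' => ⟨Or.inl h', h'.2⟩⟩)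
  by_cases h1 : ζ < ξ <;> simp only [Raw.res, glue, mem_union, mem_ofPred_eq, h1, ↓ reduceIte]

theorem val_glue {ξ : K} {a t : Raw K} (ha : Val pool (FF pool) a) (ht : Val pool (FF pool) t)
    (h : Le' (FF pool) a (t.res ξ)) : Val pool (FF pool) (glue ξ a t) :=
  ⟨valS_glue ha.s ht.s h.s, (ha.fin.union ht.fin).subset fun ζ hζ => by
      by_cases h1 : ζ < ξ
      · exact Or.inl (by simpa [glue, h1] using hζ)
      · exact Or.inr (by simpa [glue, h1] using hζ),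
    (ha.finT.subset (sep_subset _ _)).union ht.finT, fun x hx => hx.elim
      (fun h1 => ⟨(ha.tr x h1.1).1, fun j X hX => Or.inl ⟨(ha.tr x h1.1).2 j X hX, h1.2⟩⟩)
      fun h1 => ⟨(ht.tr x h1).1, fun j X hX => Or.inr ((ht.tr x h1).2 j X hX)⟩⟩

theorem glue_le {ξ : K} {a t : Raw K} (h : Le' (FF pool) a (t.res ξ)) :
    Le' (FF pool) (glue ξ a t) t := by
  refine ⟨subset_union_right, fun ζ => ?_, subset_union_right, fun x hx τ m h1 h2 => ?_⟩
  · by_cases h1 : ζ < ξ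
    · simpa [Raw.res, glue, h1] using h.st ζ
    · simp [glue, h1]
  · by_cases h3 : x.1 < ξ
    · rw [← Raw.res_res _ h3.le, glue_res h, Raw.res_res _ h3.le]
      exact h.al x ⟨hx, h3⟩ τ m (by simpa [Raw.res, h3] using h1) (by simpa [glue, h3] using h2)
    · simp only [glue, h3, if_false] at h2
      have := (h2.trans h1).length_le
      simp at this

theorem frc_res {ξ : K} (c : Code K) : c.supp ⊆ Iio ξ → ∀ r, Val pool (FF pool) r →
    (Frc pool (FF pool) univ c r ↔ Frc pool (FF pool) (Iio ξ) c (r.res ξ)) := by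
  induction c with
  | ff => exact fun _ _ _ => Iff.rfl
  | bas ζ n m =>
    intro hc r hr
    have hζ : ζ < ξ := hc rfl
    refine ⟨fun h t ht hl => ?_, fun h t ht hl => ?_⟩
    · obtain ⟨t', h1, h2, h3⟩ := h _ (in_univ (val_glue ht.val hr hl)) (glue_le hl)
      have h4 := h2.res ξ
      rw [glue_res hl, ht.res_eq] at h4
      exact ⟨_, h1.val.res ξ, h4, by simpa only [Raw.res, hζ, ↓ reduceIte] using h3⟩
    · obtain ⟨t', h1, h2, h3⟩ := h _ (ht.val.res ξ) (hl.res ξ)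
      exact ⟨_, in_univ (val_glue h1.val ht.val h2), glue_le h2, by simpa only [glue, hζ, ↓ reduceIte] using h3⟩
  | neg c ih =>
    intro hc r hr
    refine ⟨fun h t ht hl h1 => ?_, fun h t ht hl h1 => ?_⟩
    · refine h _ (in_univ (val_glue ht.val hr hl)) (glue_le hl) ?_
      rw [ih hc _ (val_glue ht.val hr hl), glue_res hl, ht.res_eq]
      exact h1
    · exact h _ (ht.val.res ξ) (hl.res ξ) ((ih hc t ht.val).1 h1)
  | sup f ih =>
    intro hc r hr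
    have hf : ∀ n, (f n).supp ⊆ Iio ξ := fun n => (subset_iUnion (fun n => (f n).supp) n).trans hc
    refine ⟨fun h t ht hl => ?_, fun h t ht hl => ?_⟩
    · obtain ⟨t', h1, h2, n, h3⟩ := h _ (in_univ (val_glue ht.val hr hl)) (glue_le hl)
      have h4 := h2.res ξ
      rw [glue_res hl, ht.res_eq] at h4
      exact ⟨_, h1.val.res ξ, h4, n, (ih n (hf n) t' h1.val).1 h3⟩
    · obtain ⟨t', h1, h2, n, h3⟩ := h _ (ht.val.res ξ) (hl.res ξ)
      refine ⟨_, in_univ (val_glue h1.val ht.val h2), glue_le h2, n, ?_⟩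
      rw [ih n (hf n) _ (val_glue h1.val ht.val h2), glue_res h2, h1.res_eq]
      exact h3

end Pool.Agent.MP_1d5a21_lc

end

-- part MP_1d5a21_lc.P1
section

/-!
The Boolean algebra of the poset, values of codes, and the basic constructions of conditions.
-/

set_option autoImplicit false
set_option linter.unusedSectionVars false

namespace Pool.Agent.MP_1d5a21_lc

open Set Pool.Agent.Lib.PosetForcing Code

section ro

variable {P : Type} [Preorder P] {p : P} {b : RO P}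

theorem io_not_bot (h : io p ≤ ⊥) : False := io_ne_bot p (le_bot_iff.1 h)

theorem io_absurd (h : io p ≤ b) (h' : io p ≤ bᶜ) : False :=
  io_not_bot ((le_inf h h').trans (inf_compl_eq_bot (a := b)).le)

theorem ex_compl (h : ¬ io p ≤ b) : ∃ q ≤ p, io q ≤ bᶜ :=
  exists_le_of_inf fun e => h (by rwa [← _root_.sdiff_eq, sdiff_eq_bot_iff] at e)

theorem io_dense (h : ∀ q ≤ p, ∃ r ≤ q, io r ≤ b) : io p ≤ b := by
  by_contra h1
  obtain ⟨q, h2, h3⟩ := ex_compl h1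
  obtain ⟨r, h4, h5⟩ := h q h2
  exact io_absurd h5 ((io_mono h4).trans h3)

theorem io_compl (h : ∀ q ≤ p, ¬ io q ≤ b) : io p ≤ bᶜ := by
  by_contra h1
  obtain ⟨q, h2, h3⟩ := ex_compl h1
  exact h q h2 (by rwa [compl_compl] at h3)

theorem ex_iSup {ι : Sort*} {f : ι → RO P} (h : io p ≤ ⨆ i, f i) : ∃ q ≤ p, ∃ i, io q ≤ f i := by
  by_contra h1
  refine io_not_bot (p := p) ((le_inf le_rfl h).trans ?_)
  rw [inf_iSup_eq]
  refine iSup_le fun i => le_of_eq ?_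
  by_contra h2
  obtain ⟨q, h3, h4⟩ := exists_le_of_inf h2
  exact h1 ⟨q, h3, i, h4⟩

theorem ex_iSup2 {ι : Sort*} {κ : ι → Sort*} {f : ∀ i, κ i → RO P}
    (h : io p ≤ ⨆ i, ⨆ j, f i j) : ∃ q ≤ p, ∃ i j, io q ≤ f i j := by
  obtain ⟨q, h1, i, h2⟩ := ex_iSup h
  obtain ⟨r, h3, j, h4⟩ := ex_iSup h2
  exact ⟨r, h3.trans h1, i, j, h4⟩

theorem ex_sup {b' : RO P} (h : io p ≤ b ⊔ b') : ∃ q ≤ p, io q ≤ b ∨ io q ≤ b' := by
  by_cases h1 : io p ≤ b
  · exact ⟨p, le_rfl, Or.inl h1⟩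
  · obtain ⟨q, h2, h3⟩ := ex_compl h1
    refine ⟨q, h2, Or.inr ((le_inf ((io_mono h2).trans h) h3).trans ?_)⟩
    rw [inf_sup_right, inf_compl_eq_bot, bot_sup_eq]
    exact inf_le_left

theorem ex_common {q : P} (h : io p ≤ io q) : ∃ r, r ≤ p ∧ r ≤ q := by
  obtain ⟨U, hU⟩ := exists_ult p
  exact exists_common hU (U.mono h hU)

theorem le_of_io {b' : RO P} (h : ∀ q, io q ≤ b → ∃ r ≤ q, io r ≤ b') : b ≤ b' := by
  by_contra h1
  obtain ⟨q, hq⟩ := exists_io_le (b := b ⊓ b'ᶜ) fun e =>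
    h1 (by rwa [← _root_.sdiff_eq, sdiff_eq_bot_iff] at e)
  obtain ⟨r, h2, h3⟩ := h q (hq.trans inf_le_left)
  exact io_absurd h3 ((io_mono h2).trans (hq.trans inf_le_right))

theorem ex_not_inB {y : ℕ → RO P} (h : ¬ io p ≤ inB y) :
    ∃ q ≤ p, ∃ n, ∀ m, n ≤ m → io q ≤ (y m)ᶜ := by
  obtain ⟨q, h1, h2⟩ := ex_compl h
  rw [inB, compl_iInf] at h2
  obtain ⟨r, h3, n, h4⟩ := ex_iSup h2
  exact ⟨r, h3.trans h1, n, fun m hm => h4.trans (compl_le_compl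
    (le_iSup₂_of_le (f := fun m (_ : n ≤ m) => y m) m hm le_rfl))⟩

theorem ex_of_inB {y : ℕ → RO P} (h : io p ≤ inB y) (n : ℕ) : ∃ q ≤ p, ∃ m, n ≤ m ∧ io q ≤ y m := by
  obtain ⟨q, h1, m, h2, h3⟩ := ex_iSup2 (h.trans (iInf_le _ n))
  exact ⟨q, h1, m, h2, h3⟩

theorem le_inB {y : ℕ → RO P} (h : ∀ n, ∀ q ≤ p, ∃ r ≤ q, ∃ m, n ≤ m ∧ io r ≤ y m) :
    io p ≤ inB y :=
  le_iInf fun n => io_dense fun q hq => by
    obtain ⟨r, h1, m, h2, h3⟩ := h n q hq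
    exact ⟨r, h1, le_iSup₂_of_le (f := fun m (_ : n ≤ m) => y m) m h2 h3⟩

end ro

variable {K : Type} [LinearOrder K] [WellFoundedLT K] (pool : K → Set (Name K))

/-- The poset. -/
def Q : Type := {r : Raw K // Val pool (FF pool) r}

instance : Preorder (Q pool) where
  le t r := Le' (FF pool) t.1 r.1
  le_refl r := le_rfl' r.1
  le_trans _ _ _ := Le'.trans

/-- Valid sets of items. -/
abbrev VS (s : Set (Item K)) : Prop := ValS pool (FF pool) s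

noncomputable def val : Code K → RO (Q pool)
  | .ff => ⊥
  | .bas ξ n m => ⨆ r : {r : Q pool // (r.1.st ξ)[n]? = some m}, io r.1
  | .neg c => (val c)ᶜ
  | .sup f => ⨆ n, val (f n)

variable {pool}

theorem frc_iff (c : Code K) : ∀ r : Q pool, Frc pool (FF pool) univ c r.1 ↔ io r ≤ val pool c := by
  induction c with
  | ff => exact fun r => ⟨False.elim, io_not_bot⟩
  | bas ξ n m =>
    refine fun r => ⟨fun h => io_dense fun q hq => ?_, fun h t ht hl => ?_⟩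
    · obtain ⟨t, h1, h2, h3⟩ := h q.1 (in_univ q.2) hq
      exact ⟨⟨t, h1.val⟩, h2, le_iSup_of_le (f := fun r : {r : Q pool //
        (r.1.st ξ)[n]? = some m} => io r.1) ⟨⟨t, h1.val⟩, h3⟩ le_rfl⟩
    · obtain ⟨q, h1, a, h2⟩ := ex_iSup ((io_mono (q := ⟨t, ht.val⟩) hl).trans h)
      obtain ⟨q', h3, h4⟩ := ex_common h2
      refine ⟨q'.1, in_univ q'.2, h3.trans h1, ?_⟩
      obtain ⟨l, hl⟩ := h4.st ξ
      obtain ⟨h5, h6⟩ := List.getElem?_eq_some_iff.1 a.2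
      rw [← hl, List.getElem?_append_left h5]
      exact a.2
  | neg c ih =>
    exact fun r => ⟨fun h => io_compl fun q hq h1 => h q.1 (in_univ q.2) hq ((ih q).2 h1),
      fun h t ht hl h1 => io_absurd ((ih ⟨t, ht.val⟩).1 h1)
        ((io_mono (q := (⟨t, ht.val⟩ : Q pool)) (p := r) hl).trans h)⟩
  | sup f ih =>
    refine fun r => ⟨fun h => io_dense fun q hq => ?_, fun h t ht hl => ?_⟩
    · obtain ⟨t, h1, h2, n, h3⟩ := h q.1 (in_univ q.2) hq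
      exact ⟨⟨t, h1.val⟩, h2, le_iSup_of_le (f := fun n => val pool (f n)) n
        ((ih n ⟨t, h1.val⟩).1 h3)⟩
    · obtain ⟨q, h1, n, h2⟩ := ex_iSup ((io_mono (q := ⟨t, ht.val⟩) hl).trans h)
      exact ⟨q.1, in_univ q.2, h1, n, (ih n q).2 h2⟩

theorem FF_res {ξ : K} {c : Code K} (hc : c.supp ⊆ Iio ξ) (r : Q pool) :
    FF pool ξ (r.1.res ξ) c ↔ io r ≤ val pool c := by
  rw [FF_iff, ← frc_res c hc r.1 r.2, frc_iff]

section vals

@[simp] theorem val_ff : val pool .ff = ⊥ := rfl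
@[simp] theorem val_neg (c : Code K) : val pool (.neg c) = (val pool c)ᶜ := rfl
@[simp] theorem val_sup (f : ℕ → Code K) : val pool (.sup f) = ⨆ n, val pool (f n) := rfl
@[simp] theorem val_tt : val pool tt = ⊤ := by simp [tt]

@[simp] theorem val_cst (P : Prop) : val pool (cst P) = ⨆ _ : P, ⊤ := by
  by_cases h : P <;> simp [cst, h]

@[simp] theorem val_or (c d : Code K) : val pool (or2 c d) = val pool c ⊔ val pool d := by
  refine le_antisymm (iSup_le fun n => ?_) (sup_le (le_iSup_of_le 0 (by simp))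
    (le_iSup_of_le 1 (by simp)))
  by_cases h : n = 0 <;> simp [h]

@[simp] theorem val_and (c d : Code K) : val pool (and2 c d) = val pool c ⊓ val pool d := by
  simp only [and2, val_neg, val_or, compl_sup, compl_compl]

@[simp] theorem val_supC {ι : Type} [Countable ι] (f : ι → Code K) :
    val pool (supC f) = ⨆ i, val pool (f i) := by
  refine le_antisymm (iSup_le fun n => ?_) (iSup_le fun i => le_iSup_of_le
    (@Encodable.encode ι (Encodable.ofCountable ι) i) (by simp))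
  beta_reduce
  cases @Encodable.decode ι (Encodable.ofCountable ι) n with
  | none => exact bot_le
  | some i => exact le_iSup (fun i => val pool (f i)) i

@[simp] theorem val_infC {ι : Type} [Countable ι] (f : ι → Code K) :
    val pool (infC f) = ⨅ i, val pool (f i) := by
  simp only [infC, val_neg, val_supC, compl_iSup, compl_compl]

theorem val_nil (m : ℕ) : val pool (allL [] m) = ⊤ := val_tt

theorem val_cons (X : Name K) (u : List (Name K)) (m : ℕ) :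
    val pool (allL (X :: u) m) = val pool (X m) ⊓ val pool (allL u m) := val_and _ _

theorem val_append (u u' : List (Name K)) (m : ℕ) :
    val pool (allL (u ++ u') m) = val pool (allL u m) ⊓ val pool (allL u' m) := by
  induction u with
  | nil => simp [val_nil]
  | cons X u ih => rw [List.cons_append, val_cons, val_cons, ih, inf_assoc]

theorem val_pos (Z : Name K) (u : List (Name K)) (n : ℕ) : val pool (pos Z u n) =
    ⨆ m, ⨆ _ : n ≤ m, val pool (Z m) ⊓ val pool (allL u m) := by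
  simp only [pos, val_sup, val_and, val_cst]
  refine iSup_congr fun m => ?_
  by_cases h : n ≤ m <;> simp only [h, iSup_pos, le_top, inf_of_le_right, not_false_eq_true, iSup_neg, le_inf_iff, bot_le, and_self, inf_of_le_left]

theorem val_large (e : ℕ → List (Name K)) (Y : Name K) : val pool (large e Y) =
    ⨆ j, ⨆ n, ⨅ m, ⨅ _ : n ≤ m, val pool (allL (e j) m) ⇨ val pool (Y m) := by
  simp only [large, val_supC, val_infC, val_or, val_neg, val_and, val_cst, iSup_prod]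
  refine iSup_congr fun j => iSup_congr fun n => iInf_congr fun m => ?_
  by_cases h : n ≤ m <;> simp [h, himp_eq, sup_comm]

theorem val_alw (Φ : Tree K) (τ : List ℕ) (m : ℕ) : val pool (alw Φ τ m) =
    val pool (Φ.1 τ m) ⊔ (val pool (large Φ.2 (Φ.1 τ)))ᶜ := by
  simp only [alw, val_or, val_neg]

end vals

theorem alw_supp {s : Set (Item K)} (hs : VS pool s) {x : K × Tree K} (hx : TreeOk s x)
    (τ : List ℕ) (m : ℕ) : (alw x.2 τ m).supp ⊆ Iio x.1 :=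
  s_alw hx.1 (fun j X hX => (hs.gen _ X (hx.2 j X hX)).2.1) τ m

theorem TreeOk.mono {s s' : Set (Item K)} {x : K × Tree K} (h : TreeOk s x) (h' : s ⊆ s') :
    TreeOk s' x := ⟨h.1, fun j X hX => h' (h.2 j X hX)⟩

theorem Q.al {t r : Q pool} (h : t ≤ r) {x : K × Tree K} (hx : x ∈ r.1.T) {τ : List ℕ} {m : ℕ}
    (h1 : r.1.st x.1 <+: τ) (h2 : τ ++ [m] <+: t.1.st x.1) : io t ≤ val pool (alw x.2 τ m) :=
  (FF_res (alw_supp r.2.s (r.2.tr x hx) τ m) t).1 (Le'.al h x hx τ m h1 h2)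

theorem Q.le_of {t r : Q pool} (h1 : r.1.s ⊆ t.1.s) (h2 : ∀ ξ, r.1.st ξ <+: t.1.st ξ)
    (h3 : r.1.T ⊆ t.1.T) (h4 : ∀ x ∈ r.1.T, ∀ τ m, r.1.st x.1 <+: τ → τ ++ [m] <+: t.1.st x.1 →
      io t ≤ val pool (alw x.2 τ m)) : t ≤ r :=
  ⟨h1, h2, h3, fun x hx τ m a b =>
    (FF_res (alw_supp r.2.s (r.2.tr x hx) τ m) t).2 (h4 x hx τ m a b)⟩

theorem no_new {σ τ : List ℕ} {m : ℕ} (h1 : σ <+: τ) (h2 : τ ++ [m] <+: σ) : False := by
  have := (h2.trans h1).length_le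
  simp at this

/-- The coordinates used by the finite part. -/
def Raw.dom (r : Raw K) : Set K := {ξ | r.st ξ ≠ [] ∨ ∃ x ∈ r.T, x.1 = ξ}

theorem Q.dom_fin (r : Q pool) : r.1.dom.Finite :=
  (r.2.fin.union (r.2.finT.image Prod.fst)).subset fun _ h => h

theorem st_nil {r : Raw K} {ξ : K} (h : ξ ∉ r.dom) : r.st ξ = [] := by
  by_contra h1
  exact h (Or.inl h1)

/-- An extension that keeps the stems on the domain. -/
theorem Q.le_same {t r : Q pool} (h1 : r.1.s ⊆ t.1.s) (h2 : ∀ ξ ∈ r.1.dom, t.1.st ξ = r.1.st ξ)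
    (h3 : r.1.T ⊆ t.1.T) : t ≤ r :=
  Q.le_of h1 (fun ξ => by
    by_cases h : ξ ∈ r.1.dom
    · rw [h2 ξ h]
    · rw [st_nil h]; exact List.nil_prefix) h3
    fun x hx τ m a b => (no_new a (h2 _ (Or.inr ⟨x, hx, rfl⟩) ▸ b)).elim

def pq (s : Set (Item K)) (h : VS pool s) : Q pool :=
  ⟨pu s, h, by simp [pu], finite_empty, fun _ h => h.elim⟩

theorem le_pq {s : Set (Item K)} (h : VS pool s) {t : Q pool} (h' : s ⊆ t.1.s) : t ≤ pq s h :=
  pu_le h'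

def Q.res (r : Q pool) (ξ : K) : Q pool := ⟨r.1.res ξ, (r.2.res ξ).val⟩

theorem val_res {ξ : K} {c : Code K} (hc : c.supp ⊆ Iio ξ) {r : Q pool} (h : io r ≤ val pool c) :
    io (r.res ξ) ≤ val pool c :=
  (FF_res hc _).1 (by rw [Q.res, Raw.res_res _ le_rfl]; exact (FF_res hc r).2 h)

theorem pu_res (s : Set (Item K)) (ξ : K) : (pu s).res ξ = pu (resS s ξ) :=
  Raw.ext rfl (funext fun _ => ite_self _) (by simp [Raw.res, pu])

theorem FF_pq {ξ : K} {c : Code K} (hc : c.supp ⊆ Iio ξ) {s : Set (Item K)} (h : VS pool s) :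
    FF pool ξ (pu (resS s ξ)) c ↔ io (pq s h) ≤ val pool c := by
  rw [← FF_res hc, ← pu_res]; rfl

theorem pos_val (r : Q pool) {ξ : K} {Z : Name K} {u : List (Name K)} (n : ℕ)
    (hZ : .pro ξ Z ∈ r.1.s ∨ Z = fun _ => tt) (hu : ∀ X ∈ u, .gen ξ X ∈ r.1.s) :
    io r ≤ ⨆ m, ⨆ _ : n ≤ m, val pool (Z m) ⊓ val pool (allL u m) := by
  have key : .pro ξ Z ∈ r.1.s → io r ≤ ⨆ m, ⨆ _ : n ≤ m, val pool (Z m) ⊓ val pool (allL u m) :=
    fun hZ => by
      rw [← val_pos]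
      exact (io_mono (le_pq r.2.s subset_rfl)).trans ((FF_pq (s_pos (r.2.s.pro ξ Z hZ)
        (fun X hX => (r.2.s.gen ξ X (hu X hX)).2.1) n) r.2.s).1 (r.2.s.pos ξ Z u n hZ hu))
  rcases hZ with hZ | rfl
  · exact key hZ
  · cases u with
    | nil => exact le_iSup₂_of_le n le_rfl (by simp [val_nil])
    | cons X u => exact key (r.2.s.gen ξ X (hu X (by simp))).2.2

/-- Validity is checked level by level. -/
theorem vs_of {s : Set (Item K)} (h1 : s.Countable)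
    (h2 : ∀ δ a a', .col δ a ∈ s → .col δ a' ∈ s → a = a')
    (h3 : ∀ ξ X, .gen ξ X ∈ s →
      X ∈ pool ξ ∧ (∀ m, (X m).supp ⊆ Iio ξ) ∧ .pro ξ (fun _ => tt) ∈ s)
    (h4 : ∀ ξ Z, .pro ξ Z ∈ s → ∀ m, (Z m).supp ⊆ Iio ξ)
    (h5 : ∀ ξ (h : VS pool (resS s ξ)) Z u n, .pro ξ Z ∈ s → (∀ X ∈ u, .gen ξ X ∈ s) →
      io (pq _ h) ≤ val pool (pos Z u n)) : VS pool s := by
  have key : ∀ ξ, VS pool (resS s ξ) → ∀ Z u n, .pro ξ Z ∈ s → (∀ X ∈ u, .gen ξ X ∈ s) →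
      FF pool ξ (pu (resS s ξ)) (pos Z u n) := fun ξ h Z u n a b => by
    have := (FF_pq (s_pos (h4 ξ Z a) (fun X hX => (h3 ξ X (b X hX)).2.1) n) h).2 (h5 ξ h Z u n a b)
    rwa [resS_resS _ le_rfl] at this
  have all : ∀ ξ, VS pool (resS s ξ) := fun ξ => by
    induction ξ using WellFoundedLT.induction with
    | ind ξ ih =>
      exact ⟨h1.mono (sep_subset _ _), fun δ a a' x y => h2 δ a a' x.1 y.1,
        fun ζ X x => ⟨(h3 ζ X x.1).1, (h3 ζ X x.1).2.1, (h3 ζ X x.1).2.2, x.2⟩,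
        fun ζ Z x => h4 ζ Z x.1, fun ζ Z u n x y => by
          rw [resS_resS _ (le_of_lt x.2)]
          exact key ζ (ih ζ x.2) Z u n x.1 fun X hX => (y X hX).1⟩
  exact ⟨h1, h2, h3, h4, fun ξ => key ξ (all ξ)⟩

/-- A set of items is valid if every positivity requirement comes from a valid subset. -/
theorem vs_loc {s : Set (Item K)} (h1 : s.Countable)
    (h2 : ∀ δ a a', .col δ a ∈ s → .col δ a' ∈ s → a = a')
    (h3 : ∀ ξ X, .gen ξ X ∈ s → ∃ s' ⊆ s, VS pool s' ∧ .gen ξ X ∈ s')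
    (h4 : ∀ ξ Z (u : List (Name K)), .pro ξ Z ∈ s → (∀ X ∈ u, .gen ξ X ∈ s) →
      ∃ s' ⊆ s, VS pool s' ∧ .pro ξ Z ∈ s' ∧ ∀ X ∈ u, .gen ξ X ∈ s') : VS pool s :=
  ⟨h1, h2, fun ξ X h => by
    obtain ⟨s', a, b, c⟩ := h3 ξ X h
    exact ⟨(b.gen ξ X c).1, (b.gen ξ X c).2.1, a (b.gen ξ X c).2.2⟩, fun ξ Z h => by
    obtain ⟨s', -, b, c, -⟩ := h4 ξ Z [] h (by simp)
    exact b.pro ξ Z c, fun ξ Z u n h h' => by
    obtain ⟨s', a, b, c, d⟩ := h4 ξ Z u h h'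
    exact FF_pu a (b.pos ξ Z u n c d)⟩

/-- The same finite part over a larger set of items. -/
def Q.up (r : Q pool) (s : Set (Item K)) (hs : VS pool s) (h : r.1.s ⊆ s) : Q pool :=
  ⟨⟨s, r.1.st, r.1.T⟩, hs, r.2.fin, r.2.finT, fun x hx => (r.2.tr x hx).mono h⟩

theorem Q.up_le (r : Q pool) {s : Set (Item K)} (hs : VS pool s) (h : r.1.s ⊆ s) :
    r.up s hs h ≤ r := Q.le_same h (fun _ _ => rfl) subset_rfl

/-- The finite part is cut at `ζ`. -/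
def Q.pres (r : Q pool) (ζ : K) : Q pool :=
  ⟨⟨r.1.s, (r.1.res ζ).st, (r.1.res ζ).T⟩, r.2.s, (r.2.res ζ).val.fin, (r.2.res ζ).val.finT,
    fun x hx => r.2.tr x hx.1⟩

theorem Q.pres_dom (r : Q pool) (ζ : K) : (r.pres ζ).1.dom ⊆ Iio ζ ∩ r.1.dom := by
  rintro ξ (h | ⟨x, hx, rfl⟩)
  · by_cases h1 : ξ < ζ
    · exact ⟨h1, Or.inl (by simpa [Q.pres, Raw.res, h1] using h)⟩
    · simp [Q.pres, Raw.res, h1] at h
  · exact ⟨hx.2, Or.inr ⟨x, hx.1, rfl⟩⟩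

theorem Q.pres_st (r : Q pool) {ζ ξ : K} (h : ξ < ζ) : (r.pres ζ).1.st ξ = r.1.st ξ := if_pos h

theorem Q.le_pres (r : Q pool) (ζ : K) : r ≤ r.pres ζ :=
  Q.le_same subset_rfl (fun _ h => (r.pres_st (r.pres_dom ζ h).1).symm) fun _ h => h.1

theorem Q.pres_le_res (r : Q pool) (ζ : K) : r.pres ζ ≤ r.res ζ :=
  Q.le_same (sep_subset _ _) (fun _ _ => rfl) subset_rfl

theorem Q.pres_mono {t r : Q pool} (h : t ≤ r) (ζ : K) : t.pres ζ ≤ r.pres ζ := by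
  have h1 : t.res ζ ≤ r.res ζ := Le'.res h ζ
  exact Q.le_of h.s h1.st h1.T fun x hx τ m a b =>
    (io_mono (t.pres_le_res ζ)).trans (Q.al h1 hx a b)

theorem Q.pres_pres (r : Q pool) (ζ : K) : r.pres ζ ≤ (r.pres ζ).pres ζ := Q.le_pres _ _

theorem Q.pres_le {t r : Q pool} {ζ : K} (h : t ≤ r.pres ζ) : t.pres ζ ≤ r.pres ζ :=
  (Q.pres_mono h ζ).trans (Q.le_same subset_rfl
    (fun _ h => Q.pres_st _ (r.pres_dom ζ h).1) fun _ h => ⟨h, h.2⟩)

theorem Q.pres_le_self {r : Q pool} {ζ : K} (h : r.1.dom ⊆ Iio ζ) : r.pres ζ ≤ r :=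
  Q.le_same subset_rfl (fun _ h' => Q.pres_st _ (h h')) fun x hx => ⟨hx, h (Or.inr ⟨x, hx, rfl⟩)⟩

/-- `a` below `ζ`, the stem `τ` and the trees `Ψ` at `ζ`, `b` above `ζ`. -/
def patch (ζ : K) (a : Q pool) (τ : List ℕ) (Ψ : Set (K × Tree K)) (b : Q pool)
    (hb : b.1.s ⊆ a.1.s) (hΨ : Ψ.Finite ∧ ∀ x ∈ Ψ, x.1 = ζ ∧ TreeOk a.1.s x) : Q pool :=
  ⟨⟨a.1.s, fun η => if η < ζ then a.1.st η else if η = ζ then τ else b.1.st η,
    {x ∈ a.1.T | x.1 < ζ} ∪ Ψ ∪ {x ∈ b.1.T | ζ < x.1}⟩, a.2.s,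
    ((a.2.fin.union b.2.fin).insert ζ).subset fun η h => by
      by_cases h1 : η < ζ
      · exact Or.inr (Or.inl (by simpa [h1] using h))
      · by_cases h2 : η = ζ
        · exact Or.inl h2
        · exact Or.inr (Or.inr (by simpa [h1, h2] using h)),
    ((a.2.finT.subset (sep_subset _ _)).union hΨ.1).union (b.2.finT.subset (sep_subset _ _)),
    fun x hx => hx.elim (·.elim (fun h => a.2.tr x h.1) fun h => (hΨ.2 x h).2)
      fun h => (b.2.tr x h.1).mono hb⟩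

section patch

variable {ζ : K} {a b : Q pool} {τ : List ℕ} {Ψ : Set (K × Tree K)} {hb : b.1.s ⊆ a.1.s}
  {hΨ : Ψ.Finite ∧ ∀ x ∈ Ψ, x.1 = ζ ∧ TreeOk a.1.s x}

theorem patch_st : (patch ζ a τ Ψ b hb hΨ).1.st ζ = τ := by simp [patch]

theorem patch_lt {η : K} (h : η < ζ) : (patch ζ a τ Ψ b hb hΨ).1.st η = a.1.st η := if_pos h

theorem patch_gt {η : K} (h : ζ < η) : (patch ζ a τ Ψ b hb hΨ).1.st η = b.1.st η := by
  simp [patch, h.ne', h.not_gt]

theorem patch_pres : patch ζ a τ Ψ b hb hΨ ≤ a.pres ζ :=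
  Q.le_same subset_rfl (fun _ h => (patch_lt (a.pres_dom ζ h).1).trans
    (a.pres_st (a.pres_dom ζ h).1).symm) fun _ h => Or.inl (Or.inl h)

theorem patch_dom : (patch ζ a τ Ψ b hb hΨ).1.dom ⊆ Iic ζ ∪ b.1.dom := by
  intro η h
  refine (le_or_gt η ζ).imp_right fun h1 => ?_
  rcases h with h | ⟨x, hx, rfl⟩
  · exact Or.inl (patch_gt h1 ▸ h)
  · rcases hx with (hx | hx) | hx
    · exact (h1.not_gt hx.2).elim
    · exact (h1.ne' (hΨ.2 x hx).1).elim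
    · exact Or.inr ⟨x, hx.1, rfl⟩

theorem patch_le {r : Q pool} (h1 : a ≤ r.pres ζ) (h2 : r.1.st ζ <+: τ)
    (h3 : ∀ x ∈ r.1.T, x.1 = ζ → x ∈ Ψ ∧ ∀ ρ m, r.1.st ζ <+: ρ → ρ ++ [m] <+: τ →
      io (a.pres ζ) ≤ val pool (alw x.2 ρ m))
    (h4 : ∀ η ∈ r.1.dom, ζ < η → b.1.st η = r.1.st η) (h5 : ∀ x ∈ r.1.T, ζ < x.1 → x ∈ b.1.T) :
    patch ζ a τ Ψ b hb hΨ ≤ r := by
  have h0 : patch ζ a τ Ψ b hb hΨ ≤ r.pres ζ := patch_pres.trans (Q.pres_le h1)
  refine Q.le_of h1.s (fun η => ?_) (fun x hx => ?_) fun x hx ρ m c d => ?_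
  · rcases lt_trichotomy η ζ with h | rfl | h
    · exact r.pres_st h ▸ h0.st η
    · rwa [patch_st]
    · by_cases h6 : η ∈ r.1.dom
      · rw [patch_gt h, h4 η h6 h]
      · rw [st_nil h6]; exact List.nil_prefix
  · rcases lt_trichotomy x.1 ζ with h | h | h
    · exact h0.T ⟨hx, h⟩
    · exact Or.inl (Or.inr (h3 x hx h).1)
    · exact Or.inr ⟨h5 x hx h, h⟩
  · rcases lt_trichotomy x.1 ζ with h | h | h
    · exact Q.al h0 (x := x) ⟨hx, h⟩ (by rwa [r.pres_st h]) d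
    · rw [h] at c d
      exact (io_mono patch_pres).trans ((h3 x hx h).2 ρ m c (by rwa [patch_st] at d))
    · exact (no_new c (by rwa [patch_gt h, h4 _ (Or.inr ⟨x, hx, rfl⟩) h] at d)).elim

end patch

/-- The trees of `t` at `ζ`. -/
def Q.at (t : Q pool) (ζ : K) : Set (K × Tree K) := {x ∈ t.1.T | x.1 = ζ}

theorem Q.at_ok (t : Q pool) (ζ : K) {s : Set (Item K)} (h : t.1.s ⊆ s) :
    (t.at ζ).Finite ∧ ∀ x ∈ t.at ζ, x.1 = ζ ∧ TreeOk s x :=
  ⟨t.2.finT.subset (sep_subset _ _), fun x hx => ⟨hx.2, (t.2.tr x hx.1).mono h⟩⟩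

theorem ex_glue {ζ : K} {a t : Q pool} (h : a ≤ t.pres ζ) : ∃ g ≤ t, g ≤ a.pres ζ :=
  ⟨patch ζ a (t.1.st ζ) (t.at ζ) t h.s (t.at_ok ζ h.s), patch_le h List.prefix_rfl
    (fun _ hx e => ⟨⟨hx, e⟩, fun _ _ c d => (no_new c d).elim⟩) (fun _ _ _ => rfl)
    fun _ hx _ => hx, patch_pres⟩

/-- `b` only depends on the finite part below `ζ`. -/
def Loc (ζ : K) (b : RO (Q pool)) : Prop := ∀ r : Q pool, io r ≤ b → io (r.pres ζ) ≤ b

section loc

variable {ζ : K}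

theorem loc_val {c : Code K} (hc : c.supp ⊆ Iio ζ) : Loc ζ (val pool c) := fun r h =>
  (io_mono (r.pres_le_res ζ)).trans (val_res hc h)

theorem Loc.compl {b : RO (Q pool)} (h : Loc ζ b) : Loc ζ bᶜ := fun r hr =>
  io_compl fun t ht h1 => by
    obtain ⟨g, h2, h3⟩ := ex_glue ht
    exact io_absurd ((io_mono h3).trans (h t h1)) ((io_mono h2).trans hr)

theorem loc_iInf {ι : Sort*} {b : ι → RO (Q pool)} (h : ∀ i, Loc ζ (b i)) : Loc ζ (⨅ i, b i) :=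
  fun r hr => le_iInf fun i => h i r (hr.trans (iInf_le _ i))

theorem loc_iSup {ι : Sort*} {b : ι → RO (Q pool)} (h : ∀ i, Loc ζ (b i)) : Loc ζ (⨆ i, b i) := by
  have := (loc_iInf fun i => (h i).compl).compl
  simpa only [compl_iInf, compl_compl] using this

theorem Loc.inf {b b' : RO (Q pool)} (h : Loc ζ b) (h' : Loc ζ b') : Loc ζ (b ⊓ b') :=
  fun r hr => le_inf (h r (hr.trans inf_le_left)) (h' r (hr.trans inf_le_right))

theorem loc_inB {y : ℕ → RO (Q pool)} (h : ∀ m, Loc ζ (y m)) : Loc ζ (inB y) :=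
  loc_iInf fun _ => loc_iSup fun m => loc_iSup fun _ => h m

theorem loc_io {r : Q pool} (h : r.1.dom ⊆ Iio ζ) : Loc ζ (io r) := fun t ht =>
  io_dense fun q hq => by
    obtain ⟨g, h2, h3⟩ := ex_glue hq
    obtain ⟨g', h4, h5⟩ := ex_common ((io_mono h2).trans ht)
    obtain ⟨g'', h6, h7⟩ := ex_glue (h4.trans h3)
    exact ⟨g'', h6, io_mono (h7.trans ((Q.pres_mono h5 ζ).trans (Q.pres_le_self h)))⟩

end loc

end Pool.Agent.MP_1d5a21_lc

end

-- part MP_1d5a21_lc.P2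
section

/-!
Large sets, extension of stems, codes of conditions, closing off.
-/

set_option autoImplicit false
set_option linter.unusedSectionVars false

namespace Pool.Agent.MP_1d5a21_lc

open Set Pool.Agent.Lib.PosetForcing Code Cardinal

theorem bdd_of_succ {c d : Cardinal.{0}} (hc : ℵ₀ ≤ c) (h : Order.succ c = d)
    (S : Set d.ord.ToType) (hS : #S ≤ c) : ∃ a, ∀ s ∈ S, s < a := by
  subst h
  by_contra hcon
  push Not at hcon
  have h1 : (univ : Set (Order.succ c).ord.ToType) ⊆ ⋃ s ∈ S, Iic s := fun b _ => by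
    obtain ⟨s, hs, hb⟩ := hcon b
    exact mem_biUnion hs hb
  have h2 : #(⋃ s ∈ S, Iic s : Set (Order.succ c).ord.ToType) ≤ c := by
    refine (mk_biUnion_le _ S).trans (mul_le_of_le hc hS (ciSup_le' fun s => ?_))
    rw [← Iio_insert]
    exact mk_insert_le.trans (add_le_of_le hc (Order.lt_succ_iff.1
      ((Cardinal.mk_Iio_lt s.1 (by simp only [mk_toType, card_ord, Ordinal.type_toType])).trans_eq (Cardinal.mk_ord_toType _)))
      (one_le_aleph0.trans hc))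
  have h3 := (mk_le_mk_of_subset h1).trans h2
  rw [mk_univ, Cardinal.mk_ord_toType] at h3
  exact absurd h3 (Order.lt_succ _).not_ge

theorem O_bdd {S : Set O} (hS : S.Countable) : ∃ a, ∀ s ∈ S, s < a :=
  bdd_of_succ le_rfl succ_aleph0 S (le_aleph0_iff_set_countable.2 hS)

theorem fin_chain {α : Type} {f : ℕ → Set α} (hf : Monotone f) {d : Set α} (hd : d.Finite)
    (h : d ⊆ ⋃ n, f n) : ∃ n, d ⊆ f n := by
  have := hd.to_subtype
  choose g hg using fun x : d => mem_iUnion.1 (h x.2)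
  obtain ⟨n, hn⟩ := (finite_range g).bddAbove
  exact ⟨n, fun x hx => hf (hn ⟨⟨x, hx⟩, rfl⟩) (hg ⟨x, hx⟩)⟩

theorem ex_seq {σ : Type} {P : σ → Prop} {R : σ → σ → Prop} (h : ∀ x, P x → ∃ y, P y ∧ R x y)
    {x : σ} (hx : P x) : ∃ f : ℕ → σ, f 0 = x ∧ ∀ n, P (f n) ∧ R (f n) (f (n + 1)) := by
  choose g hg using h
  let f : ℕ → {x // P x} := fun n => Nat.rec ⟨x, hx⟩ (fun _ y => ⟨g y.1 y.2, (hg y.1 y.2).1⟩) n
  exact ⟨fun n => (f n).1, rfl, fun n => ⟨(f n).2, (hg _ (f n).2).2⟩⟩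

variable {K : Type} [LinearOrder K] [WellFoundedLT K] {pool : K → Set (Name K)}

/-- The value of: `Y` is in the filter generated at `ξ` by the generators of `s`. -/
noncomputable def Lg (s : Set (Item K)) (ξ : K) (Y : ℕ → RO (Q pool)) : RO (Q pool) :=
  ⨆ u : {u : List (Name K) // ∀ X ∈ u, .gen ξ X ∈ s}, ⨆ n, ⨅ m, ⨅ _ : n ≤ m,
    val pool (allL u.1 m) ⇨ Y m

section lg

variable {s : Set (Item K)} {ξ : K} {Y Y' : ℕ → RO (Q pool)} {x : RO (Q pool)}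

theorem le_Lg {u : List (Name K)} (hu : ∀ X ∈ u, .gen ξ X ∈ s) (n : ℕ)
    (h : ∀ m, n ≤ m → x ⊓ val pool (allL u m) ≤ Y m) : x ≤ Lg s ξ Y :=
  le_iSup_of_le ⟨u, hu⟩ (le_iSup_of_le n (le_iInf₂ fun m hm => le_himp_iff.2 (h m hm)))

theorem ex_Lg {q : Q pool} (h : io q ≤ Lg s ξ Y) : ∃ r ≤ q, ∃ u : List (Name K),
    (∀ X ∈ u, .gen ξ X ∈ s) ∧ ∃ n, ∀ m, n ≤ m → io r ⊓ val pool (allL u m) ≤ Y m := by
  obtain ⟨r, h1, u, n, h2⟩ := ex_iSup2 h
  exact ⟨r, h1, u.1, u.2, n, fun m hm => le_himp_iff.1 (h2.trans (iInf₂_le m hm))⟩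

theorem Lg_two {Y'' : ℕ → RO (Q pool)} (h : x ≤ Lg s ξ Y) (h' : x ≤ Lg s ξ Y')
    (h'' : ∀ m, x ⊓ Y m ⊓ Y' m ≤ Y'' m) : x ≤ Lg s ξ Y'' := le_of_io fun q hq => by
  obtain ⟨r, h1, u, hu, n, h2⟩ := ex_Lg (hq.trans h)
  obtain ⟨r', h3, u', hu', n', h4⟩ := ex_Lg ((io_mono h1).trans (hq.trans h'))
  refine ⟨r', h3.trans h1, le_Lg (u := u ++ u') (fun X hX => (List.mem_append.1 hX).elim (hu X)
    (hu' X)) (max n n') fun m hm => le_trans ?_ (h'' m)⟩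
  rw [val_append]
  exact le_inf (le_inf (inf_le_left.trans ((io_mono (h3.trans h1)).trans hq))
    ((inf_le_inf (io_mono h3) inf_le_left).trans (h2 m (le_of_max_le_left hm))))
    ((inf_le_inf_left _ inf_le_right).trans (h4 m (le_of_max_le_right hm)))

theorem Lg_mono (h : x ≤ Lg s ξ Y) (h' : ∀ m, x ⊓ Y m ≤ Y' m) : x ≤ Lg s ξ Y' :=
  Lg_two h h fun m => inf_le_left.trans (h' m)

theorem Lg_fin {ι : Type} {J : Set ι} (hJ : J.Finite) {Z : ι → ℕ → RO (Q pool)}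
    (h : ∀ j ∈ J, x ≤ Lg s ξ (Z j)) : x ≤ Lg s ξ fun m => ⨅ j ∈ J, Z j m := by
  induction J, hJ using Set.Finite.induction_on with
  | empty => exact le_Lg (u := []) (by simp) 0 fun m _ => by simp only [mem_empty_iff_false, not_false_eq_true, iInf_neg, iInf_top, le_top]
  | insert _ _ ih =>
    refine Lg_two (h _ (mem_insert _ _)) (ih fun j hj => h j (mem_insert_of_mem _ hj)) fun m => ?_
    rw [iInf_insert, inf_assoc]
    exact inf_le_right

theorem Lg_alw {y : K × Tree K} (hy : TreeOk s y) (τ : List ℕ) :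
    x ≤ Lg s y.1 fun m => val pool (alw y.2 τ m) := le_of_io fun q _ => by
  by_cases h : io q ≤ val pool (large y.2.2 (y.2.1 τ))
  · rw [val_large] at h
    obtain ⟨r, h1, j, n, h2⟩ := ex_iSup2 h
    refine ⟨r, h1, le_Lg (hy.2 j) n fun m hm => ?_⟩
    rw [val_alw]
    exact (le_himp_iff.1 (h2.trans (iInf₂_le m hm))).trans le_sup_left
  · obtain ⟨r, h1, h2⟩ := ex_compl h
    refine ⟨r, h1, le_Lg (u := []) (by simp) 0 fun m _ => ?_⟩
    rw [val_alw]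
    exact inf_le_left.trans (h2.trans le_sup_right)

theorem Lg_meet {r : Q pool} (hs : s ⊆ r.1.s) {Z : Name K}
    (hZ : .pro ξ Z ∈ r.1.s ∨ Z = fun _ => tt) (h : io r ≤ Lg s ξ Y) (n : ℕ) :
    ∃ q ≤ r, ∃ m, n ≤ m ∧ io q ≤ val pool (Z m) ∧ io q ≤ Y m := by
  obtain ⟨q, h1, u, hu, k, h2⟩ := ex_Lg h
  obtain ⟨q', h3, m, hm, h4⟩ := ex_iSup2 ((io_mono h1).trans
    (pos_val r (max n k) hZ fun X hX => hs (hu X hX)))
  exact ⟨q', h3.trans h1, m, le_of_max_le_left hm, h4.trans inf_le_left,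
    (le_inf (io_mono h3) (h4.trans inf_le_right)).trans (h2 m (le_of_max_le_right hm))⟩

end lg

/-- The value of: all trees of `t` at `ξ` allow `m` after `τ`. -/
noncomputable def Al (t : Q pool) (ξ : K) (τ : List ℕ) (m : ℕ) : RO (Q pool) :=
  ⨅ x ∈ t.at ξ, val pool (alw x.2 τ m)

theorem Lg_Al (t : Q pool) (ξ : K) (τ : List ℕ) {s : Set (Item K)} (hs : t.1.s ⊆ s)
    {x : RO (Q pool)} : x ≤ Lg s ξ (Al t ξ τ) :=
  Lg_fin (t.at_ok ξ hs).1 fun y hy => by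
    have := Lg_alw (x := x) ((t.at_ok ξ hs).2 y hy).2 τ
    rwa [hy.2] at this

theorem one_new {σ ρ : List ℕ} {m m' : ℕ} (h1 : σ <+: ρ) (h2 : ρ ++ [m'] <+: σ ++ [m]) :
    ρ = σ ∧ m' = m := by
  rcases List.prefix_concat_iff.1 h2 with h | h
  · simpa using List.append_inj' h rfl
  · exact (no_new h1 h).elim

theorem ex_ext {ξ : K} {a t : Q pool} (h : a ≤ t.pres ξ) {m : ℕ}
    (hm : io a ≤ Al t ξ (t.1.st ξ) m) : ∃ g ≤ t, g ≤ a.pres ξ ∧ g.1.st ξ = t.1.st ξ ++ [m] ∧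
      g.1.dom ⊆ Iic ξ ∪ t.1.dom :=
  ⟨patch ξ a (t.1.st ξ ++ [m]) (t.at ξ) t h.s (t.at_ok ξ h.s), patch_le h (List.prefix_append _ _)
    (fun x hx e => ⟨⟨hx, e⟩, fun _ _ c d => by
      obtain ⟨rfl, rfl⟩ := one_new c d
      exact loc_val (e ▸ alw_supp t.2.s (t.2.tr x hx) _ _) a (hm.trans (iInf₂_le x ⟨hx, e⟩))⟩)
    (fun _ _ _ => rfl) fun _ hx _ => hx, patch_pres, patch_st, patch_dom⟩

theorem step (t : Q pool) (ξ : K) {Z : Name K} (hZ : .pro ξ Z ∈ t.1.s ∨ Z = fun _ => tt) (n : ℕ) :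
    ∃ g ≤ t, ∃ m, n ≤ m ∧ g.1.st ξ = t.1.st ξ ++ [m] ∧ io g ≤ val pool (Z m) ∧
      g.1.dom ⊆ Iic ξ ∪ t.1.dom := by
  obtain ⟨a, h1, m, h2, h3, h4⟩ := Lg_meet subset_rfl hZ (Lg_Al t ξ (t.1.st ξ) subset_rfl) n
  obtain ⟨g, h5, h6, h7, h8⟩ := ex_ext (h1.trans (t.le_pres ξ)) h4
  refine ⟨g, h5, m, h2, h7, (io_mono h6).trans (loc_val ?_ a h3), h8⟩
  rcases hZ with hZ | rfl
  · exact t.2.s.pro ξ Z hZ m
  · exact s_tt

theorem long (t : Q pool) (ξ : K) (N : ℕ) : ∃ g ≤ t, N ≤ (g.1.st ξ).length := by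
  induction N with
  | zero => exact ⟨t, le_rfl, Nat.zero_le _⟩
  | succ N ih =>
    obtain ⟨g, h1, h2⟩ := ih
    obtain ⟨g', h3, m, -, h4, -⟩ := step g ξ (Or.inr rfl) 0
    exact ⟨g', h3.trans h1, by simpa only [h4, List.length_append, List.length_cons, List.length_nil, zero_add, add_le_add_iff_right] using h2⟩

theorem le_bas {r : Q pool} {ξ : K} {n m : ℕ} (h : (r.1.st ξ)[n]? = some m) :
    io r ≤ val pool (.bas ξ n m) :=
  le_iSup_of_le (f := fun r : {r : Q pool // (r.1.st ξ)[n]? = some m} => io r.1) ⟨r, h⟩ le_rfl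

theorem bas_elim {r : Q pool} {ξ : K} {n m : ℕ} (h : io r ≤ val pool (.bas ξ n m))
    (hn : n < (r.1.st ξ).length) : (r.1.st ξ)[n]? = some m := by
  obtain ⟨t, -, h1, h2⟩ := (frc_iff _ r).2 h r.1 (in_univ r.2) (le_rfl' _)
  obtain ⟨l, hl⟩ := h1.st ξ
  rwa [← hl, List.getElem?_append_left hn] at h2

/-- The generic sequence at `ξ` starts with `l`. -/
noncomputable def pre (ξ : K) (l : List ℕ) : Code K := infC fun i : Fin l.length => .bas ξ i l[i]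

theorem le_pre {r : Q pool} {ξ : K} {l : List ℕ} (h : l <+: r.1.st ξ) :
    io r ≤ val pool (pre ξ l) := by
  rw [pre, val_infC]
  obtain ⟨l', hl⟩ := h
  exact le_iInf fun i => le_bas (by rw [← hl, List.getElem?_append_left i.2]; simp)

theorem pre_elim {r : Q pool} {ξ : K} {l : List ℕ} (h : io r ≤ val pool (pre ξ l)) :
    ∃ g ≤ r, l <+: g.1.st ξ := by
  obtain ⟨g, h1, h2⟩ := long r ξ l.length
  refine ⟨g, h1, List.prefix_iff_getElem?.2 fun i hi => ?_⟩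
  rw [pre, val_infC] at h
  have h3 : io g ≤ val pool (.bas ξ i l[i]) := (io_mono h1).trans (h.trans
    (iInf_le (fun i : Fin l.length => val pool (.bas ξ i l[i])) ⟨i, hi⟩))
  exact bas_elim h3 (hi.trans_le h2)

/-- The code of the finite part of a condition. -/
noncomputable def cd (r : Q pool) : Code K :=
  haveI := r.dom_fin.countable.to_subtype
  haveI := r.2.finT.countable.to_subtype
  and2 (infC fun ξ : r.1.dom => pre ξ.1 (r.1.st ξ))
    (infC fun y : r.1.T × List ℕ × ℕ => or2 (.neg (and2 (cst (r.1.st y.1.1.1 <+: y.2.1))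
      (pre y.1.1.1 (y.2.1 ++ [y.2.2])))) (alw y.1.1.2 y.2.1 y.2.2))

theorem cd_supp {r : Q pool} {ζ : K} (h : r.1.dom ⊆ Iio ζ) : (cd r).supp ⊆ Iio ζ := by
  have := r.dom_fin.countable.to_subtype
  have := r.2.finT.countable.to_subtype
  have e : ∀ ξ ∈ r.1.dom, ∀ l, (pre ξ l).supp ⊆ Iio ζ := fun ξ hξ l =>
    s_infC fun _ => singleton_subset_iff.2 (h hξ)
  refine s_and (s_infC fun ξ => e _ ξ.2 _) (s_infC fun y => ?_)
  have hy : y.1.1.1 ∈ r.1.dom := Or.inr ⟨_, y.1.2, rfl⟩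
  exact s_or (s_neg (s_and (s_cst _) (e _ hy _)))
    ((alw_supp r.2.s (r.2.tr _ y.1.2) _ _).trans (Iio_subset_Iio (le_of_lt (h hy))))

theorem le_cd (r : Q pool) : io r ≤ val pool (cd r) := by
  simp only [cd, val_and, val_infC, val_or, val_neg, val_cst]
  refine le_inf (le_iInf fun ξ => le_pre List.prefix_rfl) (le_iInf fun y => io_dense fun q hq => ?_)
  by_cases h : io q ≤ (⨆ _ : r.1.st y.1.1.1 <+: y.2.1, ⊤) ⊓
      val pool (pre y.1.1.1 (y.2.1 ++ [y.2.2]))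
  · obtain ⟨g, h1, h2⟩ := pre_elim (h.trans inf_le_right)
    obtain ⟨-, -, h3, -⟩ := ex_iSup (h.trans inf_le_left)
    exact ⟨g, h1, (Q.al (h1.trans hq) y.1.2 h3 h2).trans le_sup_right⟩
  · obtain ⟨g, h1, h2⟩ := ex_compl h
    exact ⟨g, h1, h2.trans le_sup_left⟩

theorem cd_elim {t r : Q pool} (hs : r.1.s ⊆ t.1.s) (h : io t ≤ val pool (cd r)) :
    ∃ g ≤ t, g ≤ r := by
  simp only [cd, val_and, val_infC, val_or, val_neg, val_cst] at h
  have key : ∀ d : Set K, d.Finite → d ⊆ r.1.dom → ∃ g ≤ t, ∀ ξ ∈ d, r.1.st ξ <+: g.1.st ξ := by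
    intro d hd
    induction d, hd using Set.Finite.induction_on with
    | empty => exact fun _ => ⟨t, le_rfl, fun _ h => h.elim⟩
    | @insert ξ d _ _ ih =>
      intro hd
      obtain ⟨g, h1, h2⟩ := ih ((subset_insert _ _).trans hd)
      obtain ⟨g', h3, h4⟩ := pre_elim ((io_mono h1).trans ((h.trans inf_le_left).trans
        (iInf_le _ ⟨ξ, hd (mem_insert _ _)⟩)))
      exact ⟨g', h3.trans h1, fun ζ hζ => hζ.elim (fun e => e ▸ h4)
        fun e => (h2 ζ e).trans (h3.st ζ)⟩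
  obtain ⟨g, h1, h2⟩ := key _ r.dom_fin subset_rfl
  let g' : Q pool := ⟨⟨g.1.s, g.1.st, g.1.T ∪ r.1.T⟩, g.2.s, g.2.fin, g.2.finT.union r.2.finT,
    fun x hx => hx.elim (g.2.tr x) fun h => (r.2.tr x h).mono (hs.trans h1.s)⟩
  have h3 : g' ≤ g := Q.le_same subset_rfl (fun _ _ => rfl) subset_union_left
  refine ⟨g', h3.trans h1, Q.le_of (hs.trans h1.s) (fun ξ => ?_) subset_union_right
    fun x hx τ m a b => ?_⟩
  · by_cases h4 : ξ ∈ r.1.dom
    · exact h2 ξ h4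
    · rw [st_nil h4]; exact List.nil_prefix
  · have h5 := (io_mono (h3.trans h1)).trans ((h.trans inf_le_right).trans
      (iInf_le _ (⟨x, hx⟩, τ, m)))
    have h6 : io g' ≤ (⨆ _ : r.1.st x.1 <+: τ, ⊤) ⊓ val pool (pre x.1 (τ ++ [m])) :=
      le_inf (le_iSup_of_le a le_top) (le_pre b)
    refine (le_inf h5 h6).trans ?_
    rw [inf_sup_right, compl_inf_eq_bot, bot_sup_eq]
    exact inf_le_left

theorem ex_join {p t : Q pool} {s : Set (Item K)} (hs : VS pool s) (h1 : p.1.s ⊆ s)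
    (h2 : t.1.s ⊆ s) (h : ∀ ξ ∈ p.1.dom, ξ ∈ t.1.dom → p.1.st ξ = t.1.st ξ) :
    ∃ g ≤ t, g ≤ p := by
  classical
  refine ⟨⟨⟨s, fun ξ => if ξ ∈ t.1.dom then t.1.st ξ else p.1.st ξ, t.1.T ∪ p.1.T⟩, hs,
    (t.dom_fin.union p.2.fin).subset fun ξ hξ => ?_, t.2.finT.union p.2.finT,
    fun x hx => hx.elim (fun h => (t.2.tr x h).mono h2) fun h => (p.2.tr x h).mono h1⟩,
    Q.le_same h2 (fun ξ hξ => if_pos hξ) subset_union_left,
    Q.le_same h1 (fun ξ hξ => ?_) subset_union_right⟩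
  · by_cases h3 : ξ ∈ t.1.dom
    · exact Or.inl h3
    · exact Or.inr (by simpa [h3] using hξ)
  · by_cases h3 : ξ ∈ t.1.dom
    · exact (if_pos h3).trans (h ξ hξ h3).symm
    · exact if_neg h3

theorem vs_iUnion {f : ℕ → Set (Item K)} (hf : Monotone f) (h : ∀ n, VS pool (f n)) :
    VS pool (⋃ n, f n) := by
  refine vs_loc (countable_iUnion fun n => (h n).cnt) (fun δ a a' h1 h2 => ?_) (fun ξ X h1 => ?_)
    fun ξ Z u h1 h2 => ?_
  · obtain ⟨n, hn⟩ := fin_chain hf (toFinite {.col δ a, .col δ a'}) (pair_subset h1 h2)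
    exact (h n).fn δ a a' (hn (by simp)) (hn (by simp))
  · obtain ⟨n, hn⟩ := mem_iUnion.1 h1
    exact ⟨_, subset_iUnion f n, h n, hn⟩
  · obtain ⟨n, hn⟩ := fin_chain hf (((List.finite_toSet u).image (Item.gen ξ)).insert (.pro ξ Z))
      (insert_subset h1 (by rintro _ ⟨X, hX, rfl⟩; exact h2 X hX))
    exact ⟨_, subset_iUnion f n, h n, hn (mem_insert _ _),
      fun X hX => hn (mem_insert_of_mem _ ⟨X, hX, rfl⟩)⟩

theorem ex_tasks {ι : Type} [Countable ι] (D : ι → Set (Item K) → Prop) {s : Set (Item K)}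
    (hs : VS pool s) (hm : ∀ i s s', D i s → s ⊆ s' → D i s')
    (hd : ∀ i s', VS pool s' → s ⊆ s' → ∃ s'', VS pool s'' ∧ s' ⊆ s'' ∧ D i s'') :
    ∃ s', VS pool s' ∧ s ⊆ s' ∧ ∀ i, D i s' := by
  rcases isEmpty_or_nonempty ι with h | h
  · exact ⟨s, hs, subset_rfl, fun i => isEmptyElim i⟩
  obtain ⟨e, he⟩ := exists_surjective_nat ι
  obtain ⟨f, h0, hf⟩ := ex_seq (σ := Set (Item K) × ℕ) (P := fun x => VS pool x.1 ∧ s ⊆ x.1)
    (R := fun x y => x.1 ⊆ y.1 ∧ y.2 = x.2 + 1 ∧ D (e x.2) y.1) (fun x hx => by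
      obtain ⟨y, h1, h2, h3⟩ := hd (e x.2) x.1 hx.1 hx.2
      exact ⟨(y, x.2 + 1), ⟨h1, hx.2.trans h2⟩, h2, rfl, h3⟩) (x := (s, 0)) ⟨hs, subset_rfl⟩
  have hn : ∀ n, (f n).2 = n := fun n => by
    induction n with
    | zero => rw [h0]
    | succ n ih => rw [(hf n).2.2.1, ih]
  refine ⟨⋃ n, (f n).1, vs_iUnion (monotone_nat_of_le_succ fun n => (hf n).2.1) fun n => (hf n).1.1,
    (hf 0).1.2.trans (subset_iUnion (fun n => (f n).1) 0), fun i => ?_⟩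
  obtain ⟨n, rfl⟩ := he i
  have := (hf n).2.2.2
  rw [hn] at this
  exact hm _ _ _ this (subset_iUnion (fun n => (f n).1) (n + 1))

/-- Countably many members of `D` are enough below a suitable set of items. -/
theorem master (D : Q pool → Prop) {s : Set (Item K)} (hs : VS pool s) :
    ∃ s', VS pool s' ∧ s ⊆ s' ∧ ∃ PP : Set (Q pool), PP.Countable ∧ (∀ p ∈ PP, p.1.s ⊆ s' ∧ D p) ∧
      ∀ t, D t → s' ⊆ t.1.s → ∃ p ∈ PP, ∀ ξ ∈ p.1.dom, ξ ∈ t.1.dom → p.1.st ξ = t.1.st ξ := by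
  obtain ⟨f, h0, hf⟩ := ex_seq (σ := Set (Item K) × Set (Q pool))
    (P := fun x => VS pool x.1 ∧ x.2.Countable ∧ ∀ p ∈ x.2, p.1.s ⊆ x.1 ∧ D p)
    (R := fun x y => x.1 ⊆ y.1 ∧ x.2 ⊆ y.2 ∧ ∀ e : Set (K × List ℕ), e.Finite →
      e ⊆ (⋃ p ∈ x.2, p.1.dom) ×ˢ Set.univ → ∀ t, D t → y.1 ⊆ t.1.s → (∀ z ∈ e, t.1.st z.1 = z.2) →
        ∃ p ∈ y.2, ∀ z ∈ e, p.1.st z.1 = z.2) (fun x hx => by
      have hc := (countable_ofPred_finite_subset (((hx.2.1.biUnion fun p _ =>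
        p.dom_fin.countable).prod (countable_univ (α := List ℕ))))).to_subtype
      obtain ⟨s', h1, h2, h3⟩ := ex_tasks (fun (e : {e : Set (K × List ℕ) | e.Finite ∧
          e ⊆ (⋃ p ∈ x.2, p.1.dom) ×ˢ Set.univ}) s' => ∃ o : Set (Q pool), o.Subsingleton ∧
          (∀ p ∈ o, p.1.s ⊆ s' ∧ D p) ∧ ∀ t, D t → s' ⊆ t.1.s → (∀ z ∈ e.1, t.1.st z.1 = z.2) →
            ∃ p ∈ o, ∀ z ∈ e.1, p.1.st z.1 = z.2) hx.1
        (fun e s s' ⟨o, a, b, c⟩ h => ⟨o, a, fun p hp => ⟨(b p hp).1.trans h, (b p hp).2⟩,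
          fun t h1 h2 => c t h1 (h.trans h2)⟩) (fun e s' h1 _ => by
          by_cases h : ∃ t, D t ∧ s' ⊆ t.1.s ∧ ∀ z ∈ e.1, t.1.st z.1 = z.2
          · obtain ⟨t, a, b, c⟩ := h
            exact ⟨t.1.s, t.2.s, b, {t}, subsingleton_singleton,
              fun p hp => by rw [hp]; exact ⟨subset_rfl, a⟩, fun _ _ _ _ => ⟨t, rfl, c⟩⟩
          · exact ⟨s', h1, subset_rfl, ∅, subsingleton_empty, fun _ h => h.elim,
              fun t a b c => (h ⟨t, a, b, c⟩).elim⟩)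
      choose o o1 o2 o3 using h3
      refine ⟨(s', x.2 ∪ ⋃ e, o e), ⟨h1, hx.2.1.union (countable_iUnion fun e => (o1 e).countable),
        fun p hp => hp.elim (fun h => ⟨(hx.2.2 p h).1.trans h2, (hx.2.2 p h).2⟩) fun h => ?_⟩,
        h2, subset_union_left, fun e a b t c d g => ?_⟩
      · obtain ⟨e, he⟩ := mem_iUnion.1 h
        exact o2 e p he
      · obtain ⟨p, hp, h⟩ := o3 ⟨e, a, b⟩ t c d g
        exact ⟨p, Or.inr (mem_iUnion.2 ⟨_, hp⟩), h⟩)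
    (x := (s, ∅)) ⟨hs, countable_empty, fun _ h => h.elim⟩
  have m2 : Monotone fun n => (f n).2 := monotone_nat_of_le_succ fun n => (hf n).2.2.1
  refine ⟨⋃ n, (f n).1, vs_iUnion (monotone_nat_of_le_succ fun n => (hf n).2.1) fun n => (hf n).1.1,
    by simpa [h0] using subset_iUnion (fun n => (f n).1) 0, ⋃ n, (f n).2,
    countable_iUnion fun n => (hf n).1.2.1, fun p hp => ?_, fun t h1 h2 => ?_⟩
  · obtain ⟨n, hn⟩ := mem_iUnion.1 hp
    exact ⟨((hf n).1.2.2 p hn).1.trans (subset_iUnion (fun n => (f n).1) n), ((hf n).1.2.2 p hn).2⟩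
  · obtain ⟨n, hn⟩ := fin_chain (f := fun n => ⋃ p ∈ (f n).2, p.1.dom)
      (fun a b h => biUnion_subset_biUnion_left (m2 h))
      (t.dom_fin.inter_of_left (⋃ n, ⋃ p ∈ (f n).2, p.1.dom)) inter_subset_right
    obtain ⟨p, hp, h⟩ := (hf n).2.2.2 ((fun ξ => (ξ, t.1.st ξ)) ''
      (t.1.dom ∩ ⋃ n, ⋃ p ∈ (f n).2, p.1.dom)) ((t.dom_fin.inter_of_left _).image _)
      (by rintro _ ⟨ξ, hξ, rfl⟩; exact ⟨hn hξ, trivial⟩) t h1
      ((subset_iUnion (fun n => (f n).1) (n + 1)).trans h2) (by rintro _ ⟨ξ, -, rfl⟩; rfl)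
    exact ⟨p, mem_iUnion.2 ⟨_, hp⟩, fun ξ a b =>
      h _ ⟨ξ, ⟨b, mem_iUnion.2 ⟨_, mem_biUnion hp a⟩⟩, rfl⟩⟩

/-- The same for sets closed under extension. -/
theorem master' (D : Q pool → Prop) {s : Set (Item K)} (hs : VS pool s) :
    ∃ s', VS pool s' ∧ s ⊆ s' ∧ ∃ PP : Set (Q pool), PP.Countable ∧ (∀ p ∈ PP, p.1.s ⊆ s' ∧ D p) ∧
      ∀ t, D t → s' ⊆ t.1.s → ∃ p ∈ PP, ∃ g ≤ t, g ≤ p := by
  obtain ⟨s', h1, h2, PP, h3, h4, h5⟩ := master D hs
  refine ⟨s', h1, h2, PP, h3, h4, fun t a b => ?_⟩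
  obtain ⟨p, hp, h⟩ := h5 t a b
  exact ⟨p, hp, ex_join t.2.s ((h4 p hp).1.trans b) subset_rfl h⟩

/-- Below `s` the value `b` is the value of the code `c`. -/
def Cod (s : Set (Item K)) (c : Code K) (b : RO (Q pool)) : Prop :=
  ∀ t : Q pool, s ⊆ t.1.s → (io t ≤ val pool c ↔ io t ≤ b)

theorem Cod.mono {s s' : Set (Item K)} {c : Code K} {b : RO (Q pool)} (h : Cod s c b)
    (h' : s ⊆ s') : Cod s' c b := fun t ht => h t (h'.trans ht)

theorem Cod.compl {s : Set (Item K)} {c : Code K} {b : RO (Q pool)} (h : Cod s c b) :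
    Cod s (.neg c) bᶜ := fun _ ht =>
  ⟨fun h1 => io_compl fun q hq h2 => io_absurd ((h q (ht.trans hq.s)).2 h2) ((io_mono hq).trans h1),
    fun h1 => io_compl fun q hq h2 =>
      io_absurd ((h q (ht.trans hq.s)).1 h2) ((io_mono hq).trans h1)⟩

theorem ex_cod' (b : RO (Q pool)) (π : Q pool → Q pool) (A : Set K) (h1 : ∀ p, p ≤ π p)
    (h2 : ∀ p, (π p).1.s = p.1.s) (h3 : ∀ p, io p ≤ b → io (π p) ≤ b)
    (h4 : ∀ p, (cd (π p)).supp ⊆ A) {s : Set (Item K)} (hs : VS pool s) :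
    ∃ s', VS pool s' ∧ s ⊆ s' ∧ ∃ c, c.supp ⊆ A ∧ Cod s' c b := by
  obtain ⟨s', a, a', PP, a1, a2, a3⟩ := master' (fun p => io p ≤ b) hs
  have := a1.to_subtype
  refine ⟨s', a, a', supC fun p : PP => cd (π p), s_supC fun p => h4 p, fun t ht => ?_⟩
  rw [val_supC]
  refine ⟨fun h => io_dense fun q hq => ?_, fun h => io_dense fun q hq => ?_⟩
  · obtain ⟨g, b1, p, b2⟩ := ex_iSup ((io_mono hq).trans h)
    obtain ⟨g', b3, b4⟩ := cd_elim (by
      rw [h2]; exact (a2 p p.2).1.trans (ht.trans (b1.trans hq).s)) b2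
    exact ⟨g', b3.trans b1, (io_mono b4).trans (h3 p (a2 p p.2).2)⟩
  · obtain ⟨p, hp, g, b1, b2⟩ := a3 q ((io_mono hq).trans h) (ht.trans hq.s)
    exact ⟨g, b1, le_iSup_of_le ⟨p, hp⟩ ((io_mono (b2.trans (h1 p))).trans (le_cd _))⟩

theorem ex_cod_loc {b : RO (Q pool)} {ζ : K} (h : Loc ζ b) {s : Set (Item K)} (hs : VS pool s) :
    ∃ s', VS pool s' ∧ s ⊆ s' ∧ ∃ c, c.supp ⊆ Iio ζ ∧ Cod s' c b :=
  ex_cod' b (·.pres ζ) _ (·.le_pres ζ) (fun _ => rfl) h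
    (fun p => cd_supp fun _ h => (p.pres_dom ζ h).1) hs

/-- Names of sets indexed by a countable type. -/
theorem ex_name {ι : Type} [Countable ι] (y : ι → RO (Q pool)) {s : Set (Item K)}
    (hs : VS pool s) : ∃ s', VS pool s' ∧ s ⊆ s' ∧ ∃ Y : ι → Code K, ∀ i, Cod s' (Y i) (y i) := by
  obtain ⟨s', h1, h2, h3⟩ := ex_tasks (fun i s => ∃ c, Cod s c (y i)) hs
    (fun i _ _ ⟨c, h⟩ h' => ⟨c, h.mono h'⟩) fun i s' h _ => by
      obtain ⟨s'', a, b, c, -, d⟩ := ex_cod' (y i) id univ (fun _ => le_rfl) (fun _ => rfl)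
        (fun _ h => h) (fun _ => subset_univ _) h
      exact ⟨s'', a, b, c, d⟩
  choose Y hY using h3
  exact ⟨s', h1, h2, Y, hY⟩

/-- Countably many tails of `ω₁` that are decided densely have a common tail. -/
theorem ex_tail {ι : Type} [Countable ι] (b : ι → O → RO (Q pool)) (r : Q pool)
    (h : ∀ i, ∀ q ≤ r, ∃ g ≤ q, ∃ β, ∀ α, β ≤ α → io g ≤ b i α) :
    ∃ s', VS pool s' ∧ r.1.s ⊆ s' ∧ ∃ β, ∀ i α, β ≤ α → ∀ t ≤ r, s' ⊆ t.1.s → io t ≤ b i α := by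
  obtain ⟨s', h1, h2, h3⟩ := ex_tasks
    (fun i s => ∃ β, ∀ α, β ≤ α → ∀ t ≤ r, s ⊆ t.1.s → io t ≤ b i α) r.2.s
    (fun i _ _ ⟨β, h⟩ h' => ⟨β, fun α a t c d => h α a t c (h'.trans d)⟩) fun i s' h0 _ => by
      obtain ⟨s'', a, a', PP, a1, a2, a3⟩ := master' (fun p => ∃ β, ∀ α, β ≤ α → io p ≤ b i α) h0
      have := a1.to_subtype
      choose β hβ using fun p : PP => (a2 p p.2).2
      obtain ⟨γ, hγ⟩ := O_bdd (countable_range β)
      refine ⟨s'', a, a', γ, fun α c t d e => io_dense fun q hq => ?_⟩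
      obtain ⟨g, b1, b2⟩ := h i q (hq.trans d)
      obtain ⟨p, hp, g', b3, b4⟩ := a3 g b2 (e.trans (b1.trans hq).s)
      exact ⟨g', b3.trans b1, (io_mono b4).trans
        (hβ ⟨p, hp⟩ α ((hγ _ ⟨_, rfl⟩).le.trans c))⟩
  choose β hβ using h3
  obtain ⟨γ, hγ⟩ := O_bdd (countable_range β)
  exact ⟨s', h1, h2, γ, fun i α a => hβ i α ((hγ _ ⟨i, rfl⟩).le.trans a)⟩

theorem good_bd (b : ℕ → O → RO (Q pool)) (hb : ∀ k α β, α ≠ β → b k α ⊓ b k β = ⊥)
    (x : RO (Q pool)) (hx : x ≠ ⊥) : ∃ y ≤ x, y ≠ ⊥ ∧ ∃ β, ∀ k α, β ≤ α → y ⊓ b k α = ⊥ := by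
  obtain ⟨r, hr⟩ := exists_io_le hx
  obtain ⟨s, h1, h2, β, h3⟩ := ex_tail (fun k α => (b k α)ᶜ) r fun k q _ => by
    by_cases h : ∃ g ≤ q, ∃ α, io g ≤ b k α
    · obtain ⟨g, a, α, c⟩ := h
      obtain ⟨β, hβ⟩ := O_bdd (countable_singleton α)
      exact ⟨g, a, β, fun γ hγ => c.trans (le_compl_iff_disjoint_right.2
        (disjoint_iff.2 (hb k α γ ((hβ α rfl).trans_le hγ).ne)))⟩
    · obtain ⟨β, -⟩ := O_bdd countable_empty
      exact ⟨q, le_rfl, β, fun α _ => io_compl fun g a c => h ⟨g, a, α, c⟩⟩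
  exact ⟨io (r.up s h1 h2), (io_mono (r.up_le h1 h2)).trans hr, io_ne_bot _, β, fun k α a =>
    disjoint_iff.1 (le_compl_iff_disjoint_right.1 (h3 k α a _ (r.up_le h1 h2) subset_rfl))⟩

end Pool.Agent.MP_1d5a21_lc

end

-- part MP_1d5a21_lc.P4
section

/-!
The master condition: the sets of the ground model stay a splitting family.
-/

set_option autoImplicit false
set_option linter.unusedSectionVars false

namespace Pool.Agent.MP_1d5a21_lc

open Set Pool.Agent.Lib.PosetForcing Code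

theorem ex_split (f : ℕ → Set ℕ) : ∃ a : Set ℕ, ∀ A ∈ ({a, aᶜ} : Set (Set ℕ)), ∀ k,
    (f k).Infinite → ∀ n, ∃ m, n ≤ m ∧ m ∈ A ∧ m ∈ f k := by
  have : ∀ k n, ∃ m, n < m ∧ ((f k).Infinite → m ∈ f k) := fun k n => by
    by_cases h : (f k).Infinite
    · obtain ⟨m, h1, h2⟩ := h.exists_gt n
      exact ⟨m, h2, fun _ => h1⟩
    · exact ⟨n + 1, n.lt_succ_self, fun h' => (h h').elim⟩
  choose nx h1 h2 using this
  let x : ℕ → ℕ := fun i => Nat.rec 0 (fun i y => nx (i / 2).unpair.1 y) i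
  have hx : StrictMono x := strictMono_nat_of_lt_succ fun i => h1 _ _
  refine ⟨range fun i => x (2 * i + 1), fun A hA k hk n => ?_⟩
  have hn := Nat.right_le_pair k n
  rcases hA with rfl | rfl
  · refine ⟨x (2 * k.pair n + 1), le_trans (show n ≤ 2 * k.pair n + 1 by omega) hx.le_apply,
      ⟨_, rfl⟩, ?_⟩
    have := h2 k (x (2 * k.pair n)) hk
    simpa [x] using this
  · refine ⟨x (2 * k.pair n + 1 + 1), le_trans (show n ≤ 2 * k.pair n + 1 + 1 by omega) hx.le_apply,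
      fun ⟨i, hi⟩ => by
        have : 2 * i + 1 = 2 * k.pair n + 1 + 1 := hx.injective hi
        omega, ?_⟩
    have := h2 k (x (2 * k.pair n + 1)) hk
    have e : (2 * k.pair n + 1) / 2 = k.pair n := by omega
    simpa only [x, e, Nat.unpair_pair, ne_eq, OfNat.ofNat_ne_zero, not_false_eq_true, mul_div_cancel_left₀] using this

variable {K : Type} [LinearOrder K] [WellFoundedLT K] {pool : K → Set (Name K)}

open Classical in
/-- A guarded code. -/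
noncomputable def gd (P : Prop) (c : Code K) : Code K := if P then c else .ff

theorem val_gd (P : Prop) (c : Code K) : val pool (gd P c) = ⨆ _ : P, val pool c := by
  by_cases h : P <;> simp [gd, h]

theorem s_gd {A : Set K} (P : Prop) {c : Code K} (h : c.supp ⊆ A) : (gd P c).supp ⊆ A := by
  unfold gd; split_ifs
  · exact h
  · exact empty_subset _

/-- Equal values below `s`. -/
def Eqv (s : Set (Item K)) (a b : RO (Q pool)) : Prop :=
  ∀ t : Q pool, s ⊆ t.1.s → (io t ≤ a ↔ io t ≤ b)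

section eqv

variable {s : Set (Item K)} {a b a' b' : RO (Q pool)}

theorem Eqv.rfl : Eqv s a a := fun _ _ => Iff.rfl

theorem Eqv.compl (h : Eqv s a b) : Eqv s aᶜ bᶜ := fun _ ht =>
  ⟨fun h1 => io_compl fun q hq h2 => io_absurd ((h q (ht.trans hq.s)).2 h2) ((io_mono hq).trans h1),
    fun h1 => io_compl fun q hq h2 =>
      io_absurd ((h q (ht.trans hq.s)).1 h2) ((io_mono hq).trans h1)⟩

theorem Eqv.inf (h : Eqv s a b) (h' : Eqv s a' b') : Eqv s (a ⊓ a') (b ⊓ b') := fun t ht => by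
  rw [le_inf_iff, le_inf_iff, h t ht, h' t ht]

theorem Eqv.sup (h : Eqv s a b) (h' : Eqv s a' b') : Eqv s (a ⊔ a') (b ⊔ b') := by
  simpa only [compl_inf, compl_compl] using (h.compl.inf h'.compl).compl

theorem eqv_iInf {ι : Sort*} {f g : ι → RO (Q pool)} (h : ∀ i, Eqv s (f i) (g i)) :
    Eqv s (⨅ i, f i) (⨅ i, g i) := fun t ht => by
  simp only [le_iInf_iff]
  exact forall_congr' fun i => h i t ht

theorem eqv_iSup {ι : Sort*} {f g : ι → RO (Q pool)} (h : ∀ i, Eqv s (f i) (g i)) :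
    Eqv s (⨆ i, f i) (⨆ i, g i) := by
  simpa only [compl_iInf, compl_compl] using (eqv_iInf fun i => (h i).compl).compl

end eqv

theorem inf_le_of {g : Q pool} {b c : RO (Q pool)} (h : ∀ q ≤ g, io q ≤ b → io q ≤ c) :
    io g ⊓ b ≤ c := le_of_io fun q hq => by
  obtain ⟨r, h1, h2⟩ := ex_common (hq.trans inf_le_left)
  exact ⟨r, h1, h r h2 ((io_mono h1).trans (hq.trans inf_le_right))⟩

theorem ex_glue' {ζ : K} {a t : Q pool} (h : a ≤ t.pres ζ) : ∃ g ≤ t, g ≤ a.pres ζ ∧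
    g.1.st ζ = t.1.st ζ ∧ g.1.dom ⊆ Iic ζ ∪ t.1.dom :=
  ⟨patch ζ a (t.1.st ζ) (t.at ζ) t h.s (t.at_ok ζ h.s), patch_le h List.prefix_rfl
    (fun _ hx e => ⟨⟨hx, e⟩, fun _ _ c d => (no_new c d).elim⟩) (fun _ _ _ => rfl)
    fun _ hx _ => hx, patch_pres, patch_st, patch_dom⟩

theorem ex_cut {ζ : K} {q t : Q pool} (h : q ≤ t) {τ : List ℕ} (h1 : t.1.st ζ <+: τ)
    (h2 : τ <+: q.1.st ζ) : ∃ g ≤ t, g ≤ q.pres ζ ∧ g.1.st ζ = τ ∧ g.1.dom ⊆ Iic ζ ∪ t.1.dom :=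
  ⟨patch ζ q τ (t.at ζ) t h.s (t.at_ok ζ h.s), patch_le (h.trans (t.le_pres ζ)) h1
    (fun x hx e => ⟨⟨hx, e⟩, fun _ _ c d => loc_val (e ▸ alw_supp t.2.s (t.2.tr x hx) _ _) q
      (Q.al h hx (e ▸ c) (e ▸ d.trans h2))⟩) (fun _ _ _ => rfl)
    fun _ hx _ => hx, patch_pres, patch_st, patch_dom⟩

/-- `r` ends at `ζ` with the stem `τ` and forces the failure of `b`. -/
def Wit (ζ : K) (τ : List ℕ) (b : RO (Q pool)) (r : Q pool) : Prop :=
  r.1.dom ⊆ Iic ζ ∧ r.1.st ζ = τ ∧ io r ≤ bᶜ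

noncomputable def Ag (ζ : K) (τ : List ℕ) (b : RO (Q pool)) : RO (Q pool) :=
  ⨆ r : {r // Wit ζ τ b r}, io (r.1.pres ζ)

section ag

variable {ζ : K} {τ : List ℕ} {b : RO (Q pool)}

theorem loc_Ag : Loc ζ (Ag ζ τ b) := loc_iSup fun r => loc_io fun _ h => (r.1.pres_dom ζ h).1

theorem Wit.le' {r : Q pool} (h : Wit ζ τ b r) : io (r.pres ζ) ≤ Ag ζ τ b :=
  le_iSup_of_le (f := fun r : {r // Wit ζ τ b r} => io (r.1.pres ζ)) ⟨r, h⟩ le_rfl

theorem Wit.le {r : Q pool} (h : Wit ζ τ b r) : io r ≤ Ag ζ τ b :=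
  (io_mono (r.le_pres ζ)).trans h.le'

theorem Ag_elim {t : Q pool} (h : io t ≤ Ag ζ τ b) : ∃ g ≤ t, ∃ r, Wit ζ τ b r ∧ g ≤ r.pres ζ := by
  obtain ⟨q, h1, r, h2⟩ := ex_iSup h
  obtain ⟨g, h3, h4⟩ := ex_common h2
  exact ⟨g, h3.trans h1, r.1, r.2, h4⟩

theorem Wit.step {r a : Q pool} (h : Wit ζ τ b r) (ha : a ≤ r.pres ζ) {j : ℕ}
    (hj : io a ≤ Al r ζ τ j) : io a ≤ Ag ζ (τ ++ [j]) b := io_dense fun q hq => by
  obtain ⟨g, h1, h2, h3, h4⟩ := ex_ext (hq.trans ha) (m := j)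
    (by rw [h.2.1]; exact (io_mono hq).trans hj)
  obtain ⟨g', h5, h6⟩ := ex_glue h2
  exact ⟨g', h5, (io_mono h6).trans (Wit.le' ⟨h4.trans (union_subset subset_rfl h.1),
    by rw [h3, h.2.1], (io_mono h1).trans h.2.2⟩)⟩

theorem Ag_absurd {t : Q pool} (h : io t ≤ Ag ζ (t.1.st ζ) b) (h' : io t ≤ b) : False := by
  obtain ⟨g, h1, r, h2, h3⟩ := Ag_elim h
  have a := t.at_ok ζ h1.s
  have a' := r.at_ok ζ h3.s
  let g' := patch ζ g (t.1.st ζ) (t.at ζ ∪ r.at ζ) t h1.s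
    ⟨a.1.union a'.1, fun x hx => hx.elim (a.2 x) (a'.2 x)⟩
  have h4 : g' ≤ t := patch_le (h1.trans (t.le_pres ζ)) List.prefix_rfl
    (fun _ hx e => ⟨Or.inl ⟨hx, e⟩, fun _ _ c d => (no_new c d).elim⟩) (fun _ _ _ => rfl)
    fun _ hx _ => hx
  have h5 : g' ≤ r := patch_le h3 (by rw [h2.2.1])
    (fun _ hx e => ⟨Or.inr ⟨hx, e⟩, fun _ _ c d => (no_new (h2.2.1 ▸ c) d).elim⟩)
    (fun _ c d => (d.not_ge (h2.1 c)).elim)
    fun x c d => (d.not_ge (h2.1 (Or.inr ⟨x, c, rfl⟩))).elim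
  exact io_absurd ((io_mono h4).trans h') ((io_mono h5).trans h2.2.2)

end ag

noncomputable def UU (ζ : K) (W : ℕ → RO (Q pool)) (τ : List ℕ) (u : List (Name K)) (n m : ℕ) :
    RO (Q pool) := ⨆ j, ⨆ _ : n ≤ j, val pool (allL u j) ⊓ (Ag ζ (τ ++ [j]) (W m))ᶜ

theorem loc_UU {ζ : K} {W : ℕ → RO (Q pool)} {τ : List ℕ} {u : List (Name K)} {s : Set (Item K)}
    (hs : VS pool s) (hu : ∀ X ∈ u, .gen ζ X ∈ s) (n m : ℕ) : Loc ζ (UU ζ W τ u n m) :=
  loc_iSup fun j => loc_iSup fun _ =>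
    (loc_val (s_allL (fun X hX => (hs.gen ζ X (hu X hX)).2.1) j)).inf loc_Ag.compl

def Nice (s : Set (Item K)) (I : Set K) (b : RO (Q pool)) : Prop :=
  ∀ t : Q pool, s ⊆ t.1.s → io t ≤ b → ∃ p : Q pool, io p ≤ b ∧ p.1.dom ⊆ I ∧ ∃ g ≤ t, g ≤ p

theorem Nice.mono {s s' : Set (Item K)} {I I' : Set K} {b : RO (Q pool)} (h : Nice s I b)
    (h1 : s ⊆ s') (h2 : I ⊆ I') : Nice s' I' b := fun t a c => by
  obtain ⟨p, d, e, f⟩ := h t (h1.trans a) c
  exact ⟨p, d, e.trans h2, f⟩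

theorem Nice.drop {s : Set (Item K)} {I : Set K} {b : RO (Q pool)} (h : Nice s I b) {ζ : K}
    (hζ : ζ ∉ I) {t : Q pool} (h1 : s ⊆ t.1.s) (h2 : t.1.dom ⊆ Iic ζ) (h3 : io t ≤ bᶜ) :
    io (t.pres ζ) ≤ bᶜ := io_compl fun q hq h4 => by
  obtain ⟨p, a, c, g, d, e⟩ := h q (h1.trans hq.s) h4
  let r := patch ζ g (t.1.st ζ) (t.at ζ) p e.s (t.at_ok ζ (d.trans hq).s)
  have h5 : r ≤ t := patch_le (d.trans hq) List.prefix_rfl
    (fun _ hx e => ⟨⟨hx, e⟩, fun _ _ c d => (no_new c d).elim⟩)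
    (fun _ c d => (d.not_ge (h2 c)).elim) fun x c d => (d.not_ge (h2 (Or.inr ⟨x, c, rfl⟩))).elim
  have h6 : r ≤ p := patch_le (e.trans (p.le_pres ζ))
    (by rw [st_nil fun h => hζ (c h)]; exact List.nil_prefix)
    (fun x hx e => (hζ (c (Or.inr ⟨x, hx, e⟩))).elim) (fun _ _ _ => rfl) fun _ hx _ => hx
  exact io_absurd ((io_mono h6).trans a) ((io_mono h5).trans h3)

/-- The numbers that no condition with trivial finite part excludes from `W`. -/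
def BW (s : Set (Item K)) (W : ℕ → RO (Q pool)) : Set ℕ :=
  {m | ∀ t : Q pool, s ⊆ t.1.s → t.1.dom = ∅ → ¬ io t ≤ (W m)ᶜ}

def D1 (s : Set (Item K)) (I : Set K) (W : ℕ → RO (Q pool)) : Prop :=
  (∀ m, Nice s I (W m)) ∧ Nice s I (inB W)ᶜ ∧
    ∀ m, (∀ t : Q pool, s ⊆ t.1.s → io t ≤ (W m)ᶜ) ∨ m ∈ BW s W

def D2 (s : Set (Item K)) (ζ : K) (τ : List ℕ) (b : RO (Q pool)) : Prop :=
  (∀ t, Wit ζ τ b t → s ⊆ t.1.s → ∃ p, p.1.s ⊆ s ∧ Wit ζ τ b p ∧ ∃ g ≤ t, g ≤ p) ∧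
    ∃ c : Code K, c.supp ⊆ Iio ζ ∧ Cod s c (Ag ζ τ b)

theorem D1.mono {s s' : Set (Item K)} {I I' : Set K} {W : ℕ → RO (Q pool)} (h : D1 s I W)
    (h1 : s ⊆ s') (h2 : I ⊆ I') : D1 s' I' W :=
  ⟨fun m => (h.1 m).mono h1 h2, h.2.1.mono h1 h2, fun m => (h.2.2 m).imp
    (fun a t b => a t (h1.trans b)) fun a t b => a t (h1.trans b)⟩

theorem D2.mono {s s' : Set (Item K)} {ζ : K} {τ : List ℕ} {b : RO (Q pool)} (h : D2 s ζ τ b)
    (h1 : s ⊆ s') : D2 s' ζ τ b :=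
  ⟨fun t a c => let ⟨p, d, e⟩ := h.1 t a (h1.trans c); ⟨p, d.trans h1, e⟩,
    let ⟨c, d, e⟩ := h.2; ⟨c, d, e.mono h1⟩⟩

theorem gens_countable {s : Set (Item K)} (hs : s.Countable) (ζ : K) :
    {u : List (Name K) | ∀ X ∈ u, Item.gen ζ X ∈ s}.Countable := by
  have : Countable {X // Item.gen ζ X ∈ s} :=
    (hs.preimage (f := Item.gen ζ) fun _ _ h => by injection h).to_subtype
  refine (countable_range (List.map (Subtype.val : {X // Item.gen ζ X ∈ s} → _))).mono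
    fun u hu => mem_range.2 ⟨u.attachWith _ hu, by simp only [List.map_subtype, List.unattach_attachWith, List.map_id_fun', id_eq]⟩

/-- All tasks of the first triple are done in the second one. -/
structure St (s : Set (Item K)) (I : Set K) (WW : Set (ℕ → RO (Q pool))) (s' : Set (Item K))
    (I' : Set K) (WW' : Set (ℕ → RO (Q pool))) : Prop where
  d1 : ∀ W ∈ WW, D1 s' I' W
  d2 : ∀ W ∈ WW, ∀ ζ ∈ I, ∀ τ m, D2 s' ζ τ (W m)
  fav : ∀ W ∈ WW, ∀ ζ ∈ I, ∀ τ, (fun m => (Ag ζ τ (W m))ᶜ) ∈ WW'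
  uu : ∀ W ∈ WW, ∀ ζ ∈ I, ∀ τ u n, (∀ X ∈ u, .gen ζ X ∈ s) → UU ζ W τ u n ∈ WW'

theorem ex_st {s : Set (Item K)} {I : Set K} {WW : Set (ℕ → RO (Q pool))} (hs : VS pool s)
    (hI : I.Countable) (hW : WW.Countable) : ∃ s' I' WW', (VS pool s' ∧ I'.Countable ∧
      WW'.Countable) ∧ s ⊆ s' ∧ I ⊆ I' ∧ WW ⊆ WW' ∧ St s I WW s' I' WW' := by
  have := hI.to_subtype
  have := hW.to_subtype
  obtain ⟨s1, a1, b1, c1⟩ := ex_tasks (fun (i : WW × Option ℕ) s => ∃ J : Set K, J.Countable ∧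
      Nice s J (i.2.elim (inB i.1.1)ᶜ i.1.1)) hs
    (fun _ _ _ ⟨J, a, b⟩ h => ⟨J, a, b.mono h subset_rfl⟩) fun i s' h _ => by
      obtain ⟨s'', a, b, PP, c, d, e⟩ := master' (fun p => io p ≤ i.2.elim (inB i.1.1)ᶜ i.1.1) h
      refine ⟨s'', a, b, ⋃ p ∈ PP, p.1.dom, c.biUnion fun p _ => p.dom_fin.countable,
        fun t f g => ?_⟩
      obtain ⟨p, hp, h⟩ := e t g f
      exact ⟨p, (d p hp).2, subset_biUnion_of_mem (u := fun p : Q pool => p.1.dom) hp, h⟩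
  choose J hJ hJ' using c1
  obtain ⟨s2, a2, b2, c2⟩ := ex_tasks (fun (i : WW × ℕ) s =>
      (∀ t : Q pool, s ⊆ t.1.s → io t ≤ (i.1.1 i.2)ᶜ) ∨ i.2 ∈ BW s i.1.1) a1
    (fun _ _ _ a h => a.imp (fun a t b => a t (h.trans b)) fun a t b => a t (h.trans b))
    fun i s' h _ => by
      by_cases h1 : i.2 ∈ BW s' i.1.1
      · exact ⟨s', h, subset_rfl, Or.inr h1⟩
      · simp only [BW, mem_ofPred_eq, not_forall, not_not] at h1
        obtain ⟨t, a, b, c⟩ := h1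
        exact ⟨t.1.s, t.2.s, a, Or.inl fun t' d => (io_mono (Q.le_same d
          (fun _ h => by simp [b] at h) fun x hx =>
            (b.subset (Or.inr ⟨x, hx, rfl⟩ : x.1 ∈ t.1.dom)).elim)).trans c⟩
  obtain ⟨s3, a3, b3, c3⟩ := ex_tasks (fun (i : WW × I × List ℕ × ℕ) s =>
      D2 s i.2.1.1 i.2.2.1 (i.1.1 i.2.2.2)) a2 (fun _ _ _ a h => a.mono h) fun i s' h _ => by
      obtain ⟨s'', a, b, PP, -, d, e⟩ := master' (Wit i.2.1.1 i.2.2.1 (i.1.1 i.2.2.2)) h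
      obtain ⟨s''', a', b', c⟩ := ex_cod_loc (loc_Ag (ζ := i.2.1.1) (τ := i.2.2.1)
        (b := i.1.1 i.2.2.2)) a
      refine ⟨s''', a', b.trans b', fun t f g => ?_, c⟩
      obtain ⟨p, hp, h⟩ := e t f (b'.trans g)
      exact ⟨p, (d p hp).1.trans b', (d p hp).2, h⟩
  have := fun ζ => (gens_countable hs.cnt ζ).to_subtype
  refine ⟨s3, I ∪ ⋃ i, J i, WW ∪ (range (fun (i : WW × I × List ℕ) m =>
    (Ag i.2.1.1 i.2.2 (i.1.1 m))ᶜ) ∪ range fun i : WW × (Σ ζ : I, {u : List (Name K) |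
      ∀ X ∈ u, Item.gen ζ.1 X ∈ s}) × List ℕ × ℕ => UU i.2.1.1.1 i.1.1 i.2.2.1 i.2.1.2.1 i.2.2.2),
    ⟨a3, hI.union (countable_iUnion hJ), hW.union ((countable_range _).union (countable_range _))⟩,
    b1.trans (b2.trans b3), subset_union_left, subset_union_left, fun W h => ⟨fun m => ?_, ?_,
      fun m => (c2 (⟨W, h⟩, m)).imp (fun a t b => a t (b3.trans b)) fun a t b => a t (b3.trans b)⟩,
    fun W h ζ h' τ m => c3 (⟨W, h⟩, ⟨ζ, h'⟩, τ, m),
    fun W h ζ h' τ => Or.inr (Or.inl ⟨(⟨W, h⟩, ⟨ζ, h'⟩, τ), rfl⟩),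
    fun W h ζ h' τ u n hu => Or.inr (Or.inr ⟨(⟨W, h⟩, ⟨⟨ζ, h'⟩, u, hu⟩, τ, n), rfl⟩)⟩
  · exact (hJ' (⟨W, h⟩, some m)).mono (b2.trans b3)
      ((subset_iUnion J _).trans subset_union_right)
  · exact (hJ' (⟨W, h⟩, none)).mono (b2.trans b3) ((subset_iUnion J _).trans subset_union_right)

theorem ex_cl {s : Set (Item K)} (hs : VS pool s) (y : ℕ → RO (Q pool)) : ∃ s' I WW,
    VS pool s' ∧ I.Countable ∧ WW.Countable ∧ s ⊆ s' ∧ y ∈ WW ∧ St s' I WW s' I WW := by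
  obtain ⟨f, h0, hf⟩ := ex_seq (σ := Set (Item K) × Set K × Set (ℕ → RO (Q pool)))
    (P := fun x => VS pool x.1 ∧ x.2.1.Countable ∧ x.2.2.Countable)
    (R := fun x y => x.1 ⊆ y.1 ∧ x.2.1 ⊆ y.2.1 ∧ x.2.2 ⊆ y.2.2 ∧
      St x.1 x.2.1 x.2.2 y.1 y.2.1 y.2.2) (fun x hx => by
      obtain ⟨a, b, c, d⟩ := ex_st hx.1 hx.2.1 hx.2.2
      exact ⟨(a, b, c), d⟩) (x := (s, ∅, {y})) ⟨hs, countable_empty, countable_singleton _⟩
  have m1 : Monotone fun n => (f n).1 := monotone_nat_of_le_succ fun n => (hf n).2.1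
  have m2 : Monotone fun n => (f n).2.1 := monotone_nat_of_le_succ fun n => (hf n).2.2.1
  have m3 : Monotone fun n => (f n).2.2 := monotone_nat_of_le_succ fun n => (hf n).2.2.2.1
  have s1 := subset_iUnion fun n => (f n).1
  have s2 := subset_iUnion fun n => (f n).2.1
  have s3 := subset_iUnion fun n => (f n).2.2
  have key : ∀ W ∈ ⋃ n, (f n).2.2, ∀ ζ ∈ ⋃ n, (f n).2.1, ∀ k, ∃ n, k ≤ n ∧ W ∈ (f n).2.2 ∧
      ζ ∈ (f n).2.1 := fun W a ζ b k => by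
    obtain ⟨i, hi⟩ := mem_iUnion.1 a
    obtain ⟨j, hj⟩ := mem_iUnion.1 b
    exact ⟨i + j + k, by omega, m3 (by omega) hi, m2 (by omega) hj⟩
  refine ⟨⋃ n, (f n).1, ⋃ n, (f n).2.1, ⋃ n, (f n).2.2, vs_iUnion m1 fun n => (hf n).1.1,
    countable_iUnion fun n => (hf n).1.2.1, countable_iUnion fun n => (hf n).1.2.2,
    by simpa [h0] using s1 0, s3 0 (by simp [h0]), fun W h => ?_, fun W h ζ h' τ m => ?_,
    fun W h ζ h' τ => ?_, fun W h ζ h' τ u n hu => ?_⟩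
  · obtain ⟨n, hn⟩ := mem_iUnion.1 h
    exact ((hf n).2.2.2.2.d1 W hn).mono (s1 _) (s2 _)
  · obtain ⟨n, -, a, b⟩ := key W h ζ h' 0
    exact ((hf n).2.2.2.2.d2 W a ζ b τ m).mono (s1 _)
  · obtain ⟨n, -, a, b⟩ := key W h ζ h' 0
    exact s3 _ ((hf n).2.2.2.2.fav W a ζ b τ)
  · obtain ⟨k, hk⟩ := fin_chain m1 ((List.finite_toSet u).image (Item.gen ζ))
      (by rintro _ ⟨X, hX, rfl⟩; exact hu X hX)
    obtain ⟨i, c, a, b⟩ := key W h ζ h' k
    exact s3 _ ((hf i).2.2.2.2.uu W a ζ b τ u n fun X hX => m1 c (hk ⟨X, hX, rfl⟩))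

end Pool.Agent.MP_1d5a21_lc

end

-- part MP_1d5a21_lc.P4b
section

/-!
The promises of the master condition and the splitting family.
-/

set_option autoImplicit false
set_option linter.unusedSectionVars false

namespace Pool.Agent.MP_1d5a21_lc

open Set Pool.Agent.Lib.PosetForcing Code

variable {K : Type} [LinearOrder K] [WellFoundedLT K] {pool : K → Set (Name K)}

/-- The data of a closed triple. -/
structure Dat (pool : K → Set (Name K)) where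
  s : Set (Item K)
  I : Set K
  WW : Set (ℕ → RO (Q pool))
  AA : Set (Set ℕ)
  ag : (ℕ → RO (Q pool)) → K → List ℕ → ℕ → Code K
  en : K → ℕ → List (Name K)
  vs : VS pool s
  cI : I.Countable
  cW : WW.Countable
  cA : AA.Countable
  st : St s I WW s I WW
  hag : ∀ W ∈ WW, ∀ ζ ∈ I, ∀ τ m,
    (ag W ζ τ m).supp ⊆ Iio ζ ∧ Eqv s (val pool (ag W ζ τ m)) (Ag ζ τ (W m))
  en1 : ∀ ζ j, ∀ X ∈ en ζ j, .gen ζ X ∈ s
  en2 : ∀ ζ u, (∀ X ∈ u, .gen ζ X ∈ s) → ∃ j, en ζ j = u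
  hit : ∀ A ∈ AA, ∀ W ∈ WW, (BW s W).Infinite → ∀ n, ∃ m, n ≤ m ∧ m ∈ A ∧ m ∈ BW s W

/-- `t` forces that `W` is infinite and meets `A` only below `n`. -/
def Bad (t : Q pool) (W : ℕ → RO (Q pool)) (A : Set ℕ) (n : ℕ) : Prop :=
  io t ≤ inB W ∧ ∀ m, n ≤ m → m ∈ A → io t ≤ (W m)ᶜ

noncomputable def Gd (ζ : K) (W : ℕ → RO (Q pool)) (n : ℕ) (τ : List ℕ) : RO (Q pool) :=
  ⨅ m, ⨅ _ : n ≤ m, Ag ζ τ (W m)

namespace Dat

variable (d : Dat pool)

noncomputable def big (W : ℕ → RO (Q pool)) (ζ : K) (τ : List ℕ) : Code K :=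
  infC fun j : ℕ => infC fun n : ℕ => infC fun N : ℕ => .sup fun m => gd (N ≤ m)
    (.sup fun k => gd (n ≤ k) (and2 (allL (d.en ζ j) k) (.neg (d.ag W ζ (τ ++ [k]) m))))

noncomputable def bigB (W : ℕ → RO (Q pool)) (ζ : K) (τ : List ℕ) : RO (Q pool) :=
  ⨅ j, ⨅ n, inB (UU ζ W τ (d.en ζ j) n)

noncomputable def prm (W : ℕ → RO (Q pool)) (ζ : K) (A : Set ℕ) (τ : List ℕ) (n : ℕ) : Name K :=
  fun j => or2 (.sup fun m => gd (n ≤ m ∧ m ∈ A) (.neg (d.ag W ζ (τ ++ [j]) m)))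
    (.neg (d.big W ζ τ))

def Pr : Set (Item K) :=
  {i | ∃ W ∈ d.WW, ∃ ζ ∈ d.I, ∃ A ∈ d.AA, ∃ τ n, i = .pro ζ (d.prm W ζ A τ n)}

def QQ (ξ : K) : Prop := ∀ W ∈ d.WW, ∀ A ∈ d.AA, ∀ n (t : Q pool), d.s ⊆ t.1.s →
  resS d.Pr ξ ⊆ t.1.s → t.1.dom ⊆ Iio ξ → ¬ Bad t W A n

variable {d} {W : ℕ → RO (Q pool)} {ζ : K} (hW : W ∈ d.WW) (hζ : ζ ∈ d.I)

theorem loc_big {τ : List ℕ} : Loc ζ (d.bigB W ζ τ) :=
  loc_iInf fun j => loc_iInf fun n => loc_inB (loc_UU d.vs (d.en1 ζ j) n)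

theorem QQ.loc (h : d.QQ ζ) {A : Set ℕ} (hA : A ∈ d.AA) {n : ℕ} {t : Q pool} (hW : W ∈ d.WW)
    (hl : ∀ m, Loc ζ (W m)) (h1 : d.s ⊆ t.1.s) (h2 : resS d.Pr ζ ⊆ t.1.s) : ¬ Bad t W A n :=
  fun hb => h W hW A hA n (t.pres ζ) h1 h2 (fun _ h => (t.pres_dom ζ h).1)
    ⟨loc_inB hl t hb.1, fun m a b => (hl m).compl t (hb.2 m a b)⟩

include hW hζ

theorem prm_supp (A : Set ℕ) (τ : List ℕ) (n j : ℕ) : (d.prm W ζ A τ n j).supp ⊆ Iio ζ :=
  s_or (s_sup fun _ => s_gd _ (s_neg (d.hag W hW ζ hζ _ _).1)) (s_neg (s_infC fun i =>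
    s_infC fun _ => s_infC fun _ => s_sup fun _ => s_gd _ (s_sup fun k => s_gd _ (s_and
      (s_allL (fun X hX => (d.vs.gen ζ X (d.en1 ζ i X hX)).2.1) k)
      (s_neg (d.hag W hW ζ hζ _ _).1)))))

theorem prm_eqv (A : Set ℕ) (τ : List ℕ) (n j : ℕ) : Eqv d.s (val pool (d.prm W ζ A τ n j))
    ((⨆ m, ⨆ _ : n ≤ m ∧ m ∈ A, (Ag ζ (τ ++ [j]) (W m))ᶜ) ⊔ (d.bigB W ζ τ)ᶜ) := by
  simp only [prm, big, val_or, val_sup, val_gd, val_neg, val_infC, val_and]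
  exact (eqv_iSup fun _ => eqv_iSup fun _ => (d.hag W hW ζ hζ _ _).2.compl).sup
    (eqv_iInf fun _ => eqv_iInf fun _ => eqv_iInf fun _ => eqv_iSup fun _ => eqv_iSup fun _ =>
      eqv_iSup fun _ => eqv_iSup fun _ => Eqv.rfl.inf (d.hag W hW ζ hζ _ _).2.compl).compl

theorem Ag_Lg {τ : List ℕ} {m : ℕ} {t : Q pool} (h1 : d.s ⊆ t.1.s) (h : io t ≤ Ag ζ τ (W m)) :
    io t ≤ Lg d.s ζ fun j => Ag ζ (τ ++ [j]) (W m) := io_dense fun q hq => by
  obtain ⟨g, a, r, b, c⟩ := Ag_elim ((io_mono hq).trans h)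
  obtain ⟨r', a1, a2, a3, a4⟩ := ex_glue' c
  obtain ⟨p, b1, b2, g', b3, b4⟩ := (d.st.d2 W hW ζ hζ τ m).1 r'
    ⟨a4.trans (union_subset subset_rfl b.1), a3.trans b.2.1, (io_mono a1).trans b.2.2⟩
    (h1.trans ((a.trans hq).s.trans a2.s))
  obtain ⟨g'', c1, c2⟩ := ex_glue (b3.trans a2)
  exact ⟨g'', c1.trans a, Lg_mono (Lg_Al p ζ τ b1) fun j => inf_le_of fun q' e f =>
    b2.step (e.trans (c2.trans (Q.pres_mono b4 ζ))) f⟩

theorem key {A : Set ℕ} {n n' : ℕ} {t r : Q pool} {τ : List ℕ} (h1 : d.s ⊆ t.1.s)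
    (h2 : .pro ζ (d.prm W ζ A τ n) ∈ t.1.s) (h3 : t.1.dom ⊆ Iic ζ)
    (hb : ∀ m, n ≤ m → m ∈ A → io t ≤ (W m)ᶜ) (hr : r ≤ t) (h4 : t.1.st ζ <+: τ)
    (h5 : τ <+: r.1.st ζ) (h6 : io r ≤ Gd ζ W n' τ) :
    io r ≤ Lg d.s ζ fun j => Gd ζ W n' (τ ++ [j]) := by
  have ha : io r ≤ (d.bigB W ζ τ)ᶜ := io_compl fun q hq h => by
    obtain ⟨r0, a1, a2, a3, a4⟩ := ex_cut (hq.trans hr) h4 (h5.trans (hq.st ζ))
    obtain ⟨g, b1, j, -, b2, b3, b4⟩ := step r0 ζ (Or.inl (a1.s h2)) 0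
    obtain ⟨g', c1, c2⟩ := ex_sup ((prm_eqv hW hζ A τ n j g (h1.trans (b1.trans a1).s)).1 b3)
    rcases c2 with c2 | c2
    · obtain ⟨g'', e1, m, e2, e3⟩ := ex_iSup2 c2
      exact io_absurd ((io_mono (e1.trans c1)).trans (Wit.le ⟨b4.trans (union_subset subset_rfl
        (a4.trans (union_subset subset_rfl h3))), by rw [b2, a3],
        (io_mono (b1.trans a1)).trans (hb m e2.1 e2.2)⟩)) e3
    · exact io_absurd ((io_mono (c1.trans (b1.trans a2))).trans (loc_big q h)) c2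
  refine io_dense fun q hq => ?_
  have hq' := (io_mono hq).trans ha
  rw [bigB, compl_iInf] at hq'
  simp only [compl_iInf] at hq'
  obtain ⟨q1, a1, j, n0, a2⟩ := ex_iSup2 hq'
  obtain ⟨q2, b1, N, b2⟩ := ex_not_inB fun h => io_absurd h a2
  have l1 : io q2 ≤ Lg d.s ζ fun k => Gd ζ W N (τ ++ [k]) :=
    le_Lg (d.en1 ζ j) n0 fun k hk => le_iInf₂ fun m hm => inf_le_of fun q3 c1 c2 => by
      by_contra h
      obtain ⟨q4, e1, e2⟩ := ex_compl h
      exact io_absurd (le_iSup₂_of_le (f := fun k (_ : n0 ≤ k) => val pool (allL (d.en ζ j) k) ⊓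
        (Ag ζ (τ ++ [k]) (W m))ᶜ) k hk (le_inf ((io_mono e1).trans c2) e2))
        ((io_mono (e1.trans c1)).trans (b2 m hm))
  have hq2 := b1.trans (a1.trans hq)
  have l2 := Lg_fin (finite_Ico n' N) fun m hm => Ag_Lg hW hζ (h1.trans (hq2.trans hr).s)
    ((io_mono hq2).trans (h6.trans (iInf₂_le m hm.1)))
  refine ⟨q2, b1.trans a1, Lg_two l1 l2 fun k => le_iInf₂ fun m hm => ?_⟩
  rcases lt_or_ge m N with h | h
  · exact inf_le_right.trans (iInf₂_le m ⟨hm, h⟩)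
  · exact inf_le_left.trans (inf_le_right.trans (iInf₂_le m h))

theorem top_case (hQ : d.QQ ζ) {A : Set ℕ} (hA : A ∈ d.AA) {n : ℕ} {t : Q pool}
    (h1 : d.s ⊆ t.1.s) (h2 : resS d.Pr ζ ⊆ t.1.s)
    (h2' : ∀ τ, .pro ζ (d.prm W ζ A τ n) ∈ t.1.s) (h3 : t.1.dom ⊆ Iic ζ) : ¬ Bad t W A n := by
  intro hb
  obtain ⟨t', a1, n', a2⟩ := ex_not_inB fun h => hQ.loc hA (d.st.fav W hW ζ hζ (t.1.st ζ))
    (fun _ => loc_Ag.compl) h1 h2 ⟨h, fun m a b => by
      rw [compl_compl]; exact Wit.le ⟨h3, rfl, hb.2 m a b⟩⟩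
  let P : List ℕ → Name K := fun τ j =>
    infC fun m : ℕ => .neg (gd (n' ≤ m) (.neg (d.ag W ζ (τ ++ [j]) m)))
  have hP : ∀ τ j, Eqv d.s (val pool (P τ j)) (Gd ζ W n' (τ ++ [j])) := fun τ j => by
    simp only [P, val_infC, val_neg, val_gd, compl_iSup, compl_compl]
    exact eqv_iInf fun _ => eqv_iInf fun _ => (d.hag W hW ζ hζ _ _).2
  have b := t.at_ok ζ a1.s
  let r := patch ζ t' (t.1.st ζ) (insert (ζ, P, d.en ζ) (t.at ζ)) t a1.s
    ⟨b.1.insert _, fun x hx => hx.elim (fun e => e ▸ ⟨rfl, fun _ _ => s_infC fun _ =>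
      s_neg (s_gd _ (s_neg (d.hag W hW ζ hζ _ _).1)),
      fun j X hX => (h1.trans a1.s) (d.en1 ζ j X hX)⟩) (b.2 x)⟩
  have r1 : r ≤ t := patch_le (a1.trans (t.le_pres ζ)) List.prefix_rfl
    (fun _ hx e => ⟨Or.inr ⟨hx, e⟩, fun _ _ c d => (no_new c d).elim⟩) (fun _ _ _ => rfl)
    fun _ hx _ => hx
  have r2 : r.1.st ζ = t.1.st ζ := patch_st
  have r3 : io r ≤ Gd ζ W n' (t.1.st ζ) := (io_mono patch_pres).trans
    ((loc_iInf fun _ => loc_iInf fun _ => loc_Ag) t' (le_iInf₂ fun m hm => by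
      simpa using a2 m hm))
  have all : ∀ ρ : List ℕ, ∀ q ≤ r, t.1.st ζ ++ ρ <+: q.1.st ζ →
      io q ≤ Gd ζ W n' (t.1.st ζ ++ ρ) := fun ρ => by
    induction ρ using List.reverseRecOn with
    | nil => exact fun q hq _ => by simpa using (io_mono hq).trans r3
    | append_singleton ρ j ih =>
      intro q hq h
      rw [← List.append_assoc] at h ⊢
      have hs := h1.trans (hq.trans r1).s
      have h' := (List.prefix_append _ _).trans h
      have c1 := key hW hζ h1 (h2' _) h3 hb.2 (hq.trans r1) (List.prefix_append _ _) h'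
        (ih q hq h')
      have c2 := Q.al hq (x := (ζ, P, d.en ζ)) (Or.inl (Or.inr (mem_insert _ _)))
        (by rw [r2]; exact List.prefix_append _ ρ) h
      have c3 : io q ≤ val pool (large (d.en ζ) (P (t.1.st ζ ++ ρ))) := io_dense fun g hg => by
        obtain ⟨g', e1, u, hu, k, e2⟩ := ex_Lg ((io_mono hg).trans c1)
        obtain ⟨i, rfl⟩ := d.en2 ζ u hu
        rw [val_large]
        exact ⟨g', e1, le_iSup_of_le i (le_iSup_of_le k (le_iInf₂ fun m hm => le_himp_iff.2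
          (inf_le_of fun g'' e3 e4 => (hP _ m g'' (hs.trans (e3.trans (e1.trans hg)).s)).2
            ((le_inf (io_mono e3) e4).trans (e2 m hm)))))⟩
      rw [val_alw] at c2
      refine (hP _ j q hs).1 ((le_inf c2 c3).trans ?_)
      rw [inf_sup_right, compl_inf_eq_bot, sup_bot_eq]
      exact inf_le_left
  obtain ⟨q, c1, m, c2, c3⟩ := ex_of_inB ((io_mono r1).trans hb.1) n'
  obtain ⟨ρ, hρ⟩ := r2 ▸ c1.st ζ
  have := (all ρ q c1 (by rw [hρ])).trans (iInf₂_le m c2)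
  rw [hρ] at this
  exact Ag_absurd this c3

omit hW hζ

theorem all_QQ (ξ : K) : d.QQ ξ := by
  induction ξ using WellFoundedLT.induction with
  | ind ξ ih =>
    intro W hW A hA n t h1 h2 h3 hb
    obtain ⟨a, b, c⟩ := d.st.d1 W hW
    rcases t.1.dom.eq_empty_or_nonempty with h | h
    · by_cases h4 : (BW d.s W).Infinite
      · obtain ⟨m, e1, e2, e3⟩ := d.hit A hA W hW h4 n
        exact e3 t h1 h (hb.2 m e1 e2)
      · obtain ⟨N, hN⟩ := (not_infinite.1 h4).bddAbove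
        obtain ⟨q, e1, m, e2, e3⟩ := ex_of_inB hb.1 (N + 1)
        exact io_absurd e3 ((c m).resolve_right (fun e => by have := hN e; omega) q
          (h1.trans e1.s))
    · obtain ⟨ζ, e1, e2⟩ := exists_max_image _ id t.dom_fin h
      have e3 : resS d.Pr ζ ⊆ t.1.s := fun i hi =>
        h2 ⟨hi.1, Item.bel_mono (Iio_subset_Iio (le_of_lt (h3 e1))) hi.2⟩
      by_cases hζ : ζ ∈ d.I
      · exact top_case hW hζ (ih ζ (h3 e1)) hA h1 e3
          (fun τ => h2 ⟨⟨W, hW, ζ, hζ, A, hA, τ, n, rfl⟩, h3 e1⟩) e2 hb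
      · refine ih ζ (h3 e1) W hW A hA n (t.pres ζ) h1 e3 (fun _ h => (t.pres_dom ζ h).1)
          ⟨?_, fun m x y => (a m).drop hζ h1 e2 (hb.2 m x y)⟩
        simpa using b.drop hζ h1 e2 (by simpa using hb.1)

theorem vs_Pr : VS pool (d.s ∪ d.Pr) := by
  have := d.cI.to_subtype
  have := d.cW.to_subtype
  have := d.cA.to_subtype
  have n1 : ∀ δ a, .col δ a ∈ d.s ∪ d.Pr → .col δ a ∈ d.s := fun _ _ h =>
    h.resolve_right fun ⟨_, _, _, _, _, _, _, _, h⟩ => by cases h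
  have n2 : ∀ ξ X, .gen ξ X ∈ d.s ∪ d.Pr → .gen ξ X ∈ d.s := fun _ _ h =>
    h.resolve_right fun ⟨_, _, _, _, _, _, _, _, h⟩ => by cases h
  refine vs_of (d.vs.cnt.union ((countable_range fun i : d.WW × d.I × d.AA × List ℕ × ℕ =>
    Item.pro i.2.1.1 (d.prm i.1.1 i.2.1.1 i.2.2.1.1 i.2.2.2.1 i.2.2.2.2)).mono
      fun _ ⟨W, a, ζ, b, A, c, τ, n, h⟩ =>
        mem_range.2 ⟨(⟨W, a⟩, ⟨ζ, b⟩, ⟨A, c⟩, τ, n), h.symm⟩))
    (fun δ a a' x y => d.vs.fn δ a a' (n1 _ _ x) (n1 _ _ y))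
    (fun ξ X h => let ⟨a, b, c⟩ := d.vs.gen ξ X (n2 _ _ h); ⟨a, b, Or.inl c⟩) ?_ ?_
  · rintro ξ Z (h | ⟨W, a, ζ, b, A, c, τ, n, h⟩)
    · exact d.vs.pro ξ Z h
    · cases h
      exact prm_supp a b A τ n
  intro ξ h Z u k hZ hu
  have hu' : ∀ X ∈ u, .gen ξ X ∈ d.s := fun X hX => n2 _ _ (hu X hX)
  have lu : ∀ X ∈ u, ∀ m, (X m).supp ⊆ Iio ξ := fun X hX => (d.vs.gen ξ X (hu' X hX)).2.1
  let t0 : Q pool := pq _ (valS_glue (ξ := ξ) h d.vs (resS_mono subset_union_left ξ))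
  have t1 : d.s ⊆ t0.1.s := subset_union_right
  have t2 : resS d.Pr ξ ⊆ t0.1.s := fun i hi => Or.inl ⟨⟨Or.inr hi.1, hi.2⟩, hi.2⟩
  have fin : ∀ c : Code K, c.supp ⊆ Iio ξ → io t0 ≤ val pool c → io (pq _ h) ≤ val pool c :=
    fun c hc h' => (io_mono (Q.le_same (t := pq _ h) (r := t0.res ξ)
      (fun i hi => hi.1.elim (·.1) fun e => ⟨Or.inl e, hi.2⟩)
      (fun _ _ => (ite_self _).symm) fun _ hx => hx.1.elim)).trans (val_res hc h')
  rcases hZ with hZ | ⟨W, a, ζ, b, A, c, τ, n, e⟩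
  · refine fin _ (s_pos (d.vs.pro ξ Z hZ) lu k) ?_
    rw [val_pos]
    exact pos_val t0 k (Or.inl (t1 hZ)) fun X hX => t1 (hu' X hX)
  cases e
  refine fin _ (s_pos (prm_supp a b A τ n) lu k) ?_
  rw [val_pos]
  refine io_dense fun q hq => ?_
  have out : ∀ g ≤ q, ∀ j, k ≤ j → io g ≤ val pool (allL u j) →
      io g ≤ (⨆ m, ⨆ _ : n ≤ m ∧ m ∈ A, (Ag ξ (τ ++ [j]) (W m))ᶜ) ⊔ (d.bigB W ξ τ)ᶜ →
      ∃ r ≤ q, io r ≤ ⨆ m, ⨆ _ : k ≤ m, val pool (d.prm W ξ A τ n m) ⊓ val pool (allL u m) :=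
    fun g x j y z w => ⟨g, x, le_iSup₂_of_le j y
      (le_inf ((prm_eqv a b A τ n j g (t1.trans (x.trans hq).s)).2 w) z)⟩
  by_cases hB : io q ≤ d.bigB W ξ τ
  · obtain ⟨i, rfl⟩ := d.en2 ξ u hu'
    have := (all_QQ ξ).loc c (n := n) (d.st.uu W a ξ b τ _ k hu') (loc_UU d.vs hu' k)
      (t1.trans hq.s) (t2.trans hq.s)
    simp only [Bad, not_and, not_forall] at this
    obtain ⟨m, e1, e2, e3⟩ := this (hB.trans
      (iInf₂_le (f := fun j n => inB (UU ξ W τ (d.en ξ j) n)) i k))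
    obtain ⟨q1, e4, e5⟩ := ex_compl e3
    rw [compl_compl] at e5
    obtain ⟨q2, e6, j, e7, e8⟩ := ex_iSup2 e5
    exact out q2 (e6.trans e4) j e7 (e8.trans inf_le_left) (le_sup_of_le_left
      (le_iSup₂_of_le m ⟨e1, e2⟩ (e8.trans inf_le_right)))
  · obtain ⟨q1, e1, e2⟩ := ex_compl hB
    obtain ⟨q2, e3, j, e4, e5⟩ := ex_iSup2 (pos_val q1 k (Or.inr rfl)
      fun X hX => (t1.trans (e1.trans hq).s) (hu' X hX))
    exact out q2 (e3.trans e1) j e4 (e5.trans inf_le_right)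
      (le_sup_of_le_right ((io_mono e3).trans e2))

end Dat

theorem ex_dat {s : Set (Item K)} (hs : VS pool s) (y : ℕ → RO (Q pool)) :
    ∃ (d : Dat pool) (a : Set ℕ), s ⊆ d.s ∧ y ∈ d.WW ∧ d.AA = {a, aᶜ} := by
  obtain ⟨s', I, WW, h1, h2, h3, h4, h5, h6⟩ := ex_cl hs y
  have : Nonempty (Code K) := ⟨.ff⟩
  choose! ag hag using fun W hW ζ hζ τ m => (h6.d2 W hW ζ hζ τ m).2
  choose en hen using fun ζ => (gens_countable h1.cnt ζ).exists_eq_range ⟨[], by simp⟩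
  obtain ⟨e, he⟩ := h3.exists_eq_range ⟨y, h5⟩
  obtain ⟨a, ha⟩ := ex_split fun k => BW s' (e k)
  refine ⟨⟨s', I, WW, {a, aᶜ}, ag, en, h1, h2, h3, (toFinite _).countable, h6, hag,
    fun ζ j => (hen ζ).superset ⟨j, rfl⟩, fun ζ u hu => (hen ζ).subset hu, fun A hA W hW => ?_⟩,
    a, h4, h5, rfl⟩
  obtain ⟨k, rfl⟩ := he.subset hW
  exact ha A hA k

theorem ex_supS {P : Type} [Preorder P] (S : Set P) :
    ∃ b : RO P, (∀ r ∈ S, io r ≤ b) ∧ ∀ t : P, io t ≤ b → ∃ g ≤ t, ∃ r ∈ S, g ≤ r := by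
  refine ⟨⨆ r : S, io r.1, fun r h => le_iSup (fun r : S => io r.1) ⟨r, h⟩, fun t h => ?_⟩
  obtain ⟨g, e1, r, e2⟩ := ex_iSup h
  obtain ⟨g', e3, e4⟩ := ex_common e2
  exact ⟨g', e3.trans e1, r.1, r.2, e4⟩

theorem ex_col : ∃ a : O → ℕ → RO (Q pool),
    (∀ δ m A (r : Q pool), .col δ A ∈ r.1.s → m ∈ A → io r ≤ a δ m) ∧
      ∀ δ m (t : Q pool), io t ≤ a δ m → ∃ g ≤ t, ∃ A, .col δ A ∈ g.1.s ∧ m ∈ A := by
  choose a h1 h2 using fun (δ : O) (m : ℕ) =>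
    ex_supS {r : Q pool | ∃ A, .col δ A ∈ r.1.s ∧ m ∈ A}
  refine ⟨a, fun δ m A r x y => h1 δ m r ⟨A, x, y⟩, fun δ m t h => ?_⟩
  obtain ⟨g, e1, r, ⟨B, e2, e3⟩, e4⟩ := h2 δ m t h
  exact ⟨g, e1, B, e4.s e2, e3⟩

theorem good_spl (hK : ∀ S : Set K, S.Finite → ∃ ξ, ∀ ζ ∈ S, ζ < ξ) :
    ∃ a : O → ℕ → RO (Q pool), ∀ y : ℕ → RO (Q pool),
      inB y ≤ ⨆ δ, inB (fun m => y m ⊓ a δ m) ⊓ inB (fun m => y m ⊓ (a δ m)ᶜ) := by
  obtain ⟨a, ha, ha'⟩ := ex_col (pool := pool)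
  refine ⟨a, fun y => le_of_io fun q hq => ?_⟩
  obtain ⟨d, A, h1, h2, h3⟩ := ex_dat q.2.s y
  have h4 := d.vs_Pr
  obtain ⟨δ, hδ⟩ := O_bdd (S := {δ | ∃ B, .col δ B ∈ d.s ∪ d.Pr})
    (((h4.cnt.preimage (f := fun x : O × Set ℕ => Item.col x.1 x.2) fun _ _ h => by
      injection h with a b
      exact Prod.ext a b).image Prod.fst).mono fun δ ⟨B, hB⟩ => mem_image_of_mem (x := (δ, B)) _ hB)
  have h5 : VS pool (insert (.col δ A) (d.s ∪ d.Pr)) := by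
    refine vs_loc (h4.cnt.insert _) (fun ε B B' x y => ?_)
      (fun ξ X h => ⟨_, subset_insert _ _, h4, h.resolve_left (by simp)⟩) fun ξ Z u x y =>
        ⟨_, subset_insert _ _, h4, x.resolve_left (by simp),
          fun X hX => (y X hX).resolve_left (by simp)⟩
    rcases x with x | x <;> rcases y with y | y
    · cases x; cases y; rfl
    · cases x; exact ((hδ _ ⟨_, y⟩).ne rfl).elim
    · cases y; exact ((hδ _ ⟨_, x⟩).ne rfl).elim
    · exact h4.fn ε B B' x y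
  have h6 := h1.trans (subset_union_left.trans (subset_insert (.col δ A) (d.s ∪ d.Pr)))
  have main : ∀ B ∈ d.AA, ∀ b : ℕ → RO (Q pool), (∀ m ∈ B, io (q.up _ h5 h6) ≤ b m) →
      io (q.up _ h5 h6) ≤ inB fun m => y m ⊓ b m := fun B hB b hb => le_inB fun n t ht => by
    obtain ⟨ξ, hξ⟩ := hK _ t.dom_fin
    have h7 := (subset_insert _ _).trans ht.s
    have := Dat.all_QQ ξ y h2 B hB n t (subset_union_left.trans h7)
      ((sep_subset _ _).trans (subset_union_right.trans h7)) hξ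
    simp only [Bad, not_and, not_forall] at this
    obtain ⟨m, e1, e2, e3⟩ := this ((io_mono (ht.trans (q.up_le h5 h6))).trans hq)
    obtain ⟨r, e4, e5⟩ := ex_compl e3
    rw [compl_compl] at e5
    exact ⟨r, e4, m, e1, le_inf e5 ((io_mono (e4.trans ht)).trans (hb m e2))⟩
  refine ⟨_, q.up_le h5 h6, le_iSup_of_le δ (le_inf
    (main A (by simp [h3]) (a δ) fun m hm => ha δ m A _ (mem_insert _ _) hm)
    (main Aᶜ (by simp [h3]) (fun m => (a δ m)ᶜ) fun m hm => io_compl fun t ht h => ?_))⟩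
  obtain ⟨g, e1, B, e5, e6⟩ := ha' δ m t h
  exact hm (g.2.s.fn δ A B ((e1.trans ht).s (mem_insert _ _)) e5 ▸ e6)

end Pool.Agent.MP_1d5a21_lc

end

-- part MP_1d5a21_lc.P3
section

/-!
Bookkeeping and the chain condition.
-/

set_option autoImplicit false
set_option linter.unusedSectionVars false

namespace Pool.Agent.MP_1d5a21_lc

open Set Pool.Agent.Lib.PosetForcing Code Cardinal

/-- The index set is long and every small set of names is a pool cofinally often. -/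
structure Bk {K : Type} [LinearOrder K] (pool : K → Set (Name K)) (μ : Cardinal.{0}) : Prop where
  le : 𝔠 ≤ μ
  small : ∀ ξ, #(pool ξ) ≤ 𝔠
  bdd : ∀ S : Set K, #S ≤ μ → ∃ ξ, ∀ ζ ∈ S, ζ < ξ
  cof : ∀ N : Set (Name K), #N ≤ 𝔠 → ∀ η, ∃ ξ, η < ξ ∧ N ⊆ pool ξ

theorem ex_cover {I L : Type} [Nonempty I] {S : Set I} (h : #S ≤ #L) :
    ∃ f : L → I, S ⊆ range f := by
  classical
  obtain ⟨e⟩ := h
  exact ⟨Function.extend e Subtype.val fun _ => Classical.arbitrary I, fun x hx =>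
    ⟨e ⟨x, hx⟩, e.injective.extend_apply _ _ _⟩⟩

/-- Closing off under operations with countably many arguments. -/
theorem ex_closed {I : Type} [Nonempty I] {κ : Cardinal.{0}} (h0 : ℵ₀ ≤ κ) (h1 : κ ^ ℵ₀ ≤ κ)
    (Φ : (ℕ → I) → Set I) (hΦ : ∀ c, #(Φ c) ≤ κ) {A₀ : Set I} (hA : #A₀ ≤ κ) :
    ∃ A, A₀ ⊆ A ∧ #A ≤ κ ∧ ∀ c, (∀ n, c n ∈ A) → Φ c ⊆ A := by
  induction κ using Cardinal.inductionOn with | _ L
  obtain ⟨f₀, hf₀⟩ := ex_cover hA
  choose f hf using fun c => ex_cover (hΦ c)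
  let ev : WType (fun a : L × Bool => {_n : ℕ // a.2 = true}) → I := WType.elim I fun x =>
    if h : x.1.2 = true then f (fun n => x.2 ⟨n, h⟩) x.1.1 else f₀ x.1.1
  refine ⟨range ev, fun a ha => ?_, mk_range_le.trans (WType.cardinalMk_le_of_le
    ((sum_le_mk_mul_iSup _).trans (mul_le_of_le h0 ?_ (ciSup_le' fun a => ?_)))), fun c hc a ha => ?_⟩
  · obtain ⟨l, rfl⟩ := hf₀ ha
    exact ⟨.mk (l, false) fun x => absurd x.2 (by simp), by simp [ev, WType.elim]⟩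
  · rw [mk_prod, lift_id, lift_id]
    exact mul_le_of_le h0 le_rfl (mk_le_aleph0.trans h0)
  · exact (power_le_power_left (aleph0_pos.trans_le h0).ne' mk_le_aleph0).trans h1
  · obtain ⟨l, rfl⟩ := hf c ha
    choose w hw using hc
    exact ⟨.mk (l, true) fun x => w x.1, by simp [ev, WType.elim, ← funext hw]⟩

theorem mk_code {K : Type} {κ : Cardinal.{0}} (h0 : ℵ₀ ≤ κ) (h1 : κ ^ ℵ₀ ≤ κ) (h : #K ≤ κ) :
    #(Code K) ≤ κ := by
  have : Nonempty (Code K) := ⟨.ff⟩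
  obtain ⟨A, a, b, c⟩ := ex_closed h0 h1 (fun c => {.neg (c 0), .sup c})
    (fun c => (toFinite _).countable.le_aleph0.trans h0)
    (A₀ := insert .ff (range fun x : K × ℕ × ℕ => Code.bas x.1 x.2.1 x.2.2))
    (mk_insert_le.trans (add_le_of_le h0 (mk_range_le.trans (by
      rw [mk_prod, lift_id, lift_id]
      exact mul_le_of_le h0 h (mk_le_aleph0.trans h0))) (one_le_aleph0.trans h0)))
  rw [← mk_univ]
  refine (mk_le_mk_of_subset fun x hx => ?_).trans b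
  clear hx
  induction x with
  | ff => exact a (Or.inl rfl)
  | bas ξ n m => exact a (Or.inr ⟨(ξ, n, m), rfl⟩)
  | neg x ih => exact c (fun _ => x) (fun _ => ih) (Or.inl rfl)
  | sup g ih => exact c g ih (Or.inr rfl)

/-- Few objects with countable supports are compatible with all objects. -/
theorem ex_delta {X I U : Type} [Nonempty I] (sp : X → Set I) (hsp : ∀ x, (sp x).Countable)
    (d : X → I → U) (hd : ∀ i, #(range fun x => d x i) ≤ 𝔠) :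
    ∃ PP : Set X, #PP ≤ 𝔠 ∧ ∀ x, ∃ p ∈ PP, ∀ i ∈ sp p, i ∈ sp x → d p i = d x i := by
  have e : ∀ c : ℕ → I, ∃ R : Set X, #R ≤ 𝔠 ∧ ∀ x, ∃ p ∈ R, ∀ n, d p (c n) = d x (c n) := by
    intro c
    let ty : X → ∀ n, range fun x => d x (c n) := fun x n => ⟨_, x, rfl⟩
    refine ⟨range (rangeSplitting ty), mk_range_le.trans ((mk_set_le _).trans ?_), fun x =>
      ⟨_, ⟨⟨_, x, rfl⟩, rfl⟩, fun n => congrArg (·.1) (congrFun (apply_rangeSplitting ty _) n)⟩⟩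
    rw [mk_pi]
    exact (prod_le_prod _ _ fun n => hd (c n)).trans (by simp)
  choose R h1 h2 using e
  obtain ⟨i₀⟩ := ‹Nonempty I›
  obtain ⟨A, a, b, c⟩ := ex_closed aleph0_le_continuum continuum_power_aleph0.le
    (fun c => ⋃ p ∈ R c, sp p) (fun c => (mk_biUnion_le _ _).trans (mul_le_of_le
      aleph0_le_continuum (h1 c) (ciSup_le' fun p => (hsp _).le_aleph0.trans aleph0_le_continuum)))
    (A₀ := {i₀}) ((toFinite _).countable.le_aleph0.trans aleph0_le_continuum)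
  refine ⟨⋃ g : ℕ → A, R fun n => g n, (mk_iUnion_le _).trans (mul_le_of_le aleph0_le_continuum ?_
    (ciSup_le' fun g => h1 _)), fun x => ?_⟩
  · rw [← power_def, mk_nat]
    exact (power_le_power_right b).trans continuum_power_aleph0.le
  · obtain ⟨g, hg⟩ := (((hsp x).mono (inter_subset_left (t := A))).insert i₀).exists_eq_range
      (insert_nonempty _ _)
    have hA : ∀ n, g n ∈ A := fun n => (hg.ge ⟨n, rfl⟩).elim (· ▸ a rfl) (·.2)
    obtain ⟨p, h3, h4⟩ := h2 g x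
    refine ⟨p, mem_iUnion.2 ⟨fun n => ⟨g n, hA n⟩, h3⟩, fun i h5 h6 => ?_⟩
    obtain ⟨n, rfl⟩ := hg.le (Or.inr ⟨h6, c g hA (mem_biUnion h3 h5)⟩)
    exact h4 n

theorem ex_bk (μ : Cardinal.{0}) : ∃ (K : Type) (_ : LinearOrder K) (_ : WellFoundedLT K)
    (pool : K → Set (Name K)), Bk pool (max μ 𝔠) := by
  have h0 : ℵ₀ ≤ max μ 𝔠 := aleph0_le_continuum.trans (le_max_right _ _)
  have h1 : 𝔠 ≤ max μ 𝔠 := le_max_right _ _
  generalize max μ 𝔠 = ν at h0 h1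
  have h2 : ℵ₀ ≤ 2 ^ ν := h0.trans (cantor ν).le
  have h3 : ∀ c ≤ ν, ((2 : Cardinal) ^ ν) ^ c ≤ 2 ^ ν := fun c hc => by
    rw [← power_mul]
    exact power_le_power_left two_ne_zero (mul_le_of_le h0 le_rfl hc)
  let K := ((2 : Cardinal) ^ ν).ord.ToType
  have hK : #K = 2 ^ ν := mk_ord_toType _
  have bdd : ∀ S : Set K, #S ≤ ν → ∃ ξ, ∀ ζ ∈ S, ζ < ξ := fun S hS => not_isCofinal_iff.1 fun h =>
    (lt_cof_ord_power h0 one_lt_two).not_ge
      (((Ordinal.cof_toType _).ge.trans (Order.cof_le h)).trans hS)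
  have h4 : #(Name K) ≤ 2 ^ ν := by
    rw [← power_def, mk_nat]
    exact (power_le_power_right (mk_code h2 (h3 _ h0) hK.le)).trans (h3 _ h0)
  obtain ⟨ξ₀, -⟩ := bdd ∅ (by simp)
  have : Nonempty ({N : Set (Name K) // #N ≤ 𝔠} × K) := ⟨⟨∅, by simp⟩, ξ₀⟩
  obtain ⟨e, he⟩ := ex_cover (S := (univ : Set ({N : Set (Name K) // #N ≤ 𝔠} × K))) (L := K) (by
    rw [mk_univ, mk_prod, lift_id, lift_id, hK]
    exact mul_le_of_le h2 ((mk_bounded_set_le _ _).trans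
      ((power_le_power_right (max_le h4 h2)).trans (h3 _ h1))) le_rfl)
  refine ⟨K, inferInstance, inferInstance, fun ξ => (e ξ).1.1, h1, fun ξ => (e ξ).1.2, bdd,
    fun N hN η => ?_⟩
  obtain ⟨η', h5⟩ := bdd {η} ((toFinite _).countable.le_aleph0.trans h0)
  choose g hg using fun ζ : K => he (mem_univ (⟨N, hN⟩, ζ))
  by_contra hc
  refine (mk_Iio_lt η' (by simp only [K, mk_toType, card_ord, Ordinal.type_toType])).not_ge (mk_le_of_injective
    (f := fun ζ => (⟨g ζ, lt_of_not_ge fun h => hc ⟨g ζ, (h5 η rfl).trans_le h, ?_⟩⟩ : Iio η'))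
    fun a b h => ?_)
  · rw [hg]
  · have := hg a
    rw [show g a = g b from congrArg (·.1) h, hg] at this
    exact (congrArg (·.2) this).symm

variable {K : Type} [LinearOrder K] [WellFoundedLT K] {pool : K → Set (Name K)}

theorem cc_cond (h : ∀ ξ, #(pool ξ) ≤ 𝔠) (D : Q pool → Prop) :
    ∃ PP : Set (Q pool), #PP ≤ 𝔠 ∧ (∀ p ∈ PP, D p) ∧ ∀ t, D t → ∃ p ∈ PP,
      VS pool (p.1.s ∪ t.1.s) ∧ ∀ ξ ∈ p.1.dom, ξ ∈ t.1.dom → p.1.st ξ = t.1.st ξ := by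
  let W : O ⊕ K → Set (Item K) := Sum.elim (fun δ => range (.col δ)) fun ξ => .gen ξ '' pool ξ
  have hW : ∀ i, #(W i) ≤ 𝔠 := by
    rintro (δ | ξ)
    · exact mk_range_le.trans (by simp)
    · exact mk_image_le.trans (h ξ)
  let co : Item K → O ⊕ K := fun | .col δ _ => .inl δ | .gen ξ _ => .inr ξ | .pro ξ _ => .inr ξ
  obtain ⟨δ₀, -⟩ := O_bdd countable_empty
  have : Nonempty (O ⊕ K) := ⟨.inl δ₀⟩
  obtain ⟨PP, h1, h2⟩ := ex_delta (X := {t // D t}) (fun t => co '' t.1.1.s ∪ .inr '' t.1.1.dom)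
    (fun t => (t.1.2.s.cnt.image _).union (t.1.dom_fin.countable.image _))
    (fun t i => (t.1.1.s ∩ W i, i.elim (fun _ => []) t.1.1.st)) fun i => by
      refine (mk_le_mk_of_subset (t := {s | s ⊆ W i ∧ #s ≤ ℵ₀} ×ˢ Set.univ) ?_).trans ?_
      · rintro _ ⟨t, rfl⟩
        exact ⟨⟨inter_subset_right, (t.1.2.s.cnt.mono inter_subset_left).le_aleph0⟩, trivial⟩
      · rw [mk_setProd]
        exact mul_le_of_le aleph0_le_continuum ((mk_bounded_subset_le _ _).trans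
          ((power_le_power_right (max_le (hW i) aleph0_le_continuum)).trans
            continuum_power_aleph0.le)) (mk_le_aleph0.trans aleph0_le_continuum)
  refine ⟨Subtype.val '' PP, mk_image_le.trans h1, ?_, fun t ht => ?_⟩
  · rintro _ ⟨p, -, rfl⟩
    exact p.2
  obtain ⟨p, h3, h4⟩ := h2 ⟨t, ht⟩
  have key : ∀ a b : Q pool, (∀ x ∈ a.1.s, ∀ y ∈ b.1.s, co x = co y → y ∈ W (co y) → y ∈ a.1.s) →
      (∀ δ x y, .col δ x ∈ a.1.s → .col δ y ∈ b.1.s → x = y) ∧ ∀ ξ Z, .pro ξ Z ∈ a.1.s →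
        ∀ X, .gen ξ X ∈ b.1.s → .gen ξ X ∈ a.1.s := fun a b H =>
    ⟨fun δ x y c d => a.2.s.fn δ x y c (H _ c _ d rfl ⟨y, rfl⟩),
      fun ξ Z c X d => H _ c _ d rfl ⟨X, (b.2.s.gen ξ X d).1, rfl⟩⟩
  have e : ∀ x ∈ p.1.1.s, ∀ y ∈ t.1.s, co x = co y → p.1.1.s ∩ W (co y) = t.1.s ∩ W (co y) :=
    fun x c y d f => congrArg (·.1) (h4 _ (Or.inl ⟨x, c, f⟩) (Or.inl ⟨y, d, rfl⟩))
  obtain ⟨k1, k2⟩ := key p.1 t fun x c y d f g => ((e x c y d f).ge ⟨d, g⟩).1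
  obtain ⟨k3, k4⟩ := key t p.1 fun x c y d f g => ((e y d x c f.symm).le ⟨d, f ▸ g⟩).1
  refine ⟨p.1, ⟨p, h3, rfl⟩, vs_loc (p.1.2.s.cnt.union t.2.s.cnt) ?_ ?_ ?_, fun ξ c d =>
    congrArg (·.2) (h4 _ (Or.inr ⟨ξ, c, rfl⟩) (Or.inr ⟨ξ, d, rfl⟩))⟩
  · rintro δ x y (c | c) (d | d)
    exacts [p.1.2.s.fn δ x y c d, k1 δ x y c d, k3 δ x y c d, t.2.s.fn δ x y c d]
  · rintro ξ X (c | c)
    exacts [⟨_, subset_union_left, p.1.2.s, c⟩, ⟨_, subset_union_right, t.2.s, c⟩]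
  · rintro ξ Z u (c | c) d
    exacts [⟨_, subset_union_left, p.1.2.s, c, fun X hX => (d X hX).elim id (k2 ξ Z c X)⟩,
      ⟨_, subset_union_right, t.2.s, c, fun X hX => (d X hX).elim (k4 ξ Z c X) id⟩]

theorem good_cc (h : ∀ ξ, #(pool ξ) ≤ 𝔠) (ι : Type) (b : ι → RO (Q pool))
    (hb : ∀ i j, i ≠ j → b i ⊓ b j = ⊥) : #{i | b i ≠ ⊥} ≤ 𝔠 := by
  obtain ⟨PP, h1, h2, h3⟩ := cc_cond h fun p => ∃ i, io p ≤ b i
  choose f hf using fun p : PP => h2 p.1 p.2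
  refine (mk_le_mk_of_subset (t := range f) fun i hi => ?_).trans (mk_range_le.trans h1)
  obtain ⟨t, ht⟩ := exists_io_le hi
  obtain ⟨p, hp, h4, h5⟩ := h3 t ⟨i, ht⟩
  obtain ⟨g, h6, h7⟩ := ex_join h4 subset_union_left subset_union_right h5
  refine ⟨⟨p, hp⟩, by_contra fun e => io_not_bot (p := g) ?_⟩
  rw [← hb _ _ e]
  exact le_inf ((io_mono h7).trans (hf ⟨p, hp⟩)) ((io_mono h6).trans ht)

end Pool.Agent.MP_1d5a21_lc

end

-- part MP_1d5a21_lc.P5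
section

/-!
The polarized relation, dominating functions and infinitely often equal functions.
-/

set_option autoImplicit false
set_option linter.unusedSectionVars false

namespace Pool.Agent.MP_1d5a21_lc

open Set Pool.Agent.Lib.PosetForcing Code Cardinal

variable {K : Type} [LinearOrder K] [WellFoundedLT K] {pool : K → Set (Name K)} {μ : Cardinal.{0}}

theorem top_of_io {b : RO (Q pool)} (h : ∀ q, io q ≤ b) : b = ⊤ :=
  top_unique (le_of_io fun q _ => ⟨q, le_rfl, h q⟩)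

theorem bot_of_io {b : RO (Q pool)} (h : ∀ q, ¬ io q ≤ b) : b = ⊥ :=
  le_bot_iff.1 (le_of_io fun q hq => (h q hq).elim)

theorem le_of_sup_compl {b c d : RO (Q pool)} (h : b ≤ c ⊔ dᶜ) (h' : b ≤ d) : b ≤ c := by
  refine (le_inf h h').trans ?_
  rw [inf_sup_right, compl_inf_eq_bot, sup_bot_eq]
  exact inf_le_left

/-- The coordinate of an item. -/
def Item.co : Item K → Set K
  | .col _ _ => ∅
  | .gen ξ _ => {ξ}
  | .pro ξ _ => {ξ}

/-- Few Boolean-valued objects are named, densely, by few names of bounded level. -/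
theorem ex_level (h : Bk pool μ) {J ι : Type} [Countable ι] (hJ : #J ≤ μ)
    (y : J → ι → RO (Q pool)) : ∃ η, ∃ N : Set (ι → Code K), #N ≤ #J * 𝔠 ∧
      (∀ Y ∈ N, ∀ i, (Y i).supp ⊆ Iio η) ∧ ∀ j s, VS pool s → ∃ s', VS pool s' ∧ s ⊆ s' ∧
        ∃ Y ∈ N, ∀ i, Cod (resS s' η) (Y i) (y j i) := by
  choose PP h1 h2 h3 using fun j =>
    cc_cond h.small fun p => ∃ Y : ι → Code K, ∀ i, Cod p.1.s (Y i) (y j i)
  choose Y hY using fun z : Σ j, PP j => h2 z.1 z.2.1 z.2.2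
  have h4 : #(Σ j, PP j) ≤ #J * 𝔠 := by
    rw [mk_sigma, ← sum_const']
    exact sum_le_sum _ _ h1
  have h0 : ℵ₀ ≤ μ := aleph0_le_continuum.trans h.le
  obtain ⟨η, hη⟩ := h.bdd
    (⋃ z : Σ j, PP j, (⋃ i ∈ z.2.1.1.s, Item.co i) ∪ ⋃ i, (Y z i).supp)
    ((mk_iUnion_le _).trans (mul_le_of_le h0 (h4.trans (mul_le_of_le h0 hJ h.le))
      (ciSup_le' fun z => (le_aleph0_iff_set_countable.2 ((z.2.1.2.s.cnt.biUnion fun i _ => by
        cases i <;> simp [Item.co]).union (countable_iUnion fun i => supp_countable _))).trans h0)))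
  refine ⟨η, range Y, mk_range_le.trans h4, ?_, fun j s hs => ?_⟩
  · rintro _ ⟨z, rfl⟩ i ζ hζ
    exact hη ζ (mem_iUnion.2 ⟨z, Or.inr (mem_iUnion.2 ⟨i, hζ⟩)⟩)
  · obtain ⟨s', a, b, c⟩ := ex_name (y j) hs
    obtain ⟨p, hp, d, -⟩ := h3 j (pq s' a) c
    refine ⟨_, d, b.trans subset_union_right, _, ⟨⟨j, p, hp⟩, rfl⟩, fun i =>
      (hY ⟨j, p, hp⟩ i).mono fun k hk => ⟨Or.inl hk, ?_⟩⟩
    have : ∀ ζ ∈ k.co, ζ < η := fun ζ hζ =>
      hη ζ (mem_iUnion.2 ⟨⟨j, p, hp⟩, Or.inl (mem_biUnion hk hζ)⟩)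
    cases k with
    | col => trivial
    | gen => exact this _ rfl
    | pro => exact this _ rfl

theorem isFn_bas (ξ : ℕ → K) (k : ℕ → ℕ) : IsFn fun n m => val pool (.bas (ξ n) (k n) m) := by
  refine ⟨fun n => top_of_io fun r => io_dense fun q _ => ?_, fun n m m' hm =>
    bot_of_io fun q hq => ?_⟩
  · obtain ⟨g, h1, h2⟩ := long q (ξ n) (k n + 1)
    exact ⟨g, h1, le_iSup_of_le _ (le_bas (List.getElem?_eq_getElem h2))⟩
  · obtain ⟨g, h1, h2⟩ := long q (ξ n) (k n + 1)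
    have h3 := (io_mono h1).trans hq
    exact hm (Option.some.inj ((bas_elim (h3.trans inf_le_left) h2).symm.trans
      (bas_elim (h3.trans inf_le_right) h2)))

/-- One more tree. -/
def Q.add (r : Q pool) (x : K × Tree K) (hx : TreeOk r.1.s x) : Q pool :=
  ⟨⟨r.1.s, r.1.st, insert x r.1.T⟩, r.2.s, r.2.fin, r.2.finT.insert x,
    fun y hy => hy.elim (fun e => e ▸ hx) (r.2.tr y)⟩

theorem Q.add_le (r : Q pool) {x : K × Tree K} (hx : TreeOk r.1.s x) : r.add x hx ≤ r :=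
  Q.le_same subset_rfl (fun _ _ => rfl) (subset_insert _ _)

theorem ex_alw {r q : Q pool} {x : K × Tree K} {hx : TreeOk r.1.s x} (h : q ≤ r.add x hx)
    {n m : ℕ} (hn : (r.1.st x.1).length ≤ n) (hm : io q ≤ val pool (.bas x.1 n m)) :
    ∃ g ≤ q, ∃ τ : List ℕ, τ.length = n ∧ io g ≤ val pool (alw x.2 τ m) := by
  obtain ⟨g, h1, h2⟩ := long q x.1 (n + 1)
  have h3 := bas_elim ((io_mono h1).trans hm) h2
  have h4 : ((g.1.st x.1).take n).length = n := by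
    rw [List.length_take]; omega
  refine ⟨g, h1, _, h4, Q.al (h1.trans h) (mem_insert _ _) (List.prefix_of_prefix_length_le
    ((h1.trans h).st x.1) (List.take_prefix _ _) (h4.symm ▸ hn)) ?_⟩
  have := List.take_prefix (n + 1) (g.1.st x.1)
  rwa [List.take_add_one, h3] at this

theorem good_dom (h : Bk pool μ) (ι : Type) (f : ι → ℕ → ℕ → RO (Q pool)) (hι : #ι ≤ μ)
    (hf : ∀ i, IsFn (f i)) : ∃ d, IsFn d ∧
      ∀ i, inB (fun n => ⨆ m, ⨆ m', ⨆ _ : m' ≤ m, f i n m ⊓ d n m') = ⊥ := by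
  obtain ⟨η, N, -, h1, h2⟩ := ex_level h hι fun i (z : ℕ × ℕ) => f i z.1 z.2
  refine ⟨_, isFn_bas (fun _ => η) id, fun i => bot_of_io fun r hr => ?_⟩
  obtain ⟨s, a, b, Y, hY, c⟩ := h2 i _ r.2.s
  let x : K × Tree K :=
    (η, fun τ k => .sup fun m => and2 (cst (m < k)) (Y (τ.length, m)), fun _ => [])
  have hx : TreeOk (r.up s a b).1.s x :=
    ⟨fun τ k => s_sup fun m => s_and (s_cst _) (h1 Y hY _), fun _ _ h => by simp [x] at h⟩
  obtain ⟨q, h3, n, h4, h5⟩ := ex_of_inB ((io_mono ((Q.add_le _ hx).trans (r.up_le a b))).trans hr)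
    (r.1.st η).length
  obtain ⟨q1, h6, m, h7⟩ := ex_iSup h5
  obtain ⟨q2, h8, m', hm, h9⟩ := ex_iSup2 h7
  have h10 := h8.trans (h6.trans h3)
  obtain ⟨g, h11, τ, rfl, h12⟩ := ex_alw h10 h4 (h9.trans inf_le_right)
  have hs : ∀ t ≤ g, resS s η ⊆ t.1.s := fun t ht =>
    (sep_subset _ _).trans (ht.trans (h11.trans h10)).s
  have h13 := (io_mono h11).trans (h9.trans inf_le_left)
  rw [val_alw] at h12
  have h14 := le_of_sup_compl h12 (by
    rw [val_large]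
    refine le_iSup_of_le 0 (le_iSup_of_le (m + 1) (le_iInf₂ fun k hk => le_himp_iff.2 ?_))
    refine inf_le_left.trans (le_iSup_of_le m ?_)
    rw [val_and, val_cst]
    exact le_inf (le_iSup_of_le hk le_top) ((c (τ.length, m) g (hs g le_rfl)).2 h13))
  obtain ⟨g', h15, k, h16⟩ := ex_iSup h14
  rw [val_and, val_cst] at h16
  obtain ⟨-, -, hk, -⟩ := ex_iSup (h16.trans inf_le_left)
  exact io_not_bot ((le_inf ((c (τ.length, k) g' (hs g' h15)).1 (h16.trans inf_le_right))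
    ((io_mono h15).trans h13)).trans ((hf i).2 _ _ _ (hk.trans_le hm).ne).le)

theorem good_ioe (h : Bk pool μ) (ι : Type) (f : ι → ℕ → ℕ → RO (Q pool)) (hι : #ι ≤ μ)
    (hf : ∀ i, IsFn (f i)) : ∃ c, IsFn c ∧ ∀ i, inB (fun n => ⨆ m, f i n m ⊓ c n m) = ⊤ := by
  obtain ⟨η, N, -, h1, h2⟩ := ex_level h hι fun i (z : ℕ × ℕ) => f i z.1 z.2
  obtain ⟨ξ, h0, hξ⟩ := ex_seq (P := fun _ : K => True) (R := (· < ·)) (fun a _ => by
    obtain ⟨b, hb, -⟩ := h.cof ∅ (by simp) a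
    exact ⟨b, trivial, hb⟩) (x := η) trivial
  have hm : StrictMono ξ := strictMono_nat_of_lt_succ fun n => (hξ n).2
  refine ⟨_, isFn_bas ξ fun _ => 0, fun i => top_of_io fun r => le_inB fun k q _ => ?_⟩
  obtain ⟨s, a, b, Y, hY, c⟩ := h2 i _ q.2.s
  obtain ⟨n, hn, hk⟩ := (q.dom_fin.preimage hm.injective.injOn).infinite_compl.exists_gt k
  obtain ⟨q1, h3, m, h4⟩ := ex_iSup (p := q.up s a b) (le_top.trans ((hf i).1 n).ge)
  obtain ⟨g, h5, h6, h7, -⟩ := ex_ext (h3.trans (Q.le_pres _ (ξ n))) (m := m)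
    (le_iInf₂ fun x hx => (hn (Or.inr ⟨x, hx.1, hx.2⟩)).elim)
  refine ⟨g, h5.trans (q.up_le a b), n, hk.le, le_iSup_of_le m (le_inf ?_ (le_bas ?_))⟩
  · refine (c (n, m) g ((sep_subset _ _).trans h5.s)).1 ((io_mono h6).trans (loc_val
      ((h1 Y hY _).trans (Iio_subset_Iio (h0 ▸ hm.monotone n.zero_le))) q1 ?_))
    exact (c (n, m) q1 ((sep_subset _ _).trans h3.s)).2 h4
  · rw [h7, show (q.up s a b).1.st (ξ n) = [] from st_nil (r := q.1) hn]
    rfl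

theorem ex_not_unb {q : Q pool} {g : O → RO (Q pool)}
    (h : io q ≤ (⨅ β, ⨆ α, ⨆ _ : β ≤ α, g α)ᶜ) : ∃ r ≤ q, ∃ β, ∀ α, β ≤ α → io r ≤ (g α)ᶜ := by
  rw [compl_iInf] at h
  obtain ⟨r, h1, β, h2⟩ := ex_iSup h
  exact ⟨r, h1, β, fun α hα => h2.trans (compl_le_compl
    (le_iSup₂_of_le (f := fun α (_ : β ≤ α) => g α) α hα le_rfl))⟩

theorem le_allL {b : RO (Q pool)} {u : List (Name K)} {m : ℕ} :
    b ≤ val pool (allL u m) ↔ ∀ X ∈ u, b ≤ val pool (X m) := by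
  induction u with
  | nil => simp [val_nil]
  | cons X u ih => rw [val_cons, le_inf_iff, ih, List.forall_mem_cons]

theorem ex_list {α : Type} (G : Set α) (u : List α) :
    ∃ l : List G, ∀ X ∈ u, X ∈ G → X ∈ l.map Subtype.val := by
  induction u with
  | nil => exact ⟨[], by simp⟩
  | cons Y u ih =>
    obtain ⟨l, hl⟩ := ih
    by_cases h : Y ∈ G
    · exact ⟨⟨Y, h⟩ :: l, fun X hX h' => (List.mem_cons.1 hX).elim (fun e => by simp only [List.map_cons, List.map_subtype, List.map_id_fun', id_eq, e, List.mem_cons, List.mem_unattach, true_or])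
        fun e => List.mem_cons_of_mem _ (hl X e h')⟩
    · exact ⟨l, fun X hX h' => hl X ((List.mem_cons.1 hX).resolve_left fun e => h (e ▸ h')) h'⟩

/-- A new generator at `ξ`. -/
theorem vs_gen {ξ : K} {t t' : Set (Item K)} (ht : VS pool t) (ht' : VS pool t') (h : t ⊆ t')
    {X : Name K} (hX : X ∈ pool ξ) (hs : ∀ m, (X m).supp ⊆ Iio ξ)
    (hp : ∀ Z (u : List (Name K)) n, (.pro ξ Z ∈ t ∨ Z = fun _ => tt) →
      (∀ Y ∈ u, .gen ξ Y ∈ t ∨ Y = X) → io (pq t' ht') ≤ val pool (pos Z u n)) :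
    VS pool (resS t' ξ ∪ t ∪ {.gen ξ X, .pro ξ fun _ => tt}) := by
  have h0 := valS_glue ht' ht ((sep_subset _ _).trans h : resS t ξ ⊆ t')
  have hg : ∀ ζ Y, Item.gen ζ Y ∈ resS t' ξ ∪ t ∪ {.gen ξ X, .pro ξ fun _ => tt} →
      .gen ζ Y ∈ resS t' ξ ∪ t ∨ ζ = ξ ∧ Y = X := fun ζ Y h => h.imp_right fun h => by simpa using h
  have hz : ∀ ζ Z, Item.pro ζ Z ∈ resS t' ξ ∪ t ∪ {.gen ξ X, .pro ξ fun _ => tt} →
      .pro ζ Z ∈ resS t' ξ ∪ t ∨ ζ = ξ ∧ Z = fun _ => tt :=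
    fun ζ Y h => h.imp_right fun h => by simpa using h
  have h3 : ∀ ζ Y, Item.gen ζ Y ∈ resS t' ξ ∪ t ∪ {.gen ξ X, .pro ξ fun _ => tt} →
      Y ∈ pool ζ ∧ (∀ m, (Y m).supp ⊆ Iio ζ) ∧
        .pro ζ (fun _ => tt) ∈ resS t' ξ ∪ t ∪ {.gen ξ X, .pro ξ fun _ => tt} := fun ζ Y h1 => by
    rcases hg ζ Y h1 with h2 | ⟨rfl, rfl⟩
    · exact ⟨(h0.gen ζ Y h2).1, (h0.gen ζ Y h2).2.1, Or.inl (h0.gen ζ Y h2).2.2⟩
    · exact ⟨hX, hs, Or.inr (Or.inr rfl)⟩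
  have h4 : ∀ ζ Z, Item.pro ζ Z ∈ resS t' ξ ∪ t ∪ {.gen ξ X, .pro ξ fun _ => tt} →
      ∀ m, (Z m).supp ⊆ Iio ζ := fun ζ Z h1 => by
    rcases hz ζ Z h1 with h2 | ⟨rfl, rfl⟩
    · exact h0.pro ζ Z h2
    · exact fun _ => s_tt
  refine ⟨h0.cnt.union (toFinite _).countable, fun δ a a' h1 h2 => h0.fn δ a a'
    (h1.resolve_right (by simp)) (h2.resolve_right (by simp)), h3, h4, fun ζ Z u n h1 h2 => ?_⟩
  by_cases e : ζ = ξ
  · subst e
    refine FF_pu (s := resS t' ζ) (subset_union_left.trans subset_union_left) ?_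
    rw [resS_resS _ le_rfl]
    refine (FF_pq (s_pos (h4 ζ Z h1) (fun Y hY => (h3 ζ Y (h2 Y hY)).2.1) n) ht').2
      (hp Z u n ((hz ζ Z h1).imp (·.resolve_left fun h => lt_irrefl ζ h.2) (·.2))
        fun Y hY => (hg ζ Y (h2 Y hY)).imp (·.resolve_left fun h => lt_irrefl ζ h.2) (·.2))
  · exact FF_pu subset_union_left (h0.pos ζ Z u n ((hz ζ Z h1).resolve_right fun h => e h.1)
      fun Y hY => (hg ζ Y (h2 Y hY)).resolve_right fun h => e h.1)

theorem good_pol (h : Bk pool μ) (x : O → ℕ → RO (Q pool)) : ⨆ y : ℕ → RO (Q pool), inB y ⊓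
    ((⨅ β, ⨆ α, ⨆ _ : β ≤ α, ⨅ m, y m ⇨ x α m) ⊔
      ⨅ β, ⨆ α, ⨆ _ : β ≤ α, ⨅ m, y m ⇨ (x α m)ᶜ) = ⊤ := by
  refine compl_eq_bot.1 (bot_of_io fun r hr => ?_)
  have H : ∀ (y : ℕ → RO (Q pool)), ∀ q ≤ r, io q ≤ inB y →
      (∃ g ≤ q, ∃ β, ∀ α, β ≤ α → io g ≤ (⨅ m, y m ⇨ x α m)ᶜ) ∧
        ∃ g ≤ q, ∃ β, ∀ α, β ≤ α → io g ≤ (⨅ m, y m ⇨ (x α m)ᶜ)ᶜ := by
    intro y q hq hy
    have h1 := ((io_mono hq).trans hr).trans (compl_le_compl (le_iSup _ y))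
    rw [compl_inf, sup_comm] at h1
    have h2 := le_of_sup_compl h1 hy
    rw [compl_sup] at h2
    exact ⟨ex_not_unb (h2.trans inf_le_left), ex_not_unb (h2.trans inf_le_right)⟩
  have hO : #O ≤ 𝔠 := (mk_ord_toType _).trans_le aleph_one_le_continuum
  obtain ⟨η, N, h1, h2, h3⟩ := ex_level h (hO.trans h.le) x
  obtain ⟨η', h4⟩ := h.bdd (insert η r.1.dom)
    (((r.dom_fin.insert η).lt_aleph0.le.trans aleph0_le_continuum).trans h.le)
  obtain ⟨ξ, h5, h6⟩ := h.cof ((fun Y m => or2 (Y m) (.neg (cd r))) '' N)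
    (mk_image_le.trans (h1.trans (mul_le_of_le aleph0_le_continuum hO le_rfl))) η'
  have hη : η < ξ := (h4 η (mem_insert _ _)).trans h5
  have hr' : r.1.dom ⊆ Iio ξ := fun ζ hζ => (h4 ζ (mem_insert_of_mem _ hζ)).trans h5
  let y : ℕ → RO (Q pool) := fun m => ⨆ n, val pool (.bas ξ n m)
  obtain ⟨t, ht, h7, β, h8⟩ := ex_tail (fun (_ : Unit) α => (⨅ m, y m ⇨ x α m)ᶜ) r fun _ q hq =>
    (H y q hq (le_inB fun n q' _ => by
      obtain ⟨g, a, m, b, c, -⟩ := step q' ξ (Or.inr rfl) n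
      exact ⟨g, a, m, b, le_iSup_of_le (q'.1.st ξ).length (le_bas (by simp [c]))⟩)).1
  have c1 : Countable {Z : Name K | .pro ξ Z ∈ t ∨ Z = fun _ => tt} :=
    ((ht.cnt.preimage (f := Item.pro ξ) fun _ _ e => by simpa using e).union
      (countable_singleton _)).to_subtype
  have c2 : Countable {X : Name K | .gen ξ X ∈ t} :=
    (ht.cnt.preimage (f := Item.gen ξ) fun _ _ e => by simpa using e).to_subtype
  let W : {Z : Name K | .pro ξ Z ∈ t ∨ Z = fun _ => tt} × List {X : Name K | .gen ξ X ∈ t} × ℕ →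
      ℕ → RO (Q pool) := fun i m =>
    ⨆ _ : i.2.2 ≤ m, val pool (i.1.1 m) ⊓ val pool (allL (i.2.1.map Subtype.val) m)
  have hW : ∀ i (q : Q pool), t ⊆ q.1.s → io q ≤ inB (W i) := fun i q hq => le_iInf fun k =>
    (pos_val q (max k i.2.2) (i.1.2.imp_left fun h => hq h) fun X hX => by
      obtain ⟨X, -, rfl⟩ := List.mem_map.1 hX
      exact hq X.2).trans (iSup₂_le fun m hm => le_iSup₂_of_le m (le_of_max_le_left hm)
        (le_iSup_of_le (le_of_max_le_right hm) le_rfl))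
  obtain ⟨t1, ht1, h9, β1, h10⟩ := ex_tail (fun i α => (⨅ m, W i m ⇨ (x α m)ᶜ)ᶜ) (r.up t ht h7)
    fun i q hq => (H _ q (hq.trans (r.up_le ht h7)) (hW i q hq.s)).2
  obtain ⟨t2, ht2, h11, Y, hY, h12⟩ := h3 (max β β1) t1 ht1
  let X : Name K := fun m => or2 (Y m) (.neg (cd r))
  have hX : ∀ m, (X m).supp ⊆ Iio ξ := fun m =>
    s_or ((h2 Y hY m).trans (Iio_subset_Iio hη.le)) (s_neg (cd_supp hr'))
  have h13 : t ⊆ t2 := subset_trans h9 h11
  have ht3 := vs_gen ht ht2 h13 (h6 ⟨Y, hY, rfl⟩) hX fun Z u n hZ hu => io_dense fun q hq => by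
    obtain ⟨l, hl⟩ := ex_list {X : Name K | .gen ξ X ∈ t} u
    have key : ∀ g : Q pool, ∀ m, io g ≤ W (⟨Z, hZ⟩, l, n) m → io g ≤ val pool (X m) →
        io g ≤ val pool (pos Z u n) := fun g m a b => by
      rw [val_pos]
      obtain ⟨-, -, c, -⟩ := ex_iSup a
      have d := a.trans (iSup_le fun _ => le_rfl)
      exact le_iSup₂_of_le m c (le_inf (d.trans inf_le_left) (le_allL.2 fun X' hX' =>
        (hu X' hX').elim (fun e => le_allL.1 (d.trans inf_le_right) X' (hl X' hX' e))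
          fun e => e ▸ b))
    by_cases e : io q ≤ val pool (cd r)
    · obtain ⟨g, a, b⟩ := cd_elim (h7.trans (h13.trans hq.s)) e
      have c := h10 (⟨Z, hZ⟩, l, n) _ (le_max_right β β1) g
        ⟨h13.trans (a.trans hq).s, b.st, b.T, b.al⟩ (h11.trans (a.trans hq).s)
      rw [compl_iInf] at c
      obtain ⟨g', d, m, c'⟩ := ex_iSup c
      rw [compl_himp, _root_.sdiff_eq, compl_compl] at c'
      refine ⟨g', d.trans a, key g' m (c'.trans inf_le_left) ?_⟩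
      rw [val_or]
      exact le_sup_of_le_left ((h12 m g' ((sep_subset _ _).trans
        (d.trans (a.trans hq)).s)).2 (c'.trans inf_le_right))
    · obtain ⟨g, a, b⟩ := ex_compl e
      obtain ⟨g', d, m, -, c⟩ := ex_of_inB (hW (⟨Z, hZ⟩, l, n) g (h13.trans (a.trans hq).s)) 0
      refine ⟨g', d.trans a, key g' m c ?_⟩
      rw [val_or]
      exact le_sup_of_le_right ((io_mono d).trans b)
  have h14 : t ⊆ resS t2 ξ ∪ t ∪ {.gen ξ X, .pro ξ fun _ => tt} :=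
    subset_union_right.trans subset_union_left
  have hx : TreeOk (r.up _ ht3 (h7.trans h14)).1.s (ξ, fun _ => X, fun _ => [X]) :=
    ⟨fun _ => hX, fun _ X' h => Or.inr (Or.inl (by rw [List.mem_singleton.1 h]))⟩
  have h15 := (Q.add_le _ hx).trans (r.up_le ht3 (h7.trans h14))
  refine io_absurd (le_iInf fun m => le_himp_iff.2 (le_of_io fun q hq => ?_))
    (h8 () _ (le_max_left β β1) _ h15 h14)
  obtain ⟨g, a, b⟩ := ex_common (hq.trans inf_le_left)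
  obtain ⟨g1, c, n, d⟩ := ex_iSup ((io_mono a).trans (hq.trans inf_le_right))
  obtain ⟨g2, e, τ, -, f⟩ := ex_alw (c.trans b) (n := n) (by
    rw [show (r.up _ ht3 (h7.trans h14)).1.st ξ = [] from
      st_nil (r := r.1) fun h => lt_irrefl ξ (hr' h)]
    exact Nat.zero_le _) d
  have h16 := e.trans (c.trans b)
  rw [val_alw] at f
  have f1 := le_of_sup_compl f (by
    rw [val_large]
    exact le_iSup_of_le 0 (le_iSup_of_le 0 (le_iInf₂ fun k _ => le_himp_iff.2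
      (le_allL.1 inf_le_right X (List.mem_singleton_self X)))))
  rw [show val pool (X m) = _ from val_or _ _, val_neg] at f1
  refine ⟨g2, e.trans (c.trans a), (h12 m g2 ?_).1
    (le_of_sup_compl f1 ((io_mono (h16.trans h15)).trans (le_cd r)))⟩
  exact fun i hi => h16.s (Or.inl (Or.inl ⟨hi.1, Item.bel_mono (Iio_subset_Iio hη.le) hi.2⟩))

end Pool.Agent.MP_1d5a21_lc

end

-- part MP_1d5a21_lc.Final
section

/-!
The algebra of the iteration has all the listed properties.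
-/

set_option autoImplicit false

namespace Pool.Agent.MP_1d5a21_lc

open Set Pool.Agent.Lib.PosetForcing Cardinal

theorem ex_good (μ : Cardinal.{0}) : ∃ (B : Type) (_ : CompleteBooleanAlgebra B), Good B μ := by
  obtain ⟨K, _, _, pool, h⟩ := ex_bk μ
  obtain ⟨a, ha⟩ := good_spl (pool := pool) fun S hS =>
    h.bdd S (hS.countable.le_aleph0.trans (aleph0_le_continuum.trans h.le))
  refine ⟨RO (Q pool), inferInstance, fun e => ?_, good_bd, good_cc h.small, ⟨a, ha⟩, good_pol h,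
    fun ι f hι => good_dom h ι f (hι.trans (le_max_left _ _)),
    fun ι f hι => good_ioe h ι f (hι.trans (le_max_left _ _))⟩
  have hv : VS pool (∅ : Set (Item K)) := vs_loc countable_empty (fun _ _ _ x => x.elim)
    (fun _ _ x => x.elim) fun _ _ _ x => x.elim
  exact io_not_bot (p := pq ∅ hv) (le_top.trans e.le)

end Pool.Agent.MP_1d5a21_lc

end
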