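import Pool.Agent.MP_1d5a21_lc.Stmt
import Pool.Agent.Lib.PosetForcing.Basic

-- part MP_1d5a21_lc.Iface
section

/-!
The properties of the complete Boolean algebra that are used to read off the model.
-/

set_option autoImplicit false

namespace Pool.Agent.MP_1d5a21_lc

open Cardinal Set

/-- `ω₁` as a type. -/
abbrev O : Type := (ℵ₁ : Cardinal.{0}).ord.ToType

variable {B : Type} [CompleteBooleanAlgebra B]

/-- The value of: `y` is infinite. -/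
def inB (y : ℕ → B) : B := ⨅ n, ⨆ m, ⨆ _ : n ≤ m, y m

/-- `f` is a name of a function `ℕ → ℕ`. -/
def IsFn (f : ℕ → ℕ → B) : Prop :=
  (∀ n, ⨆ m, f n m = ⊤) ∧ ∀ n m m', m ≠ m' → f n m ⊓ f n m' = ⊥

variable (B) in
structure Good (μ : Cardinal.{0}) : Prop where
  nt : (⊤ : B) ≠ ⊥
  /-- countable subsets of `ω₁` are bounded -/
  bd : ∀ b : ℕ → O → B, (∀ k α β, α ≠ β → b k α ⊓ b k β = ⊥) → ∀ x : B, x ≠ ⊥ →
    ∃ y ≤ x, y ≠ ⊥ ∧ ∃ β, ∀ k α, β ≤ α → y ⊓ b k α = ⊥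
  /-- the chain condition -/
  cc : ∀ (ι : Type) (b : ι → B), (∀ i j, i ≠ j → b i ⊓ b j = ⊥) → #{i | b i ≠ ⊥} ≤ 𝔠
  spl : ∃ a : O → ℕ → B, ∀ y : ℕ → B,
    inB y ≤ ⨆ δ, inB (fun m => y m ⊓ a δ m) ⊓ inB (fun m => y m ⊓ (a δ m)ᶜ)
  pol : ∀ x : O → ℕ → B, ⨆ y : ℕ → B, inB y ⊓
    ((⨅ β, ⨆ α, ⨆ _ : β ≤ α, ⨅ m, y m ⇨ x α m) ⊔
      ⨅ β, ⨆ α, ⨆ _ : β ≤ α, ⨅ m, y m ⇨ (x α m)ᶜ) = ⊤
  dom : ∀ (ι : Type) (f : ι → ℕ → ℕ → B), #ι ≤ μ → (∀ i, IsFn (f i)) → ∃ d, IsFn d ∧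
    ∀ i, inB (fun n => ⨆ m, ⨆ m', ⨆ _ : m' ≤ m, f i n m ⊓ d n m') = ⊥
  ioe : ∀ (ι : Type) (f : ι → ℕ → ℕ → B), #ι ≤ μ → (∀ i, IsFn (f i)) → ∃ c, IsFn c ∧
    ∀ i, inB (fun n => ⨆ m, f i n m ⊓ c n m) = ⊤

end Pool.Agent.MP_1d5a21_lc

end

-- part MP_1d5a21_lc.TrA
section

/-!
From the Boolean algebra to the model: Boolean-valued subsets of `ℕ` and functions `ℕ → ℕ`.
-/

set_option autoImplicit false

namespace Pool.Agent.MP_1d5a21_lc

open Pool.Agent.Lib.Forcing Pool.Agent.Lib.PosetForcing Cardinal Set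

variable {B : Type} [CompleteBooleanAlgebra B]

theorem inB_le (y : ℕ → B) (n : ℕ) : inB y ≤ ⨆ m, ⨆ _ : n ≤ m, y m := iInf_le _ n

theorem inB_mono {c : B} {y z : ℕ → B} (N : ℕ) (h : ∀ m, N ≤ m → c ⊓ y m ≤ z m) :
    c ⊓ inB y ≤ inB z := by
  refine le_iInf fun n => (inf_le_inf_left c (inB_le y (max n N))).trans ?_
  rw [inf_iSup_eq]
  refine iSup_le fun m => ?_
  rw [inf_iSup_eq]
  exact iSup_le fun hm => le_iSup₂_of_le m ((le_max_left _ _).trans hm)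
    (h m ((le_max_right _ _).trans hm))

theorem inB_split (y s : ℕ → B) :
    (inB fun m => y m ⊓ s m)ᶜ ⊓ inB y ≤ inB fun m => y m ⊓ (s m)ᶜ := by
  rw [inB, compl_iInf, iSup_inf_eq]
  refine iSup_le fun n => inB_mono n fun m hm => le_inf inf_le_right ?_
  have h : (⨆ m, ⨆ _ : n ≤ m, y m ⊓ s m)ᶜ ≤ (y m ⊓ s m)ᶜ :=
    compl_le_compl (le_iSup₂_of_le m hm le_rfl)
  refine Ult.le_of fun V hV => ?_
  rw [V.inf] at hV
  have h1 := V.mono h hV.1
  rw [V.compl, V.inf] at h1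
  exact (V.compl _).2 fun h2 => h1 ⟨hV.2, h2⟩

theorem inB_false {y : ℕ → B} (N : ℕ) (H : Ult B → Prop) [Rep H]
    (h : ∀ V m, N ≤ m → H V → ¬ V.P (y m)) (U : Ult B) (hH : H U) : ¬ U.P (inB y) := fun hy =>
  sup_elim _ (fun V => ¬ H V) (fun V m hm => sup_elim (fun _ : N ≤ m => y m) (fun V => ¬ H V)
    (fun W hN hW hH => h W m hN hH hW) V hm) U (U.mono (inB_le y N) hy) hH

/-- The decreasing sequence of infinite sets that decides each `S k`. -/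
noncomputable def dec (S : ℕ → ℕ → B) : ℕ → ℕ → B
  | 0 => fun _ => ⊤
  | k + 1 => fun m => dec S k m ⊓ ((inB (fun m => dec S k m ⊓ S k m) ⊓ S k m) ⊔
      ((inB fun m => dec S k m ⊓ S k m)ᶜ ⊓ (S k m)ᶜ))

theorem inB_dec (S : ℕ → ℕ → B) (k : ℕ) : inB (dec S k) = ⊤ := by
  induction k with
  | zero => exact top_unique (le_iInf fun n => le_iSup₂_of_le n le_rfl le_rfl)
  | succ k ih =>
    refine top_unique (Ult.le_of fun V _ => ?_)
    by_cases h : V.P (inB fun m => dec S k m ⊓ S k m)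
    · refine V.mono (inB_mono 0 fun m _ => ?_) ((V.inf _ _).2 ⟨h, h⟩)
      exact le_inf (inf_le_right.trans inf_le_left)
        (le_sup_of_le_left (inf_le_inf_left _ inf_le_right))
    · have h1 := (V.compl _).2 h
      have h2 := V.mono (inB_split (dec S k) (S k)) ((V.inf _ _).2 ⟨h1, ih ▸ V.top⟩)
      refine V.mono (inB_mono 0 fun m _ => ?_) ((V.inf _ _).2 ⟨h1, h2⟩)
      exact le_inf (inf_le_right.trans inf_le_left)
        (le_sup_of_le_right (inf_le_inf_left _ inf_le_right))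

theorem dec_anti (S : ℕ → ℕ → B) (m : ℕ) : Antitone fun k => dec S k m :=
  antitone_nat_of_succ_le fun _ => inf_le_left

/-- No countable family splits every infinite set. -/
theorem exists_unsplit (S : ℕ → ℕ → B) : ∃ y : ℕ → B, inB y = ⊤ ∧ ∀ k (V : Ult B),
    V.P (inB fun m => y m ⊓ S k m) → ¬ V.P (inB fun m => y m ⊓ (S k m)ᶜ) := by
  classical
  let y : ℕ → B := fun m => (Finset.range (m + 1)).sup fun k =>
    dec S k m ⊓ (Finset.Ico k m).inf fun j => (dec S k j)ᶜ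
  have hy : ∀ (V : Ult B) m, V.P (y m) ↔
      ∃ k ≤ m, V.P (dec S k m) ∧ ∀ j, k ≤ j → j < m → ¬ V.P (dec S k j) := by
    intro V m
    simp only [y, V.finset_sup, V.inf, V.finset_inf, V.compl, Finset.mem_range, Finset.mem_Ico,
      Nat.lt_succ_iff, and_imp]
  have h1 : ∀ (V : Ult B) k N m, k ≤ N → N < m → V.P (dec S k N) → V.P (y m) →
      V.P (dec S k m) := by
    intro V k N m hN hm h2 h3
    obtain ⟨k', -, h4, h5⟩ := (hy V m).1 h3
    rcases le_total k k' with h | h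
    · exact V.mono (dec_anti S m h) h4
    · exact (h5 N (h.trans hN) hm (V.mono (dec_anti S N h) h2)).elim
  refine ⟨y, top_unique (le_iInf fun n => ?_), fun k V h2 h3 => ?_⟩
  · refine ((inB_dec S n).ge.trans (inB_le _ n)).trans (iSup₂_le fun m hm => ?_)
    refine Ult.le_of fun V hV => ?_
    have hex : ∃ j, n ≤ j ∧ V.P (dec S n j) := ⟨m, hm, hV⟩
    have h2 := Nat.find_spec hex
    refine V.mono (le_iSup₂_of_le (Nat.find hex) h2.1 le_rfl) ((hy V _).2 ⟨n, h2.1, h2.2, ?_⟩)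
    exact fun j h3 h4 h5 => Nat.find_min hex h4 ⟨h3, h5⟩
  · let e := inB fun m => dec S k m ⊓ S k m
    refine inB_false (y := dec S (k + 1)) (k + 1) (fun V => V.P (inB fun m => y m ⊓ S k m) ∧
      V.P (inB fun m => y m ⊓ (S k m)ᶜ)) (fun W N hN hW h4 => ?_) V ⟨h2, h3⟩
      (inB_dec S _ ▸ V.top)
    have key : ∀ (V : Ult B) m, N < m → V.P (dec S (k + 1) N) → V.P (y m) →
        (V.P e ↔ V.P (S k m)) := by
      intro V m hm h5 h6
      have := h1 V _ N m hN hm h5 h6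
      simp only [dec, V.inf, V.sup, V.compl] at this
      tauto
    by_cases he : W.P e
    · refine inB_false (N + 1) (fun V => V.P (dec S (k + 1) N) ∧ V.P e) (fun X m hm hX h => ?_)
        W ⟨h4, he⟩ hW.2
      rw [X.inf, X.compl] at h
      exact h.2 ((key X m hm hX.1 h.1).1 hX.2)
    · refine inB_false (N + 1) (fun V => V.P (dec S (k + 1) N) ∧ ¬ V.P e) (fun X m hm hX h => ?_)
        W ⟨h4, he⟩ hW.1
      rw [X.inf] at h
      exact hX.2 ((key X m hm hX.1 h.1).2 h.2)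

instance rep_sub (X Y : Nm B) : Rep (fun U : Ult B => Sub U.E (U.cl X) (U.cl Y)) := by
  unfold Sub; infer_instance

instance rep_leq (X Y : Nm B) : Rep (fun U : Ult B => Leq U.E (U.cl X) (U.cl Y)) := by
  unfold Leq; infer_instance

instance rep_inf (P : ∀ U : Ult B, U.M → Prop) [∀ z, Rep (fun U => P U (U.cl z))] :
    Rep (fun U : Ult B => Inf U.E U.om (P U)) := by
  unfold Inf; infer_instance

instance rep_fun (f : Nm B) : Rep (fun U : Ult B => Fun U.E U.om (U.cl f)) := by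
  unfold Fun; infer_instance

instance rep_spl (F : Nm B) : Rep (fun U : Ult B => Spl U.E U.om (U.cl F)) := by
  unfold Spl; infer_instance

theorem inf_iff (H : Ult B → Prop) [Rep H] (P : ∀ U : Ult B, U.M → Prop)
    [∀ z, Rep (fun U => P U (U.cl z))] (y : ℕ → B)
    (h : ∀ V m, H V → (V.P (y m) ↔ P V (V.num m))) (U : Ult B) (hH : H U) :
    U.P (inB y) ↔ Inf U.E U.om (P U) := by
  constructor
  · intro hy n hn
    refine om_elim (fun V n => H V → V.P (inB y) → ∃ m, V.E m V.om ∧ V.E n m ∧ P V m)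
      (fun V n hH hy => ?_) U n hn hH hy
    refine sup_elim _ (fun V => H V → ∃ m, V.E m V.om ∧ V.E (V.num n) m ∧ P V m)
      (fun W m hm => ?_) V (V.mono (inB_le y (n + 1)) hy) hH
    exact sup_elim (fun _ : n + 1 ≤ m => y m)
      (fun V => H V → ∃ m, V.E m V.om ∧ V.E (V.num n) m ∧ P V m)
      (fun X hn hX hH => ⟨_, X.num_mem_om m, X.num_mem_num.2 hn, (h X m hH).1 hX⟩) W hm
  · intro hy
    refine inf_intro _ (fun V => H V ∧ Inf V.E V.om (P V)) (fun V n hV => ?_) U ⟨hH, hy⟩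
    obtain ⟨m, h1, h2, h3⟩ := hV.2 _ (V.num_mem_om n)
    refine om_elim (fun V m => H V → V.E (V.num n) m → P V m → V.P (⨆ m, ⨆ _ : n ≤ m, y m))
      (fun W m hH h2 h3 => ?_) V m h1 hV.1 h2 h3
    exact W.mono (le_iSup₂_of_le m (W.num_mem_num.1 h2).le le_rfl) ((h W m hH).2 h3)

theorem inf_iff' (P : ∀ U : Ult B, U.M → Prop) [∀ z, Rep (fun U => P U (U.cl z))] (y : ℕ → B)
    (h : ∀ V m, V.P (y m) ↔ P V (V.num m)) (U : Ult B) : U.P (inB y) ↔ Inf U.E U.om (P U) :=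
  inf_iff (fun _ => True) P y (fun V m _ => h V m) U trivial

/-- The name of a subset of `ω`. -/
abbrev subN (y : ℕ → B) : Nm B := ⟨ℕ, numN, y⟩

theorem num_mem_subN (y : ℕ → B) (U : Ult B) (m : ℕ) :
    U.E (U.num m) (U.cl (subN y)) ↔ U.P (y m) :=
  ⟨fun h => mem_elim (subN y) (fun V z => z = V.num m → V.P (y m))
    (fun V _ hi e => by rw [← V.num_inj.1 e]; exact hi) U _ h rfl, U.E_intro (subN y) m⟩

theorem sub_subN (y : ℕ → B) (U : Ult B) : Sub U.E (U.cl (subN y)) U.om :=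
  mem_elim (subN y) (fun V z => V.E z V.om) (fun V i _ => V.num_mem_om i) U

/-- The name of a function `ω → ω`. -/
abbrev funN (d : ℕ → ℕ → B) : Nm B :=
  grN (fun s : ℕ × ℕ => numN s.1) (fun s => numN s.2) fun s => d s.1 s.2

theorem ap_funN (d : ℕ → ℕ → B) (U : Ult B) (n m : ℕ) :
    Ap U.E (U.cl (funN d)) (U.num n) (U.num m) ↔ U.P (d n m) :=
  ⟨fun h => ap_elim _ _ _ (fun V a b => a = V.num n → b = V.num m → V.P (d n m))
    (fun V _ hi e e' => by rw [← V.num_inj.1 e, ← V.num_inj.1 e']; exact hi) U _ _ h rfl rfl,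
    U.ap_grN (fun s : ℕ × ℕ => numN s.1) (fun s => numN s.2) (fun s => d s.1 s.2) (n, m)⟩

theorem fun_funN {d : ℕ → ℕ → B} (hd : IsFn d) (U : Ult B) : Fun U.E U.om (U.cl (funN d)) := by
  refine fn_gen numN _ _ _ (fun V _ m => V.E m V.om)
    (fun V s _ => ⟨V.num_mem_om _, V.num_mem_om _⟩) (fun V n => ?_) (fun V s t hs ht e => ?_) U
  · exact sup_elim (d n) (fun V => ∃ y, Ap V.E (V.cl (funN d)) (V.num n) y)
      (fun W m hm => ⟨_, (ap_funN d W n m).2 hm⟩) V (hd.1 n ▸ V.top)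
  · by_contra hne
    have h1 : s.2 ≠ t.2 := fun h => hne (by rw [h])
    rw [V.num_inj.1 e] at hs
    exact V.bot (hd.2 _ _ _ h1 ▸ (V.inf _ _).2 ⟨hs, ht⟩)

/-- A name for a family of functions gives Boolean-valued functions. -/
theorem exists_isFn {ι : Type} (A : ι → Nm B) (G : Nm B) : ∃ f : ι → ℕ → ℕ → B,
    (∀ i, IsFn (f i)) ∧ ∀ (V : Ult B) i n m g,
      Fn V.E (V.cl (lst A)) (fun _ f => Fun V.E V.om f) (V.cl G) → Ap V.E (V.cl G) (V.cl (A i)) g →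
        (V.P (f i n m) ↔ Ap V.E g (V.num n) (V.num m)) := by
  let H : Ult B → Prop := fun V => Fn V.E (V.cl (lst A)) (fun _ f => Fun V.E V.om f) (V.cl G)
  let Q : ι → ℕ → ℕ → Ult B → Prop := fun i n m V =>
    (H V ∧ ∃ g, Ap V.E (V.cl G) (V.cl (A i)) g ∧ Ap V.E g (V.num n) (V.num m)) ∨ (¬ H V ∧ m = 0)
  have hQ : ∀ i n m, Rep (Q i n m) := fun i n m => inferInstance
  have key : ∀ (V : Ult B) i n m g, H V → Ap V.E (V.cl G) (V.cl (A i)) g →
      (V.P (bv (Q i n m)) ↔ Ap V.E g (V.num n) (V.num m)) := by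
    intro V i n m g hH hg
    rw [bv_iff]
    refine ⟨fun h => ?_, fun h => Or.inl ⟨hH, g, hg, h⟩⟩
    rcases h with ⟨-, g', h1, h2⟩ | h
    · rwa [hH.unique V.zfc hg h1]
    · exact (h.1 hH).elim
  refine ⟨fun i n m => bv (Q i n m), fun i => ⟨fun n => top_unique (Ult.le_of fun V _ => ?_),
    fun n m m' hm => le_bot_iff.1 (Ult.le_of fun V hV => ?_)⟩, key⟩
  · by_cases hH : H V
    · obtain ⟨g, hg, -⟩ := hH.2.1 _ (lst_intro V A i)
      have h1 := hH.2.2 _ _ hg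
      obtain ⟨z, hz, -⟩ := h1.2.1 _ (V.num_mem_om n)
      obtain ⟨g, rfl⟩ := V.cl_surj g
      exact om_elim (fun V z => H V → Ap V.E (V.cl G) (V.cl (A i)) (V.cl g) →
        Ap V.E (V.cl g) (V.num n) z → V.P (⨆ m, bv (Q i n m)))
        (fun W m h2 h3 h4 => W.mono (le_iSup (fun m => bv (Q i n m)) m) ((key W i n m _ h2 h3).2 h4))
        V z (h1.2.2 _ _ hz) hH hg hz
    · exact V.mono (le_iSup (fun m => bv (Q i n m)) 0) ((bv_iff _ V).2 (Or.inr ⟨hH, rfl⟩))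
  · rw [V.inf] at hV
    by_cases hH : H V
    · obtain ⟨g, hg, -⟩ := hH.2.1 _ (lst_intro V A i)
      exact (hm (V.num_inj.1 ((hH.2.2 _ _ hg).unique V.zfc ((key V i n m g hH hg).1 hV.1)
        ((key V i n m' g hH hg).1 hV.2)))).elim
    · have h1 := ((bv_iff _ V).1 hV.1).resolve_left fun h => hH h.1
      have h2 := ((bv_iff _ V).1 hV.2).resolve_left fun h => hH h.1
      exact (hm (h1.2.trans h2.2.symm)).elim

end Pool.Agent.MP_1d5a21_lc

end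

-- part MP_1d5a21_lc.Tr
section

/-!
From the Boolean algebra to the model.
-/

set_option autoImplicit false

namespace Pool.Agent.MP_1d5a21_lc

open Pool.Agent.Lib.Forcing Pool.Agent.Lib.PosetForcing Cardinal Set

variable {B : Type} [CompleteBooleanAlgebra B] {μ : Cardinal.{0}}

/-- `f` is one-to-one and maps `X` into `Y`. -/
abbrev Inj (V : Ult B) (X Y f : V.M) : Prop := (∀ x, V.E x X → ∃ y, V.E y Y ∧ Ap V.E f x y) ∧
  ∀ x x' y y', Ap V.E f x y → Ap V.E f x' y' → (x = x' ↔ y = y')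

theorem bv_ne_bot (P : Ult B → Prop) [Rep P] {U : Ult B} (h : P U) : bv P ≠ ⊥ := fun e =>
  U.bot (e ▸ (bv_iff P U).2 h)

theorem eq_bot_of {b : B} (h : ∀ V : Ult B, ¬ V.P b) : b = ⊥ :=
  le_bot_iff.1 (Ult.le_of fun V hV => (h V hV).elim)

/-- An unbounded subset of `ω₁` is uncountable. -/
theorem Good.not_le (hB : Good B μ) (A : Nm B) (g : O → B)
    (hA : ∀ (V : Ult B) α, V.P (g α) → V.E (V.cl (oN α)) (V.cl A)) (U : Ult B)
    (hg : U.P (⨅ β, ⨆ α, ⨆ _ : β ≤ α, g α)) : ¬ Leq U.E (U.cl A) U.om := by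
  rintro ⟨f, hf⟩
  obtain ⟨f, rfl⟩ := U.cl_surj f
  let H : Ult B → Prop := fun V => V.P (⨅ β, ⨆ α, ⨆ _ : β ≤ α, g α) ∧
    Inj V (V.cl A) V.om (V.cl f)
  obtain ⟨y, h1, h2, β, h3⟩ := hB.bd
    (fun k α => bv fun V => H V ∧ Ap V.E (V.cl f) (V.cl (oN α)) (V.num k))
    (fun k α β hne => eq_bot_of fun V hV => by
      rw [V.inf, bv_iff, bv_iff] at hV
      exact hne ((oN_inj V).1 ((hV.1.1.2.2 _ _ _ _ hV.1.2 hV.2.2).2 rfl))) (bv H)
    (bv_ne_bot H ⟨hg, hf⟩)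
  obtain ⟨V, hV⟩ := Ult.exists_mem h2
  have hH : ∀ W : Ult B, W.P y → H W := fun W hW => (bv_iff H W).1 (W.mono h1 hW)
  refine sup_elim _ (fun V => ¬ V.P y) (fun W α hα => ?_) V (V.mono (iInf_le _ β) (hH V hV).1) hV
  refine sup_elim (fun _ : β ≤ α => g α) (fun V => ¬ V.P y) (fun X hβ hX hy => ?_) W hα
  obtain ⟨z, hz, h4⟩ := (hH X hy).2.1 _ (hA X α hX)
  refine om_elim (fun V z => V.P y → ¬ Ap V.E (V.cl f) (V.cl (oN α)) z) (fun Y k h5 h6 => ?_)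
    X z hz hy h4
  exact Y.bot (h3 k α hβ ▸ (Y.inf _ _).2 ⟨h5, (bv_iff _ Y).2 ⟨hH Y h5, h6⟩⟩)

theorem Good.om1 (hB : Good B μ) (U : Ult B) : Om1 U.E U.om (U.cl (setN (univ : Set O))) := by
  refine ⟨fun a ha z hz => setN_trans isLowerSet_univ U z a hz ha, setN_tri univ U,
    hB.not_le _ (fun _ => ⊤) (fun V α _ => setN_intro V (mem_univ α)) U
      (U.mono (le_iInf fun β => le_iSup₂_of_le β le_rfl le_rfl) U.top), ?_⟩
  refine setN_elim univ (fun V a => Leq V.E a V.om) (fun V a _ => ?_) U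
  have : Countable (Iio a) := by
    rw [← mk_le_aleph0_iff, ← Order.lt_succ_iff, succ_aleph0]
    exact (mk_Iio_lt a (by simp only [mk_toType, ord_aleph, Ordinal.card_omega, Ordinal.type_toType])).trans_eq (mk_ord_toType _)
  obtain ⟨g, hg⟩ := exists_injective_nat (Iio a)
  rw [oN_eq]
  exact le_chk (fun b : Iio a => oN b.1) (fun b => numN (g b)) omN (fun W i => W.num_mem_om _)
    (fun W s t => by rw [oN_inj, W.num_inj, hg.eq_iff, Subtype.ext_iff]) V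

/-- A family listed in length `ω₁` has size at most `ℵ₁`. -/
theorem le_lst (A : O → Nm B) (U : Ult B) :
    Leq U.E (U.cl (lst A)) (U.cl (setN (univ : Set O))) := by
  let v : O → B := fun δ => ⨅ γ, ⨅ _ : γ < δ, (Nm.eqv (A γ) (A δ))ᶜ
  have hv : ∀ (V : Ult B) s t, s < t → V.P (v t) → V.cl (A s) ≠ V.cl (A t) := fun V s t h ht e =>
    (V.compl _).1 (V.mono (iInf₂_le s h) ht) (V.cl_eq.1 e)
  refine le_gen A _ A oN v (fun V i => ?_) (fun V s t hs ht => ?_) U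
  · induction i using (wellFounded_lt (α := O)).induction generalizing V with
    | _ i ih =>
      by_cases h : V.P (v i)
      · exact ⟨_, setN_intro V (mem_univ i), V.ap_grN A oN v i h⟩
      · rw [← V.compl] at h
        simp only [v, compl_iInf, compl_compl] at h
        refine sup_elim _ (fun V => ∃ y, V.E y (V.cl (setN (univ : Set O))) ∧
          Ap V.E (V.cl (grN A oN v)) (V.cl (A i)) y) (fun W j hj => ?_) V h
        refine sup_elim (fun _ : j < i => Nm.eqv (A j) (A i)) (fun V => ∃ y,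
          V.E y (V.cl (setN (univ : Set O))) ∧ Ap V.E (V.cl (grN A oN v)) (V.cl (A i)) y)
          (fun X h1 h2 => ?_) W hj
        rw [← X.cl_eq.2 h2]
        exact ih j h1 X
  · rw [oN_inj]
    refine ⟨fun e => ?_, fun e => by rw [e]⟩
    rcases lt_trichotomy s t with h | h | h
    · exact (hv V s t h ht e).elim
    · exact h
    · exact (hv V t s h hs e.symm).elim

theorem Good.split (hB : Good B μ) (U : Ult B) :
    ∃ F, Spl U.E U.om F ∧ Leq U.E F (U.cl (setN (univ : Set O))) := by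
  obtain ⟨a, ha⟩ := hB.spl
  refine ⟨_, ⟨lst_elim (fun δ => subN (a δ)) (fun V S => Sub V.E S V.om)
    (fun V δ => sub_subN _ V) U, fun X _ hX => ?_⟩, le_lst _ U⟩
  obtain ⟨X, rfl⟩ := U.cl_surj X
  let y : ℕ → B := fun m => Nm.mem (numN m) X
  have hy : ∀ (V : Ult B) m, V.P (y m) ↔ V.E (V.num m) (V.cl X) := fun _ _ => Iff.rfl
  refine sup_elim _ (fun V => ∃ S, V.E S (V.cl (lst fun δ => subN (a δ))) ∧
    Inf V.E V.om (fun m => V.E m (V.cl X) ∧ V.E m S) ∧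
    Inf V.E V.om (fun m => V.E m (V.cl X) ∧ ¬ V.E m S)) (fun V δ h => ?_) U
    (U.mono (ha y) ((inf_iff' (fun V m => V.E m (V.cl X)) y hy U).2 hX))
  rw [V.inf] at h
  exact ⟨_, lst_intro V (fun δ => subN (a δ)) δ,
    (inf_iff' (fun V m => V.E m (V.cl X) ∧ V.E m (V.cl (subN (a δ)))) _
      (fun W m => by rw [W.inf, hy, num_mem_subN]) V).1 h.1,
    (inf_iff' (fun V m => V.E m (V.cl X) ∧ ¬ V.E m (V.cl (subN (a δ)))) _
      (fun W m => by rw [W.inf, hy, W.compl, num_mem_subN]) V).1 h.2⟩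

theorem not_split (U : Ult B) (F : U.M) (hF : Spl U.E U.om F) : ¬ Leq U.E F U.om := by
  rintro ⟨f, hf⟩
  obtain ⟨f, rfl⟩ := U.cl_surj f
  obtain ⟨F, rfl⟩ := U.cl_surj F
  obtain ⟨y, h1, h2⟩ := exists_unsplit fun k m =>
    bv fun V : Ult B => ∃ S, Ap V.E (V.cl f) S (V.num k) ∧ V.E (V.num m) S
  obtain ⟨S, hS, h3, h4⟩ := hF.2 _ (sub_subN y U)
    ((inf_iff' (fun V m => V.E m (V.cl (subN y))) y (fun V m => (num_mem_subN y V m).symm) U).1
      (h1 ▸ U.top))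
  obtain ⟨z, hz, h5⟩ := hf.1 S hS
  obtain ⟨S, rfl⟩ := U.cl_surj S
  refine om_elim (fun V z => Inj V (V.cl F) V.om (V.cl f) → Ap V.E (V.cl f) (V.cl S) z →
    Inf V.E V.om (fun m => V.E m (V.cl (subN y)) ∧ V.E m (V.cl S)) →
    ¬ Inf V.E V.om (fun m => V.E m (V.cl (subN y)) ∧ ¬ V.E m (V.cl S)))
    (fun V k h6 h7 h8 h9 => ?_) U z hz hf h5 h3 h4
  let H : Ult B → Prop := fun V => Inj V (V.cl F) V.om (V.cl f) ∧
    Ap V.E (V.cl f) (V.cl S) (V.num k)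
  have key : ∀ (W : Ult B) m, H W → ((∃ S, Ap W.E (W.cl f) S (W.num k) ∧ W.E (W.num m) S) ↔
      W.E (W.num m) (W.cl S)) := fun W m hW =>
    ⟨fun ⟨T, a, b⟩ => by rwa [(hW.1.2 _ _ _ _ hW.2 a).2 rfl], fun h => ⟨_, hW.2, h⟩⟩
  exact h2 k V
    ((inf_iff H (fun V m => V.E m (V.cl (subN y)) ∧ V.E m (V.cl S)) _
      (fun W m hW => by rw [W.inf, bv_iff, key W m hW, num_mem_subN]) V ⟨h6, h7⟩).2 h8)
    ((inf_iff H (fun V m => V.E m (V.cl (subN y)) ∧ ¬ V.E m (V.cl S)) _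
      (fun W m hW => by rw [W.inf, W.compl, bv_iff, key W m hW, num_mem_subN]) V ⟨h6, h7⟩).2 h9)

theorem Good.hom (hB : Good B μ) (R : ∀ V : Ult B, V.M → V.M → Prop)
    [∀ a n, Rep (fun V => R V (V.cl a) (V.cl n))] (x : O → ℕ → B) (y : ℕ → B)
    (hx : ∀ V α m, V.P (x α m) → R V (V.cl (oN α)) (V.num m)) (U : Ult B) (h1 : U.P (inB y))
    (h2 : U.P (⨅ β, ⨆ α, ⨆ _ : β ≤ α, ⨅ m, y m ⇨ x α m)) :
    ∃ A C, Sub U.E A (U.cl (setN (univ : Set O))) ∧ Sub U.E C U.om ∧ ¬ Leq U.E A U.om ∧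
      Inf U.E U.om (fun m => U.E m C) ∧ ∀ a n, U.E a A → U.E n C → R U a n := by
  let A : Nm B := ⟨O, oN, fun α => ⨅ m, y m ⇨ x α m⟩
  refine ⟨U.cl A, U.cl (subN y), mem_elim A (fun V z => V.E z (V.cl (setN (univ : Set O))))
    (fun V i _ => setN_intro V (mem_univ i)) U, sub_subN y U,
    hB.not_le A _ (fun V α h => V.E_intro A α h) U h2,
    (inf_iff' (fun V m => V.E m (V.cl (subN y))) y (fun V m => (num_mem_subN y V m).symm) U).1 h1,
    fun a n ha hn => ?_⟩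
  refine mem_elim A (fun V a => ∀ n, V.E n (V.cl (subN y)) → R V a n) (fun V α hα n hn => ?_)
    U a ha n hn
  refine mem_elim (subN y) (fun V n => V.P (A.val α) → R V (V.cl (oN α)) n)
    (fun W m hm hα => hx W α m ?_) V n hn hα
  exact W.mono himp_inf_le ((W.inf _ _).2 ⟨W.mono (iInf_le _ m) hα, hm⟩)

theorem Good.polar (hB : Good B μ) (U : Ult B) : Pol U.E U.om (U.cl (setN (univ : Set O))) := by
  intro C
  obtain ⟨C, rfl⟩ := U.cl_surj C
  let x : O → ℕ → B := fun α m => bv fun V => Ap V.E (V.cl C) (V.cl (oN α)) (V.num m)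
  refine sup_elim _ (fun V => ∃ A D, Sub V.E A (V.cl (setN (univ : Set O))) ∧ Sub V.E D V.om ∧
    ¬ Leq V.E A V.om ∧ Inf V.E V.om (fun m => V.E m D) ∧
    ((∀ a n, V.E a A → V.E n D → Ap V.E (V.cl C) a n) ∨
      ∀ a n, V.E a A → V.E n D → ¬ Ap V.E (V.cl C) a n)) (fun V y h => ?_) U (hB.pol x ▸ U.top)
  rw [V.inf, V.sup] at h
  rcases h.2 with h2 | h2
  · obtain ⟨A, D, a, b, c, d, e⟩ := hB.hom (fun V a n => Ap V.E (V.cl C) a n) x y
      (fun W α m h => (bv_iff _ W).1 h) V h.1 h2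
    exact ⟨A, D, a, b, c, d, Or.inl e⟩
  · obtain ⟨A, D, a, b, c, d, e⟩ := hB.hom (fun V a n => ¬ Ap V.E (V.cl C) a n)
      (fun α m => (x α m)ᶜ) y (fun W α m h h' => (W.compl _).1 h ((bv_iff _ W).2 h')) V h.1 h2
    exact ⟨A, D, a, b, c, d, Or.inr e⟩

theorem Good.bdd (hB : Good B μ) {ι : Type} (A : ι → Nm B) (hι : #ι ≤ μ) (U : Ult B) :
    Bdd U.E U.om (U.cl (lst A)) := by
  intro G hG
  obtain ⟨G, rfl⟩ := U.cl_surj G
  obtain ⟨f, h1, h2⟩ := exists_isFn A G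
  obtain ⟨d, h3, h4⟩ := hB.dom ι f hι h1
  refine ⟨_, fun_funN h3 U, fun k g hg => ?_⟩
  obtain ⟨g, rfl⟩ := U.cl_surj g
  refine lst_elim A (fun V k => Fn V.E (V.cl (lst A)) (fun _ f => Fun V.E V.om f) (V.cl G) →
    Ap V.E (V.cl G) k (V.cl g) → ¬ Inf V.E V.om (fun n => ∃ m m', Ap V.E (V.cl g) n m ∧
      Ap V.E (V.cl (funN d)) n m' ∧ ¬ V.E m m')) (fun V i h5 h6 h7 => ?_) U k
    (hG.dom U.zfc hg) hG hg
  let H : Ult B → Prop := fun V => Fn V.E (V.cl (lst A)) (fun _ f => Fun V.E V.om f) (V.cl G) ∧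
    Ap V.E (V.cl G) (V.cl (A i)) (V.cl g)
  let P : ∀ V : Ult B, V.M → Prop := fun V n => ∃ m m', Ap V.E (V.cl g) n m ∧
    Ap V.E (V.cl (funN d)) n m' ∧ ¬ V.E m m'
  have h8 := (inf_iff' P (fun n => bv fun V => P V (V.num n)) (fun W n => bv_iff _ W) V).2 h7
  refine V.bot (h4 i ▸ V.mono (inB_mono (c := bv H) 0 fun n _ => Ult.le_of fun W hW => ?_)
    ((V.inf _ _).2 ⟨(bv_iff H V).2 ⟨h5, h6⟩, h8⟩))
  rw [W.inf, bv_iff, bv_iff] at hW
  obtain ⟨hH, m, m', a, b, c⟩ := hW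
  refine om_elim (fun V m => ∀ m', V.E m' V.om → H V → Ap V.E (V.cl g) (V.num n) m →
    Ap V.E (V.cl (funN d)) (V.num n) m' → ¬ V.E m m' →
    V.P (⨆ m, ⨆ m', ⨆ _ : m' ≤ m, f i n m ⊓ d n m')) (fun X m m' hm' => ?_) W m
    ((hH.1.2.2 _ _ hH.2).2.2 _ _ a) m' ((fun_funN h3 W).2.2 _ _ b) hH a b c
  refine om_elim (fun V m' => H V → Ap V.E (V.cl g) (V.num n) (V.num m) →
    Ap V.E (V.cl (funN d)) (V.num n) m' → ¬ V.E (V.num m) m' →
    V.P (⨆ m, ⨆ m', ⨆ _ : m' ≤ m, f i n m ⊓ d n m')) (fun Y m' hH a b c => ?_) X m' hm'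
  exact Y.mono (le_iSup_of_le m (le_iSup₂_of_le m' (not_lt.1 fun h => c (Y.num_mem_num.2 h)) le_rfl))
    ((Y.inf _ _).2 ⟨(h2 Y i n m _ hH.1 hH.2).2 a, (ap_funN d Y n m').1 b⟩)

theorem Good.ioe' (hB : Good B μ) {ι : Type} (A : ι → Nm B) (hι : #ι ≤ μ) (U : Ult B) :
    Ioe U.E U.om (U.cl (lst A)) := by
  intro G hG
  obtain ⟨G, rfl⟩ := U.cl_surj G
  obtain ⟨f, h1, h2⟩ := exists_isFn A G
  obtain ⟨d, h3, h4⟩ := hB.ioe ι f hι h1
  refine ⟨_, fun_funN h3 U, fun k g hg => ?_⟩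
  obtain ⟨g, rfl⟩ := U.cl_surj g
  refine lst_elim A (fun V k => Fn V.E (V.cl (lst A)) (fun _ f => Fun V.E V.om f) (V.cl G) →
    Ap V.E (V.cl G) k (V.cl g) → Inf V.E V.om (fun n => ∃ m, Ap V.E (V.cl g) n m ∧
      Ap V.E (V.cl (funN d)) n m)) (fun V i h5 h6 => ?_) U k (hG.dom U.zfc hg) hG hg
  let H : Ult B → Prop := fun V => Fn V.E (V.cl (lst A)) (fun _ f => Fun V.E V.om f) (V.cl G) ∧
    Ap V.E (V.cl G) (V.cl (A i)) (V.cl g)
  let P : ∀ V : Ult B, V.M → Prop := fun V n => ∃ m, Ap V.E (V.cl g) n m ∧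
    Ap V.E (V.cl (funN d)) n m
  refine (inf_iff' P (fun n => bv fun V => P V (V.num n)) (fun W n => bv_iff _ W) V).1
    (V.mono (inB_mono (c := bv H) 0 fun n _ => ?_)
      ((V.inf _ _).2 ⟨(bv_iff H V).2 ⟨h5, h6⟩, h4 i ▸ V.top⟩))
  rw [inf_iSup_eq]
  refine iSup_le fun m => Ult.le_of fun W hW => ?_
  rw [W.inf, W.inf, bv_iff] at hW
  exact (bv_iff _ W).2 ⟨_, (h2 W i n m _ hW.1.1 hW.1.2).1 hW.2.1, (ap_funN d W n m).2 hW.2.2⟩

variable {K : Type} [LinearOrder K] [WellFoundedLT K]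

/-- Cardinals above the continuum are preserved. -/
theorem Good.no_inj (hB : Good B μ) {X Y : Set K} (h : #Y * 𝔠 < #X) (U : Ult B) :
    ¬ Leq U.E (U.cl (setN X)) (U.cl (setN Y)) := by
  rintro ⟨f, hf⟩
  obtain ⟨f, rfl⟩ := U.cl_surj f
  let H : Ult B → Prop := fun V => Inj V (V.cl (setN X)) (V.cl (setN Y)) (V.cl f)
  let b : Y → K → B := fun j i => bv fun V => H V ∧ Ap V.E (V.cl f) (V.cl (oN i)) (V.cl (oN j.1))
  have h1 : ∀ j, #{i | b j i ≠ ⊥} ≤ 𝔠 := fun j => hB.cc K (b j) fun i i' hne =>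
    eq_bot_of fun V hV => by
      rw [V.inf, bv_iff, bv_iff] at hV
      exact hne ((oN_inj V).1 ((hV.1.1.2 _ _ _ _ hV.1.2 hV.2.2).2 rfl))
  have h2 : X ⊆ ⋃ j, {i | b j i ≠ ⊥} := fun i hi => by
    obtain ⟨z, hz, h3⟩ := hf.1 _ (setN_intro U hi)
    exact setN_elim Y (fun V z => H V → Ap V.E (V.cl f) (V.cl (oN i)) z →
      i ∈ ⋃ j, {i | b j i ≠ ⊥}) (fun V j hj h4 h5 => mem_iUnion.2 ⟨⟨j, hj⟩,
        bv_ne_bot _ (U := V) ⟨h4, h5⟩⟩) U z hz hf h3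
  exact h.not_ge ((mk_le_mk_of_subset h2).trans ((mk_iUnion_le _).trans
    (mul_le_mul_right (ciSup_le' h1) _)))

theorem Good.big (hB : Good B μ) (X : ℕ → Set K) (h0 : 𝔠 ≤ #(X 0))
    (h : StrictMono fun n => #(X n)) (U : Ult B) : Big U.E U.om (U.cl (setN (univ : Set K))) := by
  have h1 : ∀ n, 𝔠 ≤ #(X n) := fun n => h0.trans (h.monotone n.zero_le)
  refine ⟨U.cl (grN numN (fun n => setN (X n)) fun _ => ⊤), fn_gen numN numN _ _
    (fun V _ y => Sub V.E y (V.cl (setN (univ : Set K))) ∧ Leq V.E V.om y)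
    (fun V n _ => ⟨V.num_mem_om n, setN_elim _ (fun V z => V.E z (V.cl (setN (univ : Set K))))
      (fun W a _ => setN_intro W (mem_univ a)) V, ?_⟩)
    (fun V n => ⟨_, V.ap_grN numN (fun n => setN (X n)) _ n V.top⟩)
    (fun V s t _ _ e => by rw [V.num_inj.1 e]) U, fun n m x y hn hx hy => ?_⟩
  · obtain ⟨g⟩ : Nonempty (ℕ ↪ X n) := by
      rw [← Cardinal.le_def, mk_nat]
      exact aleph0_le_continuum.trans (h1 n)
    exact le_chk numN (fun k => oN (g k).1) _ (fun W k => setN_intro W (g k).2)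
      (fun W s t => by rw [oN_inj, W.num_inj, ← Subtype.ext_iff, g.injective.eq_iff]) V
  · refine ap_elim numN (fun n => setN (X n)) _ (fun V n x => ∀ m y, V.E n m →
      Ap V.E (V.cl (grN numN (fun n => setN (X n)) fun _ => ⊤)) m y → Lt V.E x y)
      (fun V n _ m y hn hy => ?_) U n x hx m y hn hy
    refine ap_elim numN (fun n => setN (X n)) _ (fun V m y => V.E (V.num n) m →
      Lt V.E (V.cl (setN (X n))) y) (fun W m _ hn => W.lt_of_not_le (hB.no_inj ?_ W)) V m y hy hn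
    rw [mul_eq_left (aleph0_le_continuum.trans (h1 n)) (h1 n) continuum_ne_zero]
    exact h (W.num_mem_num.1 hn)

theorem model_of (h : ∀ μ : Cardinal.{0}, ∃ (B : Type) (_ : CompleteBooleanAlgebra B), Good B μ) :
    ∃ (M : Type 1) (E : M → M → Prop), ZFC E ∧ ∃ w v, Om E w ∧ Om1 E w v ∧
      (∃ F, Spl E w F ∧ Leq E F v) ∧ (∀ F, Spl E w F → ¬ Leq E F w) ∧ Pol E w v ∧
      ∃ K, Big E w K ∧ Bdd E w K ∧ Ioe E w K := by
  let κ : ℕ → Cardinal.{0} := fun n => Order.succ^[n] 𝔠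
  have hκ : StrictMono κ := strictMono_nat_of_lt_succ fun n => by
    simp only [κ, Function.iterate_succ_apply']
    exact Order.lt_succ _
  obtain ⟨B, _, hB⟩ := h (sum κ)
  obtain ⟨U, -⟩ := Ult.exists_mem hB.nt
  have h1 : #(univ : Set (sum κ).ord.ToType) = sum κ := by simp only [mk_univ, mk_toType, card_ord]
  choose X hX using fun n => le_mk_iff_exists_set.1 ((le_sum κ n).trans (mk_ord_toType _).ge)
  exact ⟨U.M, U.E, U.zfc, U.om, _, U.om_om, hB.om1 U, hB.split U, not_split U, hB.polar U, _,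
    hB.big X (hX 0).ge (by simpa only [hX] using hκ) U, hB.bdd _ h1.le U, hB.ioe' _ h1.le U⟩

end Pool.Agent.MP_1d5a21_lc

end
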